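import Pool.Agent.Lib.DR.Blue

set_option autoImplicit false

namespace Pool.Agent.DR

theorem st_AB : St_AB := by
  intro U _ T fl D φ h w
  induction w with
  | nil => intro hw; simp at hw
  | cons t w ih =>
    intro hw u v
    rcases u with _ | ⟨_ | _, u⟩
    · simpa using h.xsec (t :: w) _ (wd_mem (Subring.subset_closure (by simp))
        (Subring.subset_closure (by simp)) v)
    · rw [wd_false, mul_assoc, h.xb0]
      cases t
      · simpa using ih (by simpa using hw) u v
      · simp
    · rw [wd_true, mul_assoc, add_mul, map_add, h.ec, h.xb1]
      cases t
      · rw [ih (by simpa using hw) u v]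
        simp
      · simp

end Pool.Agent.DR
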