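import Pool.Agent.Lib.DR.Blue

set_option autoImplicit false

noncomputable section

namespace Pool.Agent.DR

open Finset

theorem arr_gen {g H G : P2} (hG : ∀ m n, cf (m + 1) n G = 0) (h : (va - vb) * g = H - va * G)
    (N n : ℕ) (hn : n < N) : cf (N - n) n g = ∑ j ∈ range (n + 1), cf (N + 1 - j) j H := by
  have key : ∀ m n, cf (m + 2) n (va * g) - cf (m + 2) n (vb * g) = cf (m + 2) n H := fun m n => by
    have := congrArg (cf (m + 2) n) h
    rwa [sub_mul, map_sub, map_sub, cf_va_succ (m + 1) n G, hG, sub_zero] at this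
  induction n with
  | zero =>
    obtain ⟨m, rfl⟩ : ∃ m, N = m + 1 := ⟨N - 1, by omega⟩
    have := key m 0
    rw [cf_va_succ (m + 1), cf_vb_zero, sub_zero] at this
    simpa using this
  | succ n ih =>
    obtain ⟨m, hm⟩ : ∃ m, N - (n + 1) = m + 1 := ⟨N - (n + 2), by omega⟩
    have := key m (n + 1)
    rw [cf_va_succ (m + 1), cf_vb_succ] at this
    rw [sum_range_succ, ← ih (by omega), hm, show N - n = m + 2 by omega,
      show N + 1 - (n + 1) = m + 2 by omega, ← this]
    ring

theorem arr_a {g F G : P2} (hG : ∀ m n, cf (m + 1) n G = 0) (h : (va - vb) * g = va * F - va * G)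
    (N n : ℕ) (hn : n < N) : cf (N - n) n g = ∑ j ∈ range (n + 1), cf (N - j) j F := by
  rw [arr_gen hG h N n hn]
  refine sum_congr rfl fun j hj => ?_
  rw [mem_range] at hj
  rw [show N + 1 - j = N - j + 1 by omega, cf_va_succ]

theorem arr_b {g F G : P2} (hG : ∀ m n, cf (m + 1) n G = 0) (h : (va - vb) * g = vb * F - va * G)
    (N n : ℕ) (hn : n < N) : cf (N - n) n g = ∑ j ∈ range n, cf (N - j) j F := by
  rw [arr_gen hG h N n hn, sum_range_succ', cf_vb_zero, add_zero]
  refine sum_congr rfl fun j _ => ?_
  rw [cf_vb_succ, show N + 1 - (j + 1) = N - j by omega]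

theorem arr_al (N n : ℕ) (hn : n < N) : ∑ j ∈ range (n + 1), cf (N - j) j al = 1 := by
  have h : ∀ m j, cf m j al = ∑ i ∈ range m, if i + j = 0 then (1 : ℚ) else 0 := fun m j => by
    rw [← mul_one al, cf_al, ← map_one cst]
    simp only [cf_cst]
  obtain ⟨m, rfl⟩ : ∃ m, N = m + 1 := ⟨N - 1, by omega⟩
  simp only [h]
  rw [sum_range_succ', Nat.sub_zero, sum_range_succ']
  simp

theorem st_ARR : St_ARR := by
  intro fl F h0 h1 h2 hb hx hy w
  induction w with
  | nil =>
    intro _ k N n hn
    rcases k with _ | k
    · rw [h0, arr_al N n hn]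
      simp [Q]
    · simp [h1]
  | cons s w ih =>
    intro hw k N n hn
    rcases k with _ | k
    · simp [h2]
    rw [sum_range_succ', hb _ _ _ hw, add_zero]
    have ih' := ih hw.tail k N
    cases s
    · obtain ⟨G, hG, h⟩ := hx k w hw
      have e : ∀ j ∈ range n, cf (N - (j + 1)) (j + 1) (F (k + 1) (false :: w)) =
          (if k = w.length then Q fl N w (j + 1) else 0) / ((j : ℚ) + 1) := fun j hj => by
        rw [mem_range] at hj
        have := arr_a hG h N (j + 1) (by omega)
        rw [ih' _ (by omega), cf_thB] at this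
        rw [← this, eq_div_iff (by positivity)]
        push_cast
        ring
      rw [sum_congr rfl e]
      by_cases hk : k = w.length
      · simp [hk, Q]
      · simp [hk]
    · obtain ⟨G, hG, h⟩ := hy k w hw
      have e : ∀ j ∈ range n, cf (N - (j + 1)) (j + 1) (F (k + 1) (true :: w)) =
          (if k = w.length then Q fl N w (if yh w && !fl then j + 1 else j) else 0) /
            ((N : ℚ) - (j + 1)) := fun j hj => by
        rw [mem_range] at hj
        have hc : ((N - (j + 1) : ℕ) : ℚ) = (N : ℚ) - (j + 1) := by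
          rw [Nat.cast_sub (by omega)]
          push_cast
          ring
        have hne : (N : ℚ) - (j + 1) ≠ 0 := by
          rw [← hc]
          exact Nat.cast_ne_zero.2 (by omega)
        rw [eq_div_iff hne, mul_comm, ← hc, ← cf_thA]
        by_cases hc : (yh w && !fl) = true
        · rw [if_pos hc] at h ⊢
          rw [arr_a hG h N (j + 1) (by omega), ih' _ (by omega)]
        · rw [if_neg hc] at h ⊢
          rw [arr_b hG h N (j + 1) (by omega), ih' _ (by omega)]
      rw [sum_congr rfl e]
      by_cases hk : k = w.length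
      · simp only [hk, Q, if_true, List.length_cons]
      · simp [hk]

end Pool.Agent.DR
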