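import Pool.Agent.Lib.DR.Blue

set_option autoImplicit false

noncomputable section

namespace Pool.Agent.DR

open Finset

theorem b0_comm_sec {U : Type} [Ring U] (T : Br U) {s : U}
    (hs : s ∈ Subring.closure {T.a0 + T.c, T.a1}) : Commute T.b0 s := by
  induction hs using Subring.closure_induction with
  | mem g hg =>
    rcases hg with rfl | rfl
    · exact T.h1
    · exact T.h7
  | zero => exact Commute.zero_right _
  | one => exact Commute.one_right _
  | add p q _ _ hp hq => exact hp.add_right hq
  | neg p _ hp => exact hp.neg_right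
  | mul p q _ _ hp hq => exact hp.mul_right hq

theorem st_BND : St_BND := by
  intro U _ T p hV hs k
  induction k generalizing p with
  | zero => intro m; simp
  | succ k ih =>
    intro m
    have hm1 : T.a0 + T.c ∈ Subring.closure {T.a0 + T.c, T.a1} :=
      Subring.subset_closure (by simp)
    have hm2 : T.a1 ∈ Subring.closure {T.a0 + T.c, T.a1} :=
      Subring.subset_closure (by simp)
    have hZ : ∀ s ∈ Subring.closure {T.a0 + T.c, T.a1}, rt (T.a0 + T.b0 + T.c) p s = 0 := by
      intro s h
      have e : (T.a0 + T.b0 + T.c) * s = (T.a0 + T.c) * s + s * T.b0 := by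
        rw [← (b0_comm_sec T h).eq, ← add_mul, add_right_comm]
      rw [rt_apply, e, map_add, hs _ (mul_mem hm1 h), (hV s).2.1, add_zero]
    have hA : ∀ s ∈ Subring.closure {T.a0 + T.c, T.a1}, rt T.a1 p s = 0 := fun s h => by
      rw [rt_apply, hs _ (mul_mem hm2 h)]
    rw [cf_rho, map_sub, map_sub, cf_al, cf_be, ih _ (hV.rt _) hZ,
      sum_eq_zero fun j _ => ih _ (hV.rt _) hA j, hs 1 (one_mem _)]
    simp

end Pool.Agent.DR
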