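import Pool.Agent.Lib.DR.Blue

set_option autoImplicit false

noncomputable section

namespace Pool.Agent.DR

open Finset

universe v

namespace CONV

variable {R : Type v} [CommRing R]

/-- the convolution sum -/
def KK (Φ : List Bool → R) (κ : List Bool → List Bool → List Bool → ℤ) (w : List Bool)
    (Ψ : List Bool → R) : R :=
  ∑ x ∈ antidiagonal w.length, ∑ u ∈ W x.1, ∑ v ∈ W x.2, κ w u v • (Ψ u * Φ v)

/-- the term with empty left word -/
def val (Φ : List Bool → R) (κ : List Bool → List Bool → List Bool → ℤ) (w : List Bool) : R :=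
  ∑ v ∈ W w.length, κ w [] v • Φ v

theorem KK_cons (Φ : List Bool → R) (κ : List Bool → List Bool → List Bool → ℤ) (s : Bool)
    (w : List Bool) (Ψ : List Bool → R) :
    KK Φ κ (s :: w) Ψ = Ψ [] * val Φ κ (s :: w) +
      (∑ x ∈ antidiagonal w.length, ∑ u ∈ W x.1, ∑ v ∈ W x.2,
        κ (s :: w) (false :: u) v • (Ψ (false :: u) * Φ v) +
      ∑ x ∈ antidiagonal w.length, ∑ u ∈ W x.1, ∑ v ∈ W x.2,
        κ (s :: w) (true :: u) v • (Ψ (true :: u) * Φ v)) := by
  rw [KK, List.length_cons, Finset.Nat.sum_antidiagonal_succ, W_zero, sum_singleton, val,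
    List.length_cons, mul_sum, ← sum_add_distrib]
  simp only [sum_W_succ, mul_smul_comm]

theorem main {Φ : List Bool → R} {κ : List Bool → List Bool → List Bool → ℤ} (h1 : Φ [] = 1)
    (hk : Kap κ) (h0 : κ [] [] [] = 0) (h : ∀ w, OK (false :: w) → KK Φ κ (false :: w) Φ = 0)
    (w : List Bool) : OK w →
      (∀ Ψ, KK Φ κ w Ψ = Ψ [] * val Φ κ w) ∧ (yh w = false → val Φ κ w = 0) := by
  induction w with
  | nil =>
    intro _
    exact ⟨fun Ψ => by simp [KK, val, W_zero, h0], fun _ => by simp [val, W_zero, h0]⟩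
  | cons s w ih =>
    intro hw
    obtain ⟨hA, hB⟩ := ih hw.tail
    have key : ∀ Ψ, KK Φ κ (s :: w) Ψ = Ψ [] * val Φ κ (s :: w) := fun Ψ => by
      have e1 : ∑ x ∈ antidiagonal w.length, ∑ u ∈ W x.1, ∑ v ∈ W x.2,
          κ (s :: w) (false :: u) v • (Ψ (false :: u) * Φ v) = 0 := by
        have e := hA fun u => if u = [] then 0 else (if yh w then 1 else -1) * Ψ (false :: u)
        rw [if_pos rfl, zero_mul, KK] at e
        rw [← e]
        refine sum_congr rfl fun x _ => sum_congr rfl fun u _ => sum_congr rfl fun v _ => ?_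
        cases u with
        | nil => simp [hk.f1 s w v hw]
        | cons t u =>
          rw [hk.f2 s w t u v hw]
          cases yh w <;> simp
      have e2 : ∑ x ∈ antidiagonal w.length, ∑ u ∈ W x.1, ∑ v ∈ W x.2,
          κ (s :: w) (true :: u) v • (Ψ (true :: u) * Φ v) = 0 := by
        simp only [hk.t1 s w _ _ hw]
        cases hy : yh w
        · have e := hA fun u => Ψ (true :: u)
          rw [hB hy, mul_zero, KK] at e
          simpa using e
        · simp
      rw [KK_cons, e1, e2, add_zero, add_zero]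
    refine ⟨key, fun hs => ?_⟩
    rw [yh_cons] at hs
    subst hs
    have e := key Φ
    rw [h w hw, h1, one_mul] at e
    exact e.symm

end CONV

theorem st_CONV : St_CONV.{v} := fun _ _ _ _ h1 hk h0 h w hw =>
  (CONV.main h1 hk h0 h (false :: w) hw).2 rfl

end Pool.Agent.DR
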