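import Pool.Agent.Lib.DR.Blue

set_option autoImplicit false

noncomputable section

namespace Pool.Agent.DR

open Finset

/-- sum of the coefficients of total degree `N` -/
def diagS (N : ℕ) (f : P2) : ℚ := ∑ x ∈ antidiagonal N, cf x.1 x.2 f

theorem diagS_add (N : ℕ) (f g : P2) : diagS N (f + g) = diagS N f + diagS N g := by
  simp [diagS, sum_add_distrib]

theorem diagS_sub (N : ℕ) (f g : P2) : diagS N (f - g) = diagS N f - diagS N g := by
  simp [diagS, sum_sub_distrib]

theorem diagS_va (N : ℕ) (f : P2) : diagS (N + 1) (va * f) = diagS N f := by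
  simp [diagS, Finset.Nat.antidiagonal_succ]

theorem diagS_vb (N : ℕ) (f : P2) : diagS (N + 1) (vb * f) = diagS N f := by
  simp [diagS, Finset.Nat.antidiagonal_succ']

theorem diagS_al (N : ℕ) (f : P2) : diagS N (al * f) = ∑ M ∈ range N, diagS M f := by
  have h : al * f = va * (al * f + f) := by linear_combination f * al_eq
  induction N with
  | zero => rw [h]; simp [diagS]
  | succ N ih => rw [h, diagS_va, diagS_add, ih, sum_range_succ]

theorem diagS_be (N : ℕ) (f : P2) : diagS N (be * f) = ∑ M ∈ range N, diagS M f := by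
  have h : be * f = vb * (be * f + f) := by linear_combination f * be_eq
  induction N with
  | zero => rw [h]; simp [diagS]
  | succ N ih => rw [h, diagS_vb, diagS_add, ih, sum_range_succ]

theorem diagS_rho {U : Type} [Ring U] (T : Br U) (k N : ℕ) (p : U →+ ℚ) :
    diagS N (rho T (k + 1) p) = (if k = 0 ∧ N = 0 then p 1 else 0) + (N : ℚ)⁻¹ *
      (diagS N (rho T k (rt (T.a0 + T.b0 + T.c) p)) - ∑ M ∈ range N, diagS M (rho T k (rt T.a1 p)) -
        ∑ M ∈ range N, diagS M (rho T k (rt T.b1 p))) := by
  rw [← diagS_al, ← diagS_be, ← diagS_sub, ← diagS_sub]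
  have h1 : (if k = 0 ∧ N = 0 then p 1 else 0) =
      ∑ _x ∈ antidiagonal N, (if k = 0 ∧ N = 0 then p 1 else 0) := by
    by_cases h : k = 0 ∧ N = 0
    · obtain ⟨hk, hN⟩ := h
      subst hN
      simp
    · simp [h]
  rw [h1, diagS, diagS, mul_sum, ← sum_add_distrib]
  refine sum_congr rfl fun x hx => ?_
  have hx' : x.1 + x.2 = N := mem_antidiagonal.1 hx
  rw [cf_rho, hx', ← Nat.cast_add, hx']

theorem commute_wd {B : Type*} [Monoid B] {c p q : B} (hp : Commute c p) (hq : Commute c q)
    (u : List Bool) : Commute c (wd p q u) := by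
  induction u with
  | nil => simp
  | cons s u ih =>
    cases s
    · rw [wd_false]; exact hp.mul_right ih
    · rw [wd_true]; exact hq.mul_right ih

theorem st_DIAG : St_DIAG := by
  intro U _ T p hp k N
  change diagS N _ = _
  induction k generalizing p N with
  | zero =>
    rw [diagS_rho]
    by_cases h : N = 0 <;> simp [diagS, W_zero, ell, h]
  | succ k ih =>
    have hc : ∀ u, p (T.c * wd (T.a0 + T.b0) (T.a1 + T.b1) u) = 0 := fun u => by
      rw [(commute_wd T.h3 T.h4 u).eq]
      exact (hp _).2.2
    rw [diagS_rho, ih _ (hp.rt _), sum_congr rfl fun M _ => ih _ (hp.rt T.a1) M,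
      sum_congr rfl fun M _ => ih _ (hp.rt T.b1) M, sum_W_succ, sum_comm (s := range N),
      sum_comm (s := range N), ← sum_sub_distrib, ← sum_sub_distrib, mul_sum, ← sum_add_distrib]
    simp only [Nat.succ_ne_zero, false_and, if_false, zero_add]
    refine sum_congr rfl fun u _ => ?_
    simp only [rt_apply, wd_false, wd_true, ell, add_mul (T.a0 + T.b0), add_mul T.a1, map_add, hc,
      ← mul_sum]
    ring

end Pool.Agent.DR
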