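import Pool.Agent.Lib.DR.Blue

set_option autoImplicit false

namespace Pool.Agent.DR

section eta
variable {U : Type} [Ring U] {T : Br U} {fl : Bool} {D : U →+* U} {φ : List Bool → U →+ ℤ}

theorem eta_psi (w : List Bool) (x : U) :
    psi D φ w x = if yh w then φ w x - φ w (D x) else φ w x := by
  unfold psi
  split_ifs <;> rfl

theorem eta_psi0 (w : List Bool) {x : U} (hx : D x = 0) : psi D φ w x = φ w x := by
  rw [eta_psi, hx, map_zero, sub_zero, ite_self]

theorem eta_comm {z : U} {S : Set U} (h : ∀ g ∈ S, Commute z g) {s : U}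
    (hs : s ∈ Subring.closure S) : Commute z s := by
  induction hs using Subring.closure_induction with
  | mem g hg => exact h g hg
  | zero => exact Commute.zero_right z
  | one => exact Commute.one_right z
  | add p q _ _ hp hq => exact hp.add_right hq
  | neg p _ hp => exact hp.neg_right
  | mul p q _ _ hp hq => exact hp.mul_right hq

theorem eta_fix (hF : Fam T fl D φ) {s : U}
    (hs : s ∈ Subring.closure {T.a0 + T.b0, T.a1 + T.b1}) : D s = s := by
  induction hs using Subring.closure_induction with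
  | mem g hg =>
    rcases hg with rfl | rfl
    · rw [map_add, hF.Da0, hF.Db0, zero_add]
    · rw [map_add, hF.Da1, hF.Db1, zero_add]
  | zero => exact map_zero D
  | one => exact map_one D
  | add p q _ _ hp hq => rw [map_add, hp, hq]
  | neg p _ hp => rw [map_neg, hp]
  | mul p q _ _ hp hq => rw [map_mul, hp, hq]

theorem eta_Y (hY : ∀ w, Adm w → ∀ v, φ w (wd (T.a0 + T.b0) (T.a1 + T.b1) (true :: v)) = 0)
    {w : List Bool} (hw : OK w) (hy : yh w = false) {s : U}
    (hs : s ∈ Subring.closure {T.a0 + T.b0, T.a1 + T.b1}) : φ w ((T.a1 + T.b1) * s) = 0 :=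
  closure_wd (rt (T.a1 + T.b1) (φ w)) (fun v => by simpa using hY w ⟨hw, hy⟩ v) hs

theorem eta_Z (T : Br U) : Commute (T.a1 + T.b1 + T.c) T.a1 ∧ Commute (T.a1 + T.b1 + T.c) T.b1 ∧
    Commute (T.a1 + T.b1 + T.c) T.c := by
  refine ⟨?_, ?_, T.h4.symm.add_left (Commute.refl _)⟩
  · rw [add_assoc, add_comm T.b1]
    exact (Commute.refl _).add_left T.h6.symm
  · rw [add_comm T.a1, add_assoc, add_comm T.a1]
    exact (Commute.refl _).add_left T.h5.symm

theorem eta_N (hF : Fam T fl D φ) (hV : ∀ w, OK w → Van T (φ w))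
    (hY : ∀ w, Adm w → ∀ v, φ w (wd (T.a0 + T.b0) (T.a1 + T.b1) (true :: v)) = 0)
    (w : List Bool) (hw : OK w) : ∀ u ∈ Subring.closure {T.a1, T.b1, T.c},
      ∀ s ∈ Subring.closure {T.a0 + T.b0, T.a1 + T.b1}, ∀ r : U,
        psi D φ w ((T.a1 + T.b1 + T.c) * (u * (s + r * T.c))) = 0 := by
  obtain ⟨z1, z2, z3⟩ := eta_Z T
  have hc : ∀ s ∈ Subring.closure {T.a0 + T.b0, T.a1 + T.b1}, Commute T.c s := fun s hs =>
    eta_comm (by rintro g (rfl | rfl); exacts [T.h3, T.h4]) hs
  have hmove : ∀ s ∈ Subring.closure {T.a0 + T.b0, T.a1 + T.b1}, ∀ r : U,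
      (T.a1 + T.b1 + T.c) * (s + r * T.c) =
        (T.a1 + T.b1) * s + (s + (T.a1 + T.b1 + T.c) * r) * T.c := fun s hs r => by
    rw [mul_add, add_mul _ T.c s, (hc s hs).eq, add_mul s, mul_assoc _ r, add_assoc]
  have hm1 : T.a1 + T.b1 ∈ Subring.closure {T.a0 + T.b0, T.a1 + T.b1} :=
    Subring.subset_closure (by simp)
  induction w with
  | nil =>
    intro u _ s _ r
    rw [eta_psi, yh_nil, if_neg (by simp), add_mul, add_mul, map_add, map_add, (hF.nil _).2.1,
      (hF.nil _).2.2.2.2, (hF.nil _).2.2.1, add_zero, add_zero]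
  | cons t w ih =>
    have ih' := ih hw.tail
    have hD : yh w = false → ∀ x, φ w (D ((T.a1 + T.b1 + T.c) * x)) = 0 := fun hy x => by
      rw [map_mul, map_add, map_add, hF.Da1, hF.Db1, hF.Dc, zero_add, add_zero]
      exact eta_Y hY hw.tail hy (hF.Dmem x)
    let H : AddSubgroup U :=
      { carrier := {u | u ∈ Subring.closure {T.a1, T.b1, T.c} ∧
          ∀ s ∈ Subring.closure {T.a0 + T.b0, T.a1 + T.b1}, ∀ r : U,
            psi D φ (t :: w) ((T.a1 + T.b1 + T.c) * (u * (s + r * T.c))) = 0}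
        add_mem' := fun {p q} hp hq => ⟨add_mem hp.1 hq.1, fun s hs r => by
          rw [add_mul p, mul_add, map_add, hp.2 s hs r, hq.2 s hs r, add_zero]⟩
        zero_mem' := ⟨zero_mem _, fun s _ r => by rw [zero_mul, mul_zero, map_zero]⟩
        neg_mem' := fun {p} hp => ⟨neg_mem hp.1, fun s hs r => by
          rw [neg_mul, mul_neg, map_neg, hp.2 s hs r, neg_zero]⟩ }
    have ma : T.a1 ∈ Subring.closure {T.a1, T.b1, T.c} := Subring.subset_closure (by simp)
    have mb : T.b1 ∈ Subring.closure {T.a1, T.b1, T.c} := Subring.subset_closure (by simp)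
    have mc : T.c ∈ Subring.closure {T.a1, T.b1, T.c} := Subring.subset_closure (by simp)
    have HZ : ∀ u ∈ H, (T.a1 + T.b1 + T.c) * u ∈ H := fun u hu =>
      ⟨mul_mem (add_mem (add_mem ma mb) mc) hu.1, fun s hs r => by
        have hz : Commute (T.a1 + T.b1 + T.c) u :=
          eta_comm (by rintro g (rfl | rfl | rfl); exacts [z1, z2, z3]) hu.1
        rw [hz.eq, mul_assoc u, hmove s hs r]
        exact hu.2 _ (mul_mem hm1 hs) _⟩
    have Hc : ∀ u ∈ H, T.c * u ∈ H := fun u hu => ⟨mul_mem mc hu.1, fun s hs r => by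
      have h := ih' u hu.1 s hs r
      rw [mul_assoc T.c, ← mul_assoc _ T.c, z3.eq, mul_assoc T.c,
        eta_psi0 _ (by rw [map_mul, hF.Dc, zero_mul]), hF.ec]
      rw [eta_psi] at h
      cases hy : yh w
      · rw [hy] at h
        simp only [Bool.false_eq_true, if_false] at h ⊢
        rw [h, hD hy, sub_zero]
      · rw [hy] at h
        exact h⟩
    have H1 : (1 : U) ∈ H := ⟨one_mem _, fun s hs r => by
      rw [one_mul, hmove s hs r, map_add, eta_psi0 _ (x := _ * T.c) (by rw [map_mul, hF.Dc, mul_zero]),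
        (hV _ hw _).2.2, add_zero, eta_psi, eta_fix hF (mul_mem hm1 hs), sub_self]
      cases t
      · exact eta_Y hY hw rfl hs
      · rfl⟩
    intro u hu
    refine (closure_left H H1 ?_ hu).2
    cases t
    · have Hb : ∀ u ∈ H, T.b1 * u ∈ H := fun u hu => ⟨mul_mem mb hu.1, fun s hs r => by
        have h := ih' u hu.1 s hs r
        rw [mul_assoc T.b1, ← mul_assoc _ T.b1, z2.eq, mul_assoc T.b1, eta_psi, yh_cons,
          if_neg (by simp), hF.xb1]
        rw [eta_psi] at h
        cases hy : yh w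
        · simp only [Bool.false_eq_true, if_false]
          rw [hD hy, neg_zero]
        · rw [hy] at h
          simp only [if_true] at h ⊢
          rw [← neg_sub, h, neg_zero]⟩
      rintro g (rfl | rfl | rfl) u hu
      · have e : T.a1 * u = (T.a1 + T.b1 + T.c) * u - T.c * u - T.b1 * u := by noncomm_ring
        rw [e]
        exact sub_mem (sub_mem (HZ u hu) (Hc u hu)) (Hb u hu)
      · exact Hb u hu
      · exact Hc u hu
    · have Ha : ∀ u ∈ H, T.a1 * u ∈ H := fun u hu => ⟨mul_mem ma hu.1, fun s hs r => by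
        have h := ih' u hu.1 s hs r
        rw [mul_assoc T.a1, ← mul_assoc _ T.a1, z1.eq, mul_assoc T.a1,
          eta_psi0 _ (by rw [map_mul, hF.Da1, zero_mul]), hF.ya1]
        rw [eta_psi] at h
        cases hy : yh w
        · rw [hy] at h
          exact h
        · rfl⟩
      rintro g (rfl | rfl | rfl) u hu
      · exact Ha u hu
      · have e : T.b1 * u = (T.a1 + T.b1 + T.c) * u - T.c * u - T.a1 * u := by noncomm_ring
        rw [e]
        exact sub_mem (sub_mem (HZ u hu) (Hc u hu)) (Ha u hu)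
      · exact Hc u hu

end eta

theorem st_ETA : St_ETA := by
  intro U _ T fl D φ hF hV hY
  have hδ : ∀ v, wd (T.a0 + T.b0) (T.a1 + T.b1) v ∈ Subring.closure {T.a0 + T.b0, T.a1 + T.b1} :=
    wd_mem (Subring.subset_closure (by simp)) (Subring.subset_closure (by simp))
  refine ⟨fun s w v _ => ?_, fun s w t u v _ => ?_, fun s w u v hw => ?_⟩
  · rw [kap, wd_false, wd_nil, mul_one, eta_psi0 _ (by rw [map_mul, hF.Dc, zero_mul]), hF.ec,
      eta_fix hF (hδ v), sub_self, ite_self]
  · have h0 : D (wd T.c T.a1 (t :: u) * wd (T.a0 + T.b0) (T.a1 + T.b1) v) = 0 := by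
      cases t
      · rw [wd_false, map_mul, map_mul, hF.Dc, zero_mul, zero_mul]
      · rw [wd_true, map_mul, map_mul, hF.Da1, zero_mul, zero_mul]
    rw [kap, kap, wd_false, mul_assoc, eta_psi0 _ (by rw [map_mul, hF.Dc, zero_mul]), hF.ec,
      eta_psi0 _ h0, h0, map_zero, sub_zero, zero_sub]
  · rw [kap, kap, wd_true, mul_assoc, eta_psi0 _ (by rw [map_mul, hF.Da1, zero_mul])]
    cases s
    · have hu : wd T.c T.a1 u ∈ Subring.closure {T.a1, T.b1, T.c} :=
        wd_mem (Subring.subset_closure (by simp)) (Subring.subset_closure (by simp)) u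
      have h := eta_N hF hV hY _ hw _ hu _ (hδ v) 0
      rw [zero_mul, add_zero, eta_psi, yh_cons, if_neg (by simp), add_mul, add_mul, map_add,
        map_add, hF.xb1, hF.ec] at h
      rw [eta_psi]
      cases hy : yh w
      · rw [hy] at h
        simp only [Bool.false_eq_true, if_false] at h ⊢
        linear_combination h
      · rw [hy] at h
        simp only [if_true] at h ⊢
        linear_combination h
    · rw [hF.ya1, eta_psi]
      cases yh w <;> rfl

end Pool.Agent.DR
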