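import Pool.Agent.Lib.DR.Blue

set_option autoImplicit false

noncomputable section

namespace Pool.Agent.DR

/-- the zero representation -/
def famZero (B : Type) [Ring B] : Br B where
  a0 := 0
  a1 := 0
  c := 0
  b0 := 0
  b1 := 0
  h1 := Commute.zero_left _
  h2 := Commute.zero_left _
  h3 := Commute.zero_left _
  h4 := Commute.zero_left _
  h5 := Commute.zero_left _
  h6 := Commute.zero_left _
  h7 := Commute.zero_left _
  h8 := Commute.zero_left _

/-- the diagonal representation -/
def famDiag {B : Type} [Ring B] (p q : B) : Br B where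
  a0 := 0
  a1 := 0
  c := 0
  b0 := p
  b1 := q
  h1 := by rw [add_zero]; exact Commute.zero_right _
  h2 := Commute.zero_left _
  h3 := Commute.zero_left _
  h4 := Commute.zero_left _
  h5 := by rw [add_zero]; exact Commute.zero_right _
  h6 := Commute.zero_left _
  h7 := Commute.zero_right _
  h8 := Commute.zero_left _

theorem st_FAM : St_FAM := by
  intro U _ T hU hF hS fl
  obtain ⟨e, e1, e2, e3, e4, e5⟩ := hU.lift ℤ (famZero ℤ)
  obtain ⟨D, d1, d2, d3, d4, d5⟩ := hU.lift U (famDiag (T.a0 + T.b0) (T.a1 + T.b1))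
  change e T.a0 = 0 at e1
  change e T.a1 = 0 at e2
  change e T.c = 0 at e3
  change e T.b0 = 0 at e4
  change e T.b1 = 0 at e5
  change D T.a0 = 0 at d1
  change D T.a1 = 0 at d2
  change D T.c = 0 at d3
  change D T.b0 = T.a0 + T.b0 at d4
  change D T.b1 = T.a1 + T.b1 at d5
  choose FX x0 x1 xc xs using hF
  choose FY y0 y1 yc ys using hS
  let E : U →+ U := D.toAddMonoidHom
  let gc : List Bool → (U →+ ℤ) → U →+ ℤ := fun w p =>
    if yh w then p - p.comp E else p.comp E - p
  let φ : List Bool → U →+ ℤ := fun w => List.rec e.toAddMonoidHom (fun s w p =>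
    if s then FY (if yh w && fl then -p else 0) (if yh w then 0 else p) (gc w p)
    else FX (if yh w then 0 else p) (if yh w then p.comp E - p else -p.comp E) (gc w p)) w
  have h0 : ∀ u, φ [] u = e u := fun u => rfl
  have hT : ∀ w, φ (true :: w) =
      FY (if yh w && fl then -φ w else 0) (if yh w then 0 else φ w) (gc w (φ w)) := fun w => rfl
  have hX : ∀ w, φ (false :: w) = FX (if yh w then 0 else φ w)
      (if yh w then (φ w).comp E - φ w else -(φ w).comp E) (gc w (φ w)) := fun w => rfl
  have hgc : ∀ w u, gc w (φ w) u =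
      if yh w then φ w u - φ w (D u) else φ w (D u) - φ w u := fun w u => by
    simp only [gc]
    split_ifs <;> rfl
  refine ⟨D, φ, d1, d2, d3, d4, d5, fun u => ?_, by rw [h0, map_one], fun u => ?_, fun u => ?_,
    fun s w u => ?_, fun w u => ?_, fun w u => ?_, fun w s hs => ?_, fun w u => ?_, fun w u => ?_,
    fun w s hs => ?_⟩
  · refine hU.ind ((Subring.closure {T.a0 + T.b0, T.a1 + T.b1}).toAddSubgroup.comap E) ?_ ?_ u
    · change D 1 ∈ Subring.closure _
      rw [map_one]
      exact one_mem _
    · intro v hv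
      change D v ∈ Subring.closure _ at hv
      refine ⟨?_, ?_, ?_, ?_, ?_⟩ <;> change D (_ * v) ∈ Subring.closure _ <;> rw [map_mul]
      · rw [d1, zero_mul]; exact zero_mem _
      · rw [d2, zero_mul]; exact zero_mem _
      · rw [d3, zero_mul]; exact zero_mem _
      · rw [d4]; exact mul_mem (Subring.subset_closure (by simp)) hv
      · rw [d5]; exact mul_mem (Subring.subset_closure (by simp)) hv
  · simp only [h0, map_mul, e1, e2, e3, e4, e5, zero_mul, and_self]
  · simp only [h0, map_mul, e1, e3, e4, mul_zero, and_self]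
  · rw [← hgc]
    cases s
    · rw [hX]; exact xc _ _ _ u
    · rw [hT]; exact yc _ _ _ u
  · rw [hT]
    refine (y0 _ _ _ u).trans ?_
    split_ifs <;> rfl
  · rw [hT]
    refine (y1 _ _ _ u).trans ?_
    split_ifs <;> rfl
  · rw [hT]
    exact ys _ _ _ s hs
  · rw [hX]
    refine (x0 _ _ _ u).trans ?_
    split_ifs <;> rfl
  · rw [hX]
    refine (x1 _ _ _ u).trans ?_
    split_ifs <;> rfl
  · rw [hX]
    exact xs _ _ _ s hs

end Pool.Agent.DR
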