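import Pool.Agent.Lib.DR.Blue

set_option autoImplicit false

noncomputable section

namespace Pool.Agent.DR

open Finset

namespace FLAT

variable {U : Type} [Ring U] (T : Br U)

theorem rt_rt (s t : U) (p : U →+ ℚ) : rt t (rt s p) = rt (s * t) p := by
  ext u
  simp [mul_assoc]

theorem cf00 (k : ℕ) (q : U →+ ℚ) (h : q 1 = 0) : cf 0 0 (rho T k q) = 0 := by
  cases k with
  | zero => simp
  | succ k => rw [cf_rho, h]; simp

theorem om (p : U →+ ℚ) (hV : Van T p) (k : ℕ) :
    thA (rho T (k + 1) p) + thB (rho T (k + 1) p) =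
      rho T k (rt (T.a0 + T.b0 + T.c) p) - al * rho T k (rt T.a1 p) -
        be * rho T k (rt T.b1 p) := by
  refine ext2 fun m n => ?_
  rw [map_add, cf_thA, cf_thB, ← add_mul, cf_rho]
  by_cases h : m + n = 0
  · obtain ⟨rfl, rfl⟩ := Nat.add_eq_zero_iff.1 h
    have h1 := hV 1
    simp only [one_mul] at h1
    rw [map_sub, map_sub, cf_al, cf_be, cf00 T k _ (by simp [h1.1, h1.2.1, h1.2.2])]
    simp
  · have h' : (m : ℚ) + n ≠ 0 := by exact_mod_cast h
    rw [if_neg (fun hh => h hh.2), zero_add, ← mul_assoc, mul_inv_cancel₀ h', one_mul]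

theorem first (k : ℕ) : ∀ p : U →+ ℚ, Van T p →
    (va - vb) * (thB (rho T (k + 1) p) - rho T k (rt T.b0 p) + be * rho T k (rt T.b1 p)) +
      vb * rho T k (rt T.c p) = 0 := by
  induction k with
  | zero =>
    intro p _
    have h : thB (rho T (0 + 1) p) = 0 := ext2 fun m n => by
      rw [cf_thB, cf_rho]
      rcases n with _ | n <;> simp
    rw [h]
    simp
  | succ k ih =>
    intro p hV
    let R : U →+ P2 := AddMonoidHom.mk' (fun s => rho T k (rt s p)) fun s t => by
      rw [← map_add]
      congr 1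
      ext u
      simp [add_mul]
    have hR : ∀ s t, rho T k (rt t (rt s p)) = R (s * t) := fun s t => by rw [rt_rt]; rfl
    have e1 : R ((T.a0 + T.b0 + T.c) * T.b0) = R (T.b0 * (T.a0 + T.b0 + T.c)) := by
      congr 1
      linear_combination (norm := noncomm_ring) -T.h1.eq
    have e2 : R ((T.a0 + T.b0 + T.c) * T.c) = R (T.c * (T.a0 + T.b0 + T.c)) := by
      congr 1
      linear_combination (norm := noncomm_ring) -T.h3.eq
    have e3 : R (T.a1 * T.b0) = R (T.b0 * T.a1) := by rw [T.h7.eq]
    have e4 : R ((T.a0 + T.b0 + T.c) * T.b1) + R (T.b1 * T.b0) + R (T.b1 * T.c) =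
        R (T.b1 * (T.a0 + T.b0 + T.c)) + R (T.b0 * T.b1) + R (T.c * T.b1) := by
      simp only [← map_add]
      congr 1
      linear_combination (norm := noncomm_ring) T.h8.eq
    have e5 : R (T.a1 * T.b1) + R (T.c * T.b1) = R (T.b1 * T.a1) + R (T.b1 * T.c) := by
      simp only [← map_add]
      congr 1
      linear_combination (norm := noncomm_ring) -T.h5.eq
    have e6 : R (T.a1 * T.c) + R (T.a1 * T.b1) = R (T.c * T.a1) + R (T.b1 * T.a1) := by
      simp only [← map_add]
      congr 1
      linear_combination (norm := noncomm_ring) T.h6.eq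
    have i1 := ih _ (hV.rt (T.a0 + T.b0 + T.c))
    have i2 := ih _ (hV.rt T.a1)
    have i3 := ih _ (hV.rt T.b1)
    have o0 := congrArg thB (om T p hV (k + 1))
    have o1 := om T _ (hV.rt T.b0) k
    have o2 := om T _ (hV.rt T.b1) k
    have o3 := om T _ (hV.rt T.c) k
    simp only [hR] at i1 i2 i3 o1 o2 o3
    rw [map_add, map_sub, map_sub, thB_al, ← thA_thB] at o0
    have hab : (va - vb) * (be + al * be) = vb * (al - be) := by
      linear_combination al * be_eq - be * al_eq
    generalize hE : (va - vb) * (thB (rho T (k + 1 + 1) p) - rho T (k + 1) (rt T.b0 p) +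
      be * rho T (k + 1) (rt T.b1 p)) + vb * rho T (k + 1) (rt T.c p) = E
    have hΩ : thA E + thB E = E := by
      rw [← hE]
      simp only [sub_mul, map_add, map_sub, thA_va, thB_va, thA_vb, thB_vb, thA_be]
      linear_combination i1 - al * i2 - be * i3 + (va - vb) * o0 - (va - vb) * o1 +
        (va - vb) * be * o2 + vb * o3 + (va - vb) * e1 - vb * e2 - (va - vb) * al * e3 -
        (va - vb) * be * e4 + ((va - vb) * al * be - al * vb) * e5 + al * vb * e6 -
        (R (T.c * T.b1) - R (T.b1 * T.c)) * hab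
    have h1 := hV 1
    simp only [one_mul] at h1
    have c1 := cf00 T (k + 1) (rt T.b0 p) (by simp [h1.2.1])
    have c2 := cf00 T (k + 1) (rt T.c p) (by simp [h1.2.2])
    refine ext2 fun m n => ?_
    have h2 := congrArg (cf m n) hΩ
    rw [map_add, cf_thA, cf_thB, ← add_mul] at h2
    rw [map_zero]
    by_cases h : m + n = 1
    · rw [← hE, sub_mul]
      rcases m with _ | m
      · obtain rfl : n = 0 + 1 := by omega
        simp only [map_add, map_sub, cf_va_zero, cf_vb_succ, cf_thB, cf_be, c1, c2]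
        simp
      · obtain rfl : n = 0 := by omega
        obtain rfl : m = 0 := by omega
        simp only [map_add, map_sub, cf_va_succ, cf_vb_zero, cf_thB, cf_be, c1]
        simp
    · have h' : (m : ℚ) + n - 1 ≠ 0 := sub_ne_zero.2 (by exact_mod_cast h)
      exact (mul_eq_zero.1 (by linear_combination h2 : ((m : ℚ) + n - 1) * cf m n E = 0)).resolve_left h'

end FLAT

theorem st_FLAT : St_FLAT := by
  intro U _ T p hV k
  have h1 := FLAT.first T k p hV
  refine ⟨h1, ?_⟩
  have h2 := FLAT.om T p hV k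
  have h3 : rho T k (rt (T.a0 + T.b0 + T.c) p) =
      rho T k (rt T.a0 p) + rho T k (rt T.b0 p) + rho T k (rt T.c p) := by
    rw [← map_add, ← map_add]
    congr 1
    ext u
    simp [add_mul]
  rw [h3] at h2
  linear_combination (va - vb) * h2 - h1

end Pool.Agent.DR
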