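import Mathlib

/-! Independence of iterated integrals on two letters over `ℚ[z]`, and of nested harmonic sums
over `ℚ` (generic form). -/

open Polynomial

namespace Pool.Agent.DR.Ind19

/-- Vanishing Wronskian gives proportionality. -/
theorem prop_of_wr (p q : ℚ[X]) (hp : p ≠ 0) (h : p * derivative q = derivative p * q) :
    ∃ c : ℚ, q = C c * p := by
  have hl : p.leadingCoeff ≠ 0 := leadingCoeff_ne_zero.mpr hp
  refine ⟨q.coeff p.natDegree / p.leadingCoeff, ?_⟩
  set c := q.coeff p.natDegree / p.leadingCoeff with hc
  by_contra hne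
  set r := q - C c * p with hr
  have hr0 : r ≠ 0 := sub_ne_zero.mpr hne
  have hrc : r.coeff p.natDegree = 0 := by
    rw [hr, coeff_sub, coeff_C_mul, hc]
    have : p.coeff p.natDegree = p.leadingCoeff := rfl
    rw [this]; field_simp; ring
  have hw : p * (X * derivative r) = (X * derivative p) * r := by
    rw [hr]
    simp only [derivative_sub, derivative_mul, derivative_C, zero_mul, zero_add]
    linear_combination X * h
  have hth : ∀ (f : ℚ[X]) (n : ℕ), (X * derivative f).coeff n = n * f.coeff n := by
    intro f n
    cases n with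
    | zero => simp
    | succ n => rw [coeff_X_mul, coeff_derivative]; push_cast; ring
  have hdeg : ∀ f : ℚ[X], (X * derivative f).natDegree ≤ f.natDegree := by
    intro f
    rw [natDegree_le_iff_coeff_eq_zero]
    intro n hn
    rw [hth, coeff_eq_zero_of_natDegree_lt hn, mul_zero]
  have h1 := coeff_mul_add_eq_of_natDegree_le (le_refl p.natDegree) (hdeg r)
  have h2 := coeff_mul_add_eq_of_natDegree_le (hdeg p) (le_refl r.natDegree)
  rw [hw, h2, hth, hth] at h1
  have hlr : r.coeff r.natDegree ≠ 0 := leadingCoeff_ne_zero.mpr hr0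
  have hl' : p.coeff p.natDegree ≠ 0 := hl
  have h3 : (p.natDegree : ℚ) = r.natDegree := by
    have : p.coeff p.natDegree * r.coeff r.natDegree * ((p.natDegree : ℚ) - r.natDegree) = 0 := by
      linear_combination h1
    rcases mul_eq_zero.mp this with h4 | h4
    · exact absurd h4 (mul_ne_zero hl' hlr)
    · linarith
  have h4 : p.natDegree = r.natDegree := by exact_mod_cast h3
  rw [← h4] at hlr
  exact hlr hrc

/-- A logarithmic pole is not the pole of a derivative of a rational function. -/
theorem res_zero (t : ℚ) (u v p q : ℚ[X]) (hp : p ≠ 0) (hu : u.eval t ≠ 0)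
    (h : (X - C t) * u * (p * derivative q - derivative p * q) + p ^ 2 * v = 0) :
    v.eval t = 0 := by
  by_contra hv
  have hX : (X - C t : ℚ[X]) ≠ 0 := X_sub_C_ne_zero t
  by_cases hq : q = 0
  · subst hq
    have : p ^ 2 * v = 0 := by simpa using h
    rcases mul_eq_zero.mp this with h1 | h1
    · exact hp (pow_eq_zero_iff (by norm_num) |>.mp h1)
    · exact hv (by rw [h1]; simp)
  obtain ⟨p1, hp1, hp2⟩ := exists_eq_pow_rootMultiplicity_mul_and_not_dvd p hp t
  obtain ⟨q1, hq1, hq2⟩ := exists_eq_pow_rootMultiplicity_mul_and_not_dvd q hq t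
  generalize p.rootMultiplicity t = i at hp1
  generalize q.rootMultiplicity t = j at hq1
  have hp3 : p1.eval t ≠ 0 := fun h0 => hp2 (dvd_iff_isRoot.mpr h0)
  have hq3 : q1.eval t ≠ 0 := fun h0 => hq2 (dvd_iff_isRoot.mpr h0)
  have hpow : ∀ k : ℕ, (X - C t : ℚ[X]) * derivative ((X - C t) ^ k) = C (k : ℚ) * (X - C t) ^ k := by
    intro k
    cases k with
    | zero => simp
    | succ k =>
      rw [derivative_X_sub_C_pow]
      simp only [Nat.add_sub_cancel]
      rw [pow_succ]; ring
  set B : ℚ[X] := u * ((C (j : ℚ) - C (i : ℚ)) * p1 * q1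
    + (X - C t) * (p1 * derivative q1 - derivative p1 * q1)) with hB
  have key : (X - C t) ^ (i + j) * B + (X - C t) ^ (i + i) * (p1 ^ 2 * v) = 0 := by
    rw [hp1, hq1] at h
    simp only [derivative_mul] at h
    rw [hB, pow_add, pow_add]
    linear_combination h - u * (X - C t) ^ i * p1 * q1 * hpow j
      + u * (X - C t) ^ j * p1 * q1 * hpow i
  have hBe : B.eval t = u.eval t * (((j : ℚ) - i) * p1.eval t * q1.eval t) := by
    rw [hB]; simp
  rcases lt_trichotomy i j with hij | hij | hij
  · obtain ⟨k, rfl⟩ := Nat.exists_eq_add_of_lt hij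
    have h2 : (X - C t) ^ (i + i) * ((X - C t) ^ (k + 1) * B + p1 ^ 2 * v) = 0 := by
      rw [← key]; ring
    have h3 := (mul_eq_zero.mp h2).resolve_left (pow_ne_zero _ hX)
    have h4 := congrArg (eval t) h3
    simp at h4
    rcases h4 with h4 | h4
    · exact hp3 h4
    · exact hv h4
  · subst hij
    have h2 : (X - C t) ^ (i + i) * (B + p1 ^ 2 * v) = 0 := by
      rw [← key]; ring
    have h3 := (mul_eq_zero.mp h2).resolve_left (pow_ne_zero _ hX)
    have h4 := congrArg (eval t) h3
    rw [eval_add, hBe] at h4
    simp at h4
    rcases h4 with h4 | h4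
    · exact hp3 h4
    · exact hv h4
  · obtain ⟨k, rfl⟩ := Nat.exists_eq_add_of_lt hij
    have h2 : (X - C t) ^ (j + k + 1 + j) * (B + (X - C t) ^ (k + 1) * (p1 ^ 2 * v)) = 0 := by
      rw [← key]; ring
    have h3 := (mul_eq_zero.mp h2).resolve_left (pow_ne_zero _ hX)
    have h4 := congrArg (eval t) h3
    rw [eval_add, hBe] at h4
    simp only [eval_mul, eval_pow, eval_sub, eval_X, eval_C, sub_self, pow_succ, mul_zero,
      zero_mul, add_zero, eval_zero] at h4
    have h5 : ((j : ℚ) - ((j + k + 1 : ℕ) : ℚ)) ≠ 0 := by
      push_cast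
      have : (0 : ℚ) ≤ k := Nat.cast_nonneg k
      linarith
    exact (mul_ne_zero hu (mul_ne_zero (mul_ne_zero h5 hp3) hq3)) h4

section words
variable {α : Type} [Fintype α] [DecidableEq α]

/-- Words of length at most `n`. -/
noncomputable def W (α : Type) [Fintype α] (n : ℕ) : Finset (List α) :=
  (List.finite_length_le α n).toFinset

omit [DecidableEq α] in
theorem mem_W (n : ℕ) (w : List α) : w ∈ W α n ↔ w.length ≤ n := by
  simp [W]

theorem sum_W {M : Type} [AddCommMonoid M] (n : ℕ) (g : List α → M) :
    ∑ w ∈ W α (n + 1), g w = g [] + ∑ w ∈ W α n, ∑ s : α, g (s :: w) := by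
  have h : W α (n + 1) = insert [] ((W α n ×ˢ (Finset.univ : Finset α)).image
      (fun x => x.2 :: x.1)) := by
    ext w
    cases w with
    | nil => simp [mem_W]
    | cons s w => simp [mem_W]
  rw [h, Finset.sum_insert (by simp), Finset.sum_image, Finset.sum_product]
  rintro ⟨a, b⟩ _ ⟨c, d⟩ _ hh
  simp only [List.cons.injEq] at hh
  simp [hh.1, hh.2]

omit [DecidableEq α] in
theorem sum_W_top {M : Type} [AddCommMonoid M] (n : ℕ) (g : List α → M)
    (hg : ∀ w, n < w.length → g w = 0) : ∑ w ∈ W α (n + 1), g w = ∑ w ∈ W α n, g w := by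
  symm
  apply Finset.sum_subset
  · intro w hw
    rw [mem_W] at hw ⊢
    omega
  · intro w _ hw
    rw [mem_W] at hw
    exact hg w (by omega)

/-- The derivation `z (1 - z) d/dz` on power series. -/
noncomputable def D (f : PowerSeries ℚ) : PowerSeries ℚ :=
  PowerSeries.X * (1 - PowerSeries.X) * PowerSeries.derivative ℚ f

/-- The same derivation on polynomials. -/
noncomputable def Dp (p : ℚ[X]) : ℚ[X] := X * (1 - X) * derivative p

theorem D_mul (p : ℚ[X]) (f : PowerSeries ℚ) :
    D ((p : PowerSeries ℚ) * f) = (Dp p : PowerSeries ℚ) * f + p * D f := by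
  unfold D Dp
  rw [Derivation.leibniz, PowerSeries.derivative_coe]
  simp only [smul_eq_mul, Polynomial.coe_mul, Polynomial.coe_sub, Polynomial.coe_X,
    Polynomial.coe_one]
  ring

theorem D_sum {ι : Type} (T : Finset ι) (f : ι → PowerSeries ℚ) :
    D (∑ i ∈ T, f i) = ∑ i ∈ T, D (f i) := by
  unfold D
  rw [map_sum, Finset.mul_sum]

theorem core (cf : α → ℚ[X])
    (hcf : ∀ (c : α → ℚ) (p q : ℚ[X]), p ≠ 0 →
      p * Dp q - Dp p * q + p * ∑ s, cf s * (C (c s) * p) = 0 → ∀ s, c s = 0)
    (S : Set (List α)) (hS : ∀ s w, s :: w ∈ S → w ∈ S) (L : List α → PowerSeries ℚ)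
    (h0 : L [] = 1) (hL : ∀ s w, s :: w ∈ S → D (L (s :: w)) = cf s * L w) (n : ℕ) :
    ∀ p : List α → ℚ[X], (∀ w, p w ≠ 0 → w ∈ S ∧ w.length ≤ n) →
      ∑ w ∈ W α n, (p w : PowerSeries ℚ) * L w = 0 → ∀ w, p w = 0 := by
  induction n with
  | zero =>
    intro p hp hrel w
    have hW : W α 0 = {[]} := by
      ext w; simp [mem_W]
    rw [hW, Finset.sum_singleton, h0, mul_one] at hrel
    by_contra hne
    have : w = [] := List.length_eq_zero_iff.mp (Nat.le_zero.mp (hp w hne).2)
    subst this
    exact hne (Polynomial.coe_eq_zero_iff.mp hrel)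
  | succ n ih =>
    have main : ∀ T : Finset (List α), ∀ p : List α → ℚ[X],
        (∀ w, p w ≠ 0 → w ∈ S ∧ w.length ≤ n + 1) →
        (∀ w, p w ≠ 0 → w.length = n + 1 → w ∈ T) →
        ∑ w ∈ W α (n + 1), (p w : PowerSeries ℚ) * L w = 0 → ∀ w, p w = 0 := by
      intro T
      induction T using Finset.induction_on with
      | empty =>
        intro p hp hT hrel
        have hle : ∀ w, p w ≠ 0 → w ∈ S ∧ w.length ≤ n := by
          intro w hw
          refine ⟨(hp w hw).1, ?_⟩
          have h1 := (hp w hw).2
          by_contra h2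
          exact absurd (hT w hw (by omega)) (by simp)
        refine ih p hle ?_
        rw [← hrel, sum_W_top]
        intro w hw
        have : p w = 0 := by
          by_contra h2
          have := (hle w h2).2
          omega
        rw [this]; simp
      | insert u T _ ihT =>
        intro p hp hT hrel
        by_cases hu : p u ≠ 0 ∧ u.length = n + 1
        swap
        · refine ihT p hp ?_ hrel
          intro w hw hl
          rcases Finset.mem_insert.mp (hT w hw hl) with h | h
          · subst h; exact absurd ⟨hw, hl⟩ hu
          · exact h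
        exfalso
        obtain ⟨hu0, hul⟩ := hu
        have hbig : ∀ w, n + 1 < w.length → p w = 0 := by
          intro w hw
          by_contra h2
          have := (hp w h2).2
          omega
        set r : List α → ℚ[X] := fun w =>
          p u * Dp (p w) - Dp (p u) * p w + p u * ∑ s, cf s * p (s :: w) with hr
        have hr0 : ∀ w, r w = 0 := by
          refine ihT r ?_ ?_ ?_
          · intro w hw
            by_cases h1 : p w = 0
            · have : ∃ s, p (s :: w) ≠ 0 := by
                by_contra h2
                push Not at h2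
                apply hw
                simp [hr, h1, h2, Dp]
              obtain ⟨s, hs⟩ := this
              have h3 := hp _ hs
              refine ⟨hS s w h3.1, ?_⟩
              have := h3.2
              simp at this
              omega
            · exact hp w h1
          · intro w hw hl
            have h2 : ∀ s, p (s :: w) = 0 := fun s => hbig _ (by simp; omega)
            have h1 : p w ≠ 0 := by
              intro h1
              apply hw
              simp [hr, h1, h2, Dp]
            rcases Finset.mem_insert.mp (hT w h1 hl) with h | h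
            · subst h
              exfalso
              apply hw
              simp only [hr, h2, mul_zero, Finset.sum_const_zero]
              ring
            · exact h
          · have hD := congrArg D hrel
            rw [D_sum] at hD
            simp only [D_mul] at hD
            rw [Finset.sum_add_distrib] at hD
            have hD0 : D 0 = 0 := by simp [D]
            have hD1 : D (L []) = 0 := by rw [h0]; simp [D]
            rw [hD0] at hD
            have e1 : ∑ w ∈ W α (n + 1), (p w : PowerSeries ℚ) * D (L w)
                = ∑ w ∈ W α (n + 1), ((∑ s, cf s * p (s :: w) : ℚ[X]) : PowerSeries ℚ) * L w := by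
              rw [sum_W, hD1, mul_zero, zero_add, sum_W_top]
              · refine Finset.sum_congr rfl fun w _ => ?_
                have : ((∑ s, cf s * p (s :: w) : ℚ[X]) : PowerSeries ℚ)
                    = ∑ s, ((cf s * p (s :: w) : ℚ[X]) : PowerSeries ℚ) :=
                  map_sum Polynomial.coeToPowerSeries.ringHom _ _
                rw [this, Finset.sum_mul]
                refine Finset.sum_congr rfl fun s _ => ?_
                by_cases h1 : p (s :: w) = 0
                · simp [h1]
                · rw [hL s w (hp _ h1).1, Polynomial.coe_mul]; ring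
              · intro w hw
                have h2 : ∀ s, p (s :: w) = 0 := fun s => hbig _ (by simp; omega)
                simp [h2]
            rw [e1] at hD
            have e2 : ∑ w ∈ W α (n + 1), (r w : PowerSeries ℚ) * L w
                = (p u : PowerSeries ℚ) * (∑ w ∈ W α (n + 1), (Dp (p w) : PowerSeries ℚ) * L w
                  + ∑ w ∈ W α (n + 1),
                    ((∑ s, cf s * p (s :: w) : ℚ[X]) : PowerSeries ℚ) * L w)
                  - (Dp (p u) : PowerSeries ℚ)
                    * ∑ w ∈ W α (n + 1), (p w : PowerSeries ℚ) * L w := by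
              rw [← Finset.sum_add_distrib, Finset.mul_sum, Finset.mul_sum,
                ← Finset.sum_sub_distrib]
              refine Finset.sum_congr rfl fun w _ => ?_
              simp only [hr, Polynomial.coe_add, Polynomial.coe_sub, Polynomial.coe_mul]
              ring
            rw [e2, hD, hrel]; simp
        obtain ⟨s0, w0, rfl⟩ : ∃ s0 w0, u = s0 :: w0 := by
          cases u with
          | nil => simp at hul
          | cons a b => exact ⟨a, b, rfl⟩
        have hprop : ∀ s, ∃ c : ℚ, p (s :: w0) = C c * p (s0 :: w0) := by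
          intro s
          apply prop_of_wr _ _ hu0
          have h2 : ∀ t, p (t :: s :: w0) = 0 := fun t => hbig _ (by simp at hul ⊢; omega)
          have h3 := hr0 (s :: w0)
          simp only [hr, h2, mul_zero, Finset.sum_const_zero, add_zero, Dp] at h3
          have h4 : (X * (1 - X) : ℚ[X]) * (p (s0 :: w0) * derivative (p (s :: w0))
              - derivative (p (s0 :: w0)) * p (s :: w0)) = 0 := by
            linear_combination h3
          have h5 : (X * (1 - X) : ℚ[X]) ≠ 0 := by
            intro h6
            have := congrArg (eval 2) h6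
            norm_num at this
          exact sub_eq_zero.mp ((mul_eq_zero.mp h4).resolve_left h5)
        choose c hc using hprop
        have h3 := hr0 w0
        simp only [hr] at h3
        have h4 : ∑ s, cf s * p (s :: w0) = ∑ s, cf s * (C (c s) * p (s0 :: w0)) :=
          Finset.sum_congr rfl fun s _ => by rw [← hc s]
        rw [h4] at h3
        have h5 := hcf c _ _ hu0 h3 s0
        have h6 := hc s0
        rw [h5] at h6
        exact hu0 (by simpa using h6)
    intro p hp hrel
    exact main (W α (n + 1)) p hp (fun w _ hl => (mem_W _ _).mpr hl.le) hrel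

/-- Coefficient attached to a letter: `b z` for the letter `Y`, `a (1 - z)` for the letter `X`. -/
noncomputable def cfXY (y : α → Bool) (a b : ℚ) (s : α) : ℚ[X] :=
  if y s then C b * X else C a * (1 - X)

omit [DecidableEq α] in
theorem cfXY_ok (y : α → Bool) (hy : Function.Injective y) (a b : ℚ) (ha : a ≠ 0) (hb : b ≠ 0)
    (c : α → ℚ) (p q : ℚ[X]) (hp : p ≠ 0)
    (h : p * Dp q - Dp p * q + p * ∑ s, cfXY y a b s * (C (c s) * p) = 0) (s : α) : c s = 0 := by
  have hs : p * ∑ s, cfXY y a b s * (C (c s) * p) = p ^ 2 * ∑ s, cfXY y a b s * C (c s) := by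
    rw [Finset.mul_sum, Finset.mul_sum]
    exact Finset.sum_congr rfl fun s _ => by ring
  rw [hs] at h
  unfold Dp at h
  have r0 := res_zero 0 (1 - X) (∑ s, cfXY y a b s * C (c s)) p q hp (by simp)
    (by rw [C_0, sub_zero]; linear_combination h)
  have r1 := res_zero 1 (-X) (∑ s, cfXY y a b s * C (c s)) p q hp (by simp)
    (by rw [C_1]; linear_combination h)
  rw [eval_finsetSum] at r0 r1
  cases hys : y s with
  | false =>
    rw [Finset.sum_eq_single s] at r0
    · simpa [cfXY, hys, ha] using r0
    · intro t _ hts
      have : y t = true := by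
        by_contra h2
        exact hts (hy (by rw [hys]; simpa using h2))
      simp [cfXY, this]
    · simp
  | true =>
    rw [Finset.sum_eq_single s] at r1
    · simpa [cfXY, hys, hb] using r1
    · intro t _ hts
      have : y t = false := by
        by_contra h2
        exact hts (hy (by rw [hys]; simpa using h2))
      simp [cfXY, this]
    · simp

/-- Independence over `ℚ[z]` of two-letter iterated integrals on a suffix-closed set of words. -/
theorem indep_poly (y : α → Bool) (hy : Function.Injective y) (a b : ℚ) (ha : a ≠ 0) (hb : b ≠ 0)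
    (S : Set (List α)) (hS : ∀ s w, s :: w ∈ S → w ∈ S) (L : List α → PowerSeries ℚ)
    (h0 : L [] = 1) (hL : ∀ s w, s :: w ∈ S → D (L (s :: w)) = cfXY y a b s * L w)
    (T : Finset (List α)) (hT : ∀ w ∈ T, w ∈ S) (p : List α → ℚ[X])
    (hrel : ∑ w ∈ T, (p w : PowerSeries ℚ) * L w = 0) : ∀ w ∈ T, p w = 0 := by
  intro w hw
  have hsub : T ⊆ W α (T.sup List.length) := fun v hv =>
    (mem_W _ _).mpr (Finset.le_sup (f := List.length) hv)
  have h := core (cfXY y a b) (cfXY_ok y hy a b ha hb) S hS L h0 hL (T.sup List.length)
    (fun v => if v ∈ T then p v else 0) ?_ ?_ w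
  · simpa [hw] using h
  · intro v hv
    have hvT : v ∈ T := by
      by_contra h2
      simp [h2] at hv
    exact ⟨hT v hvT, (mem_W _ _).mp (hsub hvT)⟩
  · rw [← hrel]
    symm
    apply Finset.sum_subset_zero_on_sdiff hsub
    · intro v hv
      simp [(Finset.mem_sdiff.mp hv).2]
    · intro v hv
      simp [hv]

/-- Independence over `ℚ` of nested sums given by their difference recursion, as functions
of `N ≥ 1`. -/
theorem indep_seq (y : α → Bool) (hy : Function.Injective y) (a b : ℚ) (ha : a ≠ 0) (hb : b ≠ 0)
    (S : Set (List α)) (hS : ∀ s w, s :: w ∈ S → w ∈ S) (H : List α → ℕ → ℚ)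
    (h0 : ∀ N, 1 ≤ N → H [] N = 1)
    (h1 : ∀ s w, s :: w ∈ S → H (s :: w) 1 = 0)
    (hne : ∀ s, y s = false → [s] ∉ S)
    (hX : ∀ s w, y s = false → s :: w ∈ S → ∀ N : ℕ, 1 ≤ N →
      (N : ℚ) * (H (s :: w) (N + 1) - H (s :: w) N) = a * (H w (N + 1) - H w N))
    (hY : ∀ s w, y s = true → s :: w ∈ S → ∀ N : ℕ, 1 ≤ N →
      (N : ℚ) * (H (s :: w) (N + 1) - H (s :: w) N) = b * H w N)
    (T : Finset (List α)) (hT : ∀ w ∈ T, w ∈ S) (c : List α → ℚ)
    (hrel : ∀ N, 1 ≤ N → ∑ w ∈ T, c w * H w N = 0) : ∀ w ∈ T, c w = 0 := by
  set co : List α → ℕ → ℚ := fun w n => if n = 0 then H w 1 else H w (n + 1) - H w n with hco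
  have hsum : ∀ w n, co w (n + 1) = H w (n + 2) - H w (n + 1) := fun w n => by simp [hco]
  have hz : ∀ w, co w 0 = H w 1 := fun w => by simp [hco]
  have hth : ∀ (f : PowerSeries ℚ) (n : ℕ),
      PowerSeries.coeff n (PowerSeries.X * PowerSeries.derivative ℚ f)
        = n * PowerSeries.coeff n f := by
    intro f n
    cases n with
    | zero => simp
    | succ n => rw [PowerSeries.coeff_succ_X_mul, PowerSeries.coeff_derivative]; push_cast; ring
  have key := indep_poly y hy a b ha hb S hS (fun w => PowerSeries.mk (co w)) ?_ ?_ T hT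
    (fun w => C (c w)) ?_
  · intro w hw
    exact C_eq_zero.mp (key w hw)
  · ext n
    cases n with
    | zero => simp [hz, h0]
    | succ n => simp [hsum, h0, PowerSeries.coeff_one]
  · intro s w hw
    cases hys : y s with
    | false =>
      have e : PowerSeries.X * PowerSeries.derivative ℚ (PowerSeries.mk (co (s :: w)))
          = PowerSeries.C a * PowerSeries.mk (co w) := by
        ext n
        rw [hth, PowerSeries.coeff_C_mul, PowerSeries.coeff_mk, PowerSeries.coeff_mk]
        cases n with
        | zero =>
          cases w with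
          | nil => exact absurd hw (hne s hys)
          | cons t w => rw [hz (t :: w), h1 t w (hS _ _ hw)]; simp
        | succ n => rw [hsum, hsum]; exact hX s w hys hw (n + 1) (by omega)
      unfold D
      simp only [cfXY, hys, Bool.false_eq_true, if_false, Polynomial.coe_mul, Polynomial.coe_sub,
        Polynomial.coe_X, Polynomial.coe_one, Polynomial.coe_C]
      linear_combination (1 - PowerSeries.X) * e
    | true =>
      have e : PowerSeries.X * PowerSeries.derivative ℚ (PowerSeries.mk (co (s :: w)))
          = PowerSeries.X * (PowerSeries.X * PowerSeries.derivative ℚ (PowerSeries.mk (co (s :: w)))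
            + PowerSeries.C b * PowerSeries.mk (co w)) := by
        ext n
        cases n with
        | zero => simp
        | succ n =>
          rw [hth, PowerSeries.coeff_succ_X_mul, map_add, hth, PowerSeries.coeff_C_mul,
            PowerSeries.coeff_mk, PowerSeries.coeff_mk, PowerSeries.coeff_mk, hsum,
            hY s w hys hw (n + 1) (by omega)]
          cases n with
          | zero => simp [hz]
          | succ n => rw [hsum, hsum, hY s w hys hw (n + 1) (by omega)]; ring
      unfold D
      simp only [cfXY, hys, if_true, Polynomial.coe_mul, Polynomial.coe_X, Polynomial.coe_C]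
      linear_combination e
  · ext n
    simp only [map_sum, Polynomial.coe_C, PowerSeries.coeff_C_mul, PowerSeries.coeff_mk, map_zero]
    cases n with
    | zero => simpa [hz] using hrel 1 le_rfl
    | succ n =>
      simp only [hsum, mul_sub, Finset.sum_sub_distrib]
      rw [hrel (n + 2) (by omega), hrel (n + 1) (by omega), sub_zero]

end words

/-- Independence over `ℚ` of the truncated multiple zeta sums attached to the words that are
empty or end in `Y = true`; `top w n` is the coefficient of `z ^ n` in the polylogarithm. -/
theorem indep_top (top : List Bool → ℕ → ℚ) (h0 : ∀ n, top [] n = if n = 0 then 1 else 0)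
    (hX : ∀ w n, top (false :: w) n = top w n / n)
    (hY : ∀ w n, top (true :: w) n = (∑ j ∈ Finset.range n, top w j) / n)
    (T : Finset (List Bool)) (hT : ∀ w ∈ T, w = [] ∨ w.getLast? = some true) (c : List Bool → ℚ)
    (hrel : ∀ N, 1 ≤ N → ∑ w ∈ T, c w * ∑ j ∈ Finset.range N, top w j = 0) :
    ∀ w ∈ T, c w = 0 := by
  refine indep_seq id Function.injective_id 1 1 one_ne_zero one_ne_zero
    {w | w = [] ∨ w.getLast? = some true} ?_ (fun w N => ∑ j ∈ Finset.range N, top w j)
    ?_ ?_ ?_ ?_ ?_ T hT c hrel
  · intro s w hw
    cases w with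
    | nil => exact Or.inl rfl
    | cons t w => right; simpa [List.getLast?_cons_cons] using hw
  · intro N hN
    simp only [h0]
    rw [Finset.sum_ite_eq' (Finset.range N) 0 (fun _ => (1 : ℚ))]
    simp; omega
  · intro s w _
    cases s <;> simp [hX, hY]
  · intro s hs
    simp only [id] at hs
    subst hs
    simp
  · intro s w hs _ N hN
    simp only [id] at hs
    subst hs
    have : (N : ℚ) ≠ 0 := by positivity
    simp only [Finset.sum_range_succ, add_sub_cancel_left, hX]
    field_simp
  · intro s w hs _ N hN
    simp only [id] at hs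
    subst hs
    have : (N : ℚ) ≠ 0 := by positivity
    simp only [Finset.sum_range_succ, add_sub_cancel_left]
    rw [hY]
    field_simp

end Pool.Agent.DR.Ind19
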