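import Pool.Agent.Lib.DR.Blue
import Pool.Agent.Lib.DR.Ind19

set_option autoImplicit false

namespace Pool.Agent.DR

open Finset

theorem INJ.ell_notOK (v : List Bool) (N : ℕ) : ell (v ++ [false]) N = 0 := by
  induction v generalizing N with
  | nil =>
    show (if N = 0 then (1 : ℚ) else 0) / N = 0
    split_ifs with h
    · simp [h]
    · simp
  | cons s v ih =>
    cases s with
    | false =>
      show ell (v ++ [false]) N / N = 0
      simp [ih]
    | true =>
      show -(∑ M ∈ range N, ell (v ++ [false]) M) / N = 0
      simp [ih]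

theorem st_INJ : St_INJ := by
  classical
  intro k d hrel u hu hok
  have eX : ∀ w N, ell (false :: w) N = ell w N / N := fun _ _ => rfl
  have eY : ∀ w N, ell (true :: w) N = -(∑ M ∈ range N, ell w M) / N := fun _ _ => rfl
  have e0 : ∀ N, ell [] N = if N = 0 then 1 else 0 := fun _ => rfl
  refine Ind19.indep_seq id Function.injective_id 1 (-1) one_ne_zero (by norm_num) {w | OK w}
    (fun s w hw => OK.tail hw) HH ?_ ?_ ?_ ?_ ?_ ((W k).filter OK)
    (fun w hw => (mem_filter.mp hw).2) d ?_ u (mem_filter.mpr ⟨hu, hok⟩)
  · intro N hN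
    simp only [HH, e0]
    rw [sum_ite_eq' (range N) 0 (fun _ => (1 : ℚ))]
    simp; omega
  · intro s w _
    cases s <;> simp [HH, eX, eY]
  · intro s hs
    simp only [id] at hs
    subst hs
    simp
  · intro s w hs _ N hN
    simp only [id] at hs
    subst hs
    have : (N : ℚ) ≠ 0 := by positivity
    simp only [HH, sum_range_succ, add_sub_cancel_left, eX]
    field_simp
  · intro s w hs _ N hN
    simp only [id] at hs
    subst hs
    have : (N : ℚ) ≠ 0 := by positivity
    simp only [HH, sum_range_succ, add_sub_cancel_left]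
    rw [eY]
    field_simp
  · intro N hN
    rw [← hrel N hN]
    apply sum_filter_of_ne
    intro w _ hw
    by_contra h
    obtain ⟨v, rfl⟩ := not_OK h
    exact hw (by simp [HH, INJ.ell_notOK])

end Pool.Agent.DR
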