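import Pool.Agent.Lib.DR.Blue

set_option autoImplicit false

noncomputable section

namespace Pool.Agent.DR

open Finset

universe v

namespace LIFT

variable {B : Type v} [Ring B] (T : Br B)

/-- the image of `t14` -/
def ee : B := -(T.b0 + T.a0 + T.c + T.b1 + T.a1)

/-- the images of the generators -/
def tm : Fin 4 → Fin 4 → B :=
  ![![0, T.b0, T.a0, ee T], ![T.b0, 0, T.c, T.b1], ![T.a0, T.c, 0, T.a1], ![ee T, T.b1, T.a1, 0]]

theorem cb0 : Commute T.b0 (T.a0 + T.c + T.a1) := T.h1.add_right T.h7

theorem cb1 : Commute T.b1 (T.a0 + T.c + T.a1) := by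
  rw [add_assoc]; exact T.h8.symm.add_right T.h5

theorem ca0 : Commute T.a0 (T.b0 + T.c + T.b1) := T.h2.add_right T.h8

theorem ca1 : Commute T.a1 (T.b0 + T.c + T.b1) := by
  rw [add_assoc]; exact T.h7.symm.add_right T.h6

theorem e1 : Commute T.b0 (ee T + T.b1) := by
  have h : ee T + T.b1 = -(T.b0 + (T.a0 + T.c + T.a1)) := by unfold ee; abel
  rw [h]; exact ((Commute.refl _).add_right (cb0 T)).neg_right

theorem e2 : Commute T.b1 (T.b0 + ee T) := by
  have h : T.b0 + ee T = -(T.b1 + (T.a0 + T.c + T.a1)) := by unfold ee; abel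
  rw [h]; exact ((Commute.refl _).add_right (cb1 T)).neg_right

theorem e3 : Commute (ee T) (T.b0 + T.b1) := by
  have h : ee T = -((T.b0 + T.b1) + (T.a0 + T.c + T.a1)) := by unfold ee; abel
  rw [h]
  exact ((Commute.refl _).add_left ((cb0 T).add_left (cb1 T)).symm).neg_left

theorem e4 : Commute T.a0 (ee T + T.a1) := by
  have h : ee T + T.a1 = -(T.a0 + (T.b0 + T.c + T.b1)) := by unfold ee; abel
  rw [h]; exact ((Commute.refl _).add_right (ca0 T)).neg_right

theorem e5 : Commute T.a1 (T.a0 + ee T) := by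
  have h : T.a0 + ee T = -(T.a1 + (T.b0 + T.c + T.b1)) := by unfold ee; abel
  rw [h]; exact ((Commute.refl _).add_right (ca1 T)).neg_right

theorem e6 : Commute (ee T) (T.a0 + T.a1) := by
  have h : ee T = -((T.a0 + T.a1) + (T.b0 + T.c + T.b1)) := by unfold ee; abel
  rw [h]
  exact ((Commute.refl _).add_left ((ca0 T).add_left (ca1 T)).symm).neg_left

theorem e7 : Commute (ee T) T.c := by
  have h : ee T = -(T.c + ((T.a0 + T.b0) + (T.a1 + T.b1))) := by unfold ee; abel
  rw [h]
  exact ((Commute.refl _).add_left (T.h3.add_right T.h4).symm).neg_left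

theorem sw {x y z : B} (h : Commute x (y + z)) : Commute x (z + y) := add_comm y z ▸ h

theorem tm_diag (i : Fin 4) : tm T i i = 0 := by
  fin_cases i <;> rfl

theorem tm_symm (i j : Fin 4) : tm T i j = tm T j i := by
  fin_cases i <;> fin_cases j <;> rfl

theorem tm_tri (i j k : Fin 4) (h : [i, j, k].Nodup) :
    Commute (tm T i j) (tm T i k + tm T j k) := by
  fin_cases i <;> fin_cases j <;> fin_cases k <;>
    first
    | exact absurd h (by decide)
    | exact T.h1 | exact sw T.h1 | exact T.h2 | exact sw T.h2 | exact T.h3 | exact sw T.h3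
    | exact T.h4 | exact sw T.h4 | exact T.h5 | exact sw T.h5 | exact T.h6 | exact sw T.h6
    | exact e1 T | exact sw (e1 T) | exact e2 T | exact sw (e2 T) | exact e3 T | exact sw (e3 T)
    | exact e4 T | exact sw (e4 T) | exact e5 T | exact sw (e5 T) | exact e6 T | exact sw (e6 T)

theorem tm_far (i j k l : Fin 4) (h : [i, j, k, l].Nodup) : Commute (tm T i j) (tm T k l) := by
  fin_cases i <;> fin_cases j <;> fin_cases k <;> fin_cases l <;>
    first
    | exact absurd h (by decide)
    | exact T.h7 | exact T.h7.symm | exact T.h8 | exact T.h8.symm | exact e7 T | exact (e7 T).symm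

variable (R : Type v) [CommRing R] [Algebra R B]

/-- the algebra map out of the enveloping algebra -/
def gg : RingQuot (Rel R) →ₐ[R] B :=
  RingQuot.liftAlgHom R ⟨FreeAlgebra.lift R fun p : Fin 4 × Fin 4 => tm T p.1 p.2, by
    intro x y h
    cases h with
    | diag i => simp [tm_diag]
    | symm i j => simp [tm_symm T i j]
    | tri i j k h => simpa using (tm_tri T i j k h).eq
    | far i j k l h => simpa using (tm_far T i j k l h).eq⟩

theorem gg_tt (i j : Fin 4) : gg T R (tt R i j) = tm T i j := by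
  simp [gg, tt]

theorem map_ser {A : Type v} [Ring A] [Algebra R A] (g : A →ₐ[R] B) (Φ : List Bool → R)
    (p q : A) : PowerSeries.map g.toRingHom (ser Φ p q) = ser Φ (g p) (g q) := by
  ext n
  rw [PowerSeries.coeff_map, coeff_ser, coeff_ser]
  show g _ = _
  rw [map_sum]
  refine sum_congr rfl fun u _ => ?_
  rw [map_smul, map_wd]

end LIFT

theorem st_LIFT : St_LIFT.{v} := by
  intro R _ Φ h B _ _ T
  have h2 := congrArg (PowerSeries.map (LIFT.gg T R).toRingHom) h
  simp only [map_mul, LIFT.map_ser, map_add, LIFT.gg_tt] at h2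
  rw [add_comm T.a0 T.b0, add_comm T.a1 T.b1]
  exact h2

end Pool.Agent.DR
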