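import Pool.Agent.Lib.DR.Blue

set_option autoImplicit false

noncomputable section

namespace Pool.Agent.DR

open Finset

namespace Mat90

/-- matrices supported at least `k` steps above the diagonal -/
def F (m k : ℕ) : Submodule ℚ (Matrix (Fin (m + 1)) (Fin (m + 1)) ℚ) where
  carrier := {M | ∀ i j : Fin (m + 1), (j : ℕ) < i + k → M i j = 0}
  add_mem' := by
    intro a b ha hb i j h
    simp [ha i j h, hb i j h]
  zero_mem' := by intro i j _; rfl
  smul_mem' := by
    intro t a ha i j h
    simp [ha i j h]

theorem nilF (m : ℕ) : Nil m (F m) where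
  one := by
    intro i j h
    rw [Matrix.one_apply_ne]
    intro e
    rw [e] at h
    omega
  mul := by
    intro k l a b ha hb i j h
    rw [Matrix.mul_apply]
    apply Finset.sum_eq_zero
    intro r _
    by_cases h1 : (r : ℕ) < i + k
    · rw [ha i r h1, zero_mul]
    · rw [hb r j (by omega), mul_zero]
  anti := fun h ha i j hij => ha i j (by omega)
  bot := by
    intro a ha
    ext i j
    exact ha i j (by have := j.2; omega)

/-- the letter matrices attached to a word -/
def Lm (w : List Bool) (s : Bool) : Matrix (Fin (w.length + 1)) (Fin (w.length + 1)) ℚ :=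
  fun i j => if (j : ℕ) = i + 1 ∧ w[(i : ℕ)]? = some s then 1 else 0

theorem Lm_F (w : List Bool) (s : Bool) : Lm w s ∈ F w.length 1 := by
  intro i j h
  unfold Lm
  rw [if_neg]
  omega

theorem wd_Lm (w : List Bool) : ∀ (u : List Bool) (i : Fin (w.length + 1)),
    wd (Lm w false) (Lm w true) u i (Fin.last _) = if u = w.drop i then 1 else 0
  | [], i => by
    have hi := i.2
    rw [wd_nil, Matrix.one_apply]
    have : (i = Fin.last _) ↔ ([] = w.drop i) := by
      rw [List.nil_eq, List.drop_eq_nil_iff, Fin.ext_iff]
      simp only [Fin.val_last]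
      omega
    simp only [this]
  | s :: u, i => by
    have hi := i.2
    have hs : wd (Lm w false) (Lm w true) (s :: u) = Lm w s * wd (Lm w false) (Lm w true) u := by
      cases s <;> simp
    rw [hs, Matrix.mul_apply]
    by_cases hlt : (i : ℕ) < w.length
    · rw [Finset.sum_eq_single (⟨i + 1, by omega⟩ : Fin (w.length + 1))]
      · rw [wd_Lm w u, List.drop_eq_getElem_cons hlt]
        unfold Lm
        simp only [List.getElem?_eq_getElem hlt, List.cons.injEq, Option.some.injEq]
        by_cases h1 : u = w.drop (i + 1) <;> by_cases h2 : s = w[(i : ℕ)] <;>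
          simp [h1, h2, eq_comm]
      · intro r _ hr
        unfold Lm
        rw [if_neg (c := _ ∧ _), zero_mul]
        rintro ⟨h1, -⟩
        exact hr (Fin.ext h1)
      · intro h
        exact absurd (Finset.mem_univ _) h
    · rw [if_neg (by rw [List.drop_eq_nil_of_le (by omega)]; simp)]
      apply Finset.sum_eq_zero
      intro r _
      have hr := r.2
      unfold Lm
      rw [if_neg (c := _ ∧ _) (by omega), zero_mul]

end Mat90

open Mat90 in
theorem st_MAT : St_MAT := by
  intro w
  refine ⟨Matrix (Fin (w.length + 1)) (Fin (w.length + 1)) ℚ, inferInstance, inferInstance,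
    F w.length, Lm w false, Lm w true, Matrix.entryLinearMap ℚ ℚ 0 (Fin.last _), nilF _,
    Lm_F w false, Lm_F w true, ?_, ?_, ?_⟩
  · intro u
    rw [Matrix.entryLinearMap_apply, wd_Lm]
    simp
  · intro hw g
    rw [Matrix.entryLinearMap_apply, Matrix.mul_apply]
    apply Finset.sum_eq_zero
    intro r _
    unfold Lm
    rw [if_neg, zero_mul]
    rintro ⟨-, h2⟩
    cases w with
    | nil => simp at h2
    | cons s w =>
      simp only [Fin.val_zero, List.getElem?_cons_zero, Option.some.injEq] at h2
      simp [h2] at hw
  · intro hw g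
    rw [Matrix.entryLinearMap_apply, Matrix.mul_apply]
    apply Finset.sum_eq_zero
    intro r _
    unfold Lm
    rw [if_neg, mul_zero]
    rintro ⟨h1, h2⟩
    apply hw
    rw [List.getLast?_eq_getElem?]
    simp only [Fin.val_last] at h1
    rw [← h2]
    congr 1
    omega

end Pool.Agent.DR
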