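import Pool.Agent.Lib.DR.Blue

set_option autoImplicit false

noncomputable section

namespace Pool.Agent.DR

open Finset

namespace Msw67

/-- the connector `C(n, M) / C(N - 1, M)` -/
def K (N n : ℕ) : ℕ → ℚ
  | 0 => 1
  | M + 1 => K N n M * ((n : ℚ) - M) / ((N : ℚ) - (M + 1))

theorem K_succ (N n M : ℕ) : K N (n + 1) (M + 1) = ((n : ℚ) + 1) * K N n M / ((N : ℚ) - (M + 1)) := by
  induction M with
  | zero => simp [K]
  | succ M ih =>
    rw [K, ih, K]
    push_cast
    ring

theorem K_zero {N n M : ℕ} (h : n < M) : K N n M = 0 := by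
  induction M with
  | zero => omega
  | succ M ih =>
    rcases Nat.lt_succ_iff_lt_or_eq.1 h with h | h
    · rw [K, ih h]; simp
    · rw [K, h]; simp

theorem K_top {N M : ℕ} (h : M < N + 1) : K (N + 1) N M = 1 := by
  induction M with
  | zero => rfl
  | succ M ih =>
    have h1 : (N : ℚ) - M ≠ 0 := by
      have : (M : ℚ) < N := by exact_mod_cast (by omega : M < N)
      linarith
    rw [K, ih (by omega)]
    push_cast
    rw [show (N : ℚ) + 1 - (M + 1) = N - M by ring, one_mul, div_self h1]

theorem K_diff (N n M : ℕ) (a : ℕ → ℚ) (ha : a 0 = 0) :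
    K N (n + 1) M * (a M / M) = K N n M * (a M / M) + K N (n + 1) M * a M / ((n : ℚ) + 1) := by
  rcases M with _ | M
  · simp [ha]
  · have h1 : (n : ℚ) + 1 ≠ 0 := by positivity
    have h2 : (M : ℚ) + 1 ≠ 0 := by positivity
    rw [K_succ, K]
    push_cast
    generalize ((N : ℚ) - (M + 1)) = D
    rcases eq_or_ne D 0 with rfl | hD
    · simp
    · field_simp
      ring

theorem K_base (N L : ℕ) (a : ℕ → ℚ) : ∑ M ∈ range L, K N 0 M * (a M / M) = 0 := by
  refine sum_eq_zero fun M _ => ?_
  rcases M with _ | M
  · simp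
  · rw [K_zero (Nat.succ_pos M), zero_mul]

theorem abel (N n : ℕ) (hn : n + 1 < N) (w : List Bool) (L : ℕ) (hL : L < N) :
    ∑ M ∈ range (L + 1), K N (n + 1) M * HH w M / ((n : ℚ) + 1) =
      (∑ M ∈ range (L + 1), K N n M * ell w M - K N n L * HH w (L + 1)) / ((N : ℚ) - (n + 1)) := by
  have h1 : (n : ℚ) + 1 ≠ 0 := by positivity
  have h2 : (N : ℚ) - (n + 1) ≠ 0 := by
    have : (n : ℚ) + 1 < N := by exact_mod_cast hn
    linarith
  induction L with
  | zero => simp [HH]
  | succ L ih =>
    have h3 : (N : ℚ) - (L + 1) ≠ 0 := by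
      have : (L : ℚ) + 1 < N := by exact_mod_cast hL
      linarith
    have h4 : HH w (L + 1 + 1) = HH w (L + 1) + ell w (L + 1) := sum_range_succ _ _
    rw [sum_range_succ, ih (by omega), sum_range_succ _ (L + 1), h4, K_succ, K]
    field_simp
    ring

theorem main (N : ℕ) (w : List Bool) (hw : OK w) (hN : 1 ≤ N) : ∀ n, n < N →
    Q true N w n = (-1) ^ w.count true * ∑ M ∈ range N, K N n M * ell w M := by
  induction w with
  | nil =>
    intro n _
    obtain ⟨N, rfl⟩ : ∃ N', N = N' + 1 := ⟨N - 1, by omega⟩
    simp [Q, ell, K]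
  | cons s w ih =>
    replace ih := ih hw.tail
    intro n
    cases s
    · have h0 : ell w 0 = 0 := by
        rcases w with _ | ⟨_ | _, w⟩
        · simp at hw
        · simp [ell]
        · simp [ell]
      simp only [ell]
      induction n with
      | zero => intro _; rw [K_base]; simp [Q]
      | succ n ihn =>
        intro hn
        have e : Q true N (false :: w) (n + 1) =
            Q true N (false :: w) n + Q true N w (n + 1) / ((n : ℚ) + 1) := by
          simp only [Q, sum_range_succ]
        rw [e, ihn (by omega), ih _ hn, sum_congr rfl fun M _ => K_diff N n M (ell w) h0,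
          sum_add_distrib, ← sum_div]
        simp only [List.count_cons, Bool.false_eq_true, beq_iff_eq, if_false, add_zero]
        ring
    · have e0 : ∀ M, ell (true :: w) M = (fun M => -HH w M) M / M := fun M => rfl
      simp only [e0]
      induction n with
      | zero => intro _; rw [K_base]; simp [Q]
      | succ n ihn =>
        intro hn
        have e : Q true N (true :: w) (n + 1) =
            Q true N (true :: w) n + Q true N w n / ((N : ℚ) - (n + 1)) := by
          simp [Q, sum_range_succ]
        obtain ⟨L, rfl⟩ : ∃ N', N = N' + 1 := ⟨N - 1, by omega⟩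
        have ha := abel (L + 1) n hn w L (by omega)
        rw [K_zero (by omega : n < L), zero_mul, sub_zero] at ha
        rw [e, ihn (by omega), ih _ (by omega),
          sum_congr rfl fun M _ => K_diff (L + 1) n M (fun M => -HH w M) (by simp [HH]),
          sum_add_distrib, mul_div_assoc, ← ha]
        simp only [List.count_cons, beq_self_eq_true, if_true, mul_neg, neg_div, sum_neg_distrib]
        ring

end Msw67

theorem st_MSW : St_MSW := by
  intro w hw N hN
  obtain ⟨L, rfl⟩ : ∃ N', N = N' + 1 := ⟨N - 1, by omega⟩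
  rw [Msw67.main _ w hw hN _ (by omega), HH, Nat.add_sub_cancel]
  exact congrArg _ (sum_congr rfl fun M hM => by rw [Msw67.K_top (mem_range.1 hM), one_mul])

theorem t_MSW : T_MSW := fun _ => st_MSW

end Pool.Agent.DR
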