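import Pool.Agent.Lib.DR.Blue

set_option autoImplicit false

noncomputable section

namespace Pool.Agent.DR

open Finset

namespace PROD90

variable {B : Type} [Ring B] [Algebra ℚ B] {k : ℕ} {I : ℕ → Submodule ℚ B}

theorem stepX (h : Nil k I) {x y : B} (hx : x ∈ I 1) (hy : y ∈ I 1) (c d : List Bool → ℚ) (t : ℚ)
    (h0 : c [] = d []) (hY : ∀ u, c (true :: u) = d (true :: u))
    (hX : ∀ u, c (false :: u) = d (false :: u) + t * c u) :
    (1 - t • x) * Ev k x y c = Ev k x y d := by
  rw [h.ev hx hy d, sub_mul, one_mul, smul_mul_assoc]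
  nth_rewrite 1 [h.ev hx hy c]
  rw [h0, funext hY, funext hX, Ev_add, Ev_mul, mul_add, mul_smul_comm]
  abel

theorem stepY (h : Nil k I) {x y : B} (hx : x ∈ I 1) (hy : y ∈ I 1) (c d : List Bool → ℚ) (t : ℚ)
    (h0 : c [] = d []) (hX : ∀ u, c (false :: u) = d (false :: u))
    (hY : ∀ u, c (true :: u) = d (true :: u) + t * c u) :
    (1 - t • y) * Ev k x y c = Ev k x y d := by
  rw [h.ev hx hy d, sub_mul, one_mul, smul_mul_assoc]
  nth_rewrite 1 [h.ev hx hy c]
  rw [h0, funext hY, funext hX, Ev_add, Ev_mul, mul_add, mul_smul_comm]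
  abel

/-- full step -/
def cR (a : ℚ) (M n : ℕ) (u : List Bool) : ℚ := a ^ u.length * Q false M u n

/-- half step -/
def cT (a : ℚ) (M n : ℕ) (u : List Bool) : ℚ :=
  a ^ u.length * Q false M u (if yh u then n + 1 else n)

theorem RX (h : Nil k I) {x y : B} (hx : x ∈ I 1) (hy : y ∈ I 1) (a : ℚ) (M n : ℕ) :
    (1 - (a / (n + 1)) • x) * Ev k x y (cR a M (n + 1)) = Ev k x y (cT a M n) := by
  apply stepX h hx hy
  · simp [cR, cT, Q]
  · intro u
    simp [cR, cT]
  · intro u
    simp only [cR, cT, yh_cons, Q, sum_range_succ, List.length_cons, pow_succ]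
    simp only [Bool.false_eq_true, if_false]
    ring

theorem TY (h : Nil k I) {x y : B} (hx : x ∈ I 1) (hy : y ∈ I 1) (a : ℚ) (M n : ℕ) :
    (1 - (a / (M - (n + 1))) • y) * Ev k x y (cT a M n) = Ev k x y (cR a M n) := by
  apply stepY h hx hy
  · simp [cR, cT, Q]
  · intro u
    simp [cR, cT]
  · intro u
    simp only [cR, cT, yh_cons, Q, List.length_cons, pow_succ, if_true, sum_range_succ,
      Bool.not_false, Bool.and_true]
    ring

theorem R0 (h : Nil k I) {x y : B} (hx : x ∈ I 1) (hy : y ∈ I 1) (a : ℚ) (M : ℕ) :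
    Ev k x y (cR a M 0) = 1 := by
  rw [h.ev hx hy]
  simp [cR, Q, Ev]

end PROD90

open PROD90 in
theorem st_PROD : St_PROD := by
  intro B _ _ k I x y x' y' h hx hy hx' hy' hid N hN
  have hN0 : (N : ℚ) ≠ 0 := by positivity
  have key : ∀ n : ℕ, n < N →
      Ev k x y (cT N (N + 1) n) * (1 - y) = Ev k x' y' (cR N N n) := by
    intro n
    induction n with
    | zero =>
      intro _
      have h1 := TY h hx hy N (N + 1) 0
      have e : (N : ℚ) / (((N + 1 : ℕ) : ℚ) - (((0 : ℕ) : ℚ) + 1)) = 1 := by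
        push_cast
        rw [zero_add, add_sub_cancel_right, div_self hN0]
      rw [e, one_smul, R0 h hx hy] at h1
      rw [R0 h hx' hy']
      apply (h.unit hy).mul_left_cancel
      rw [← mul_assoc, h1, one_mul, mul_one]
    | succ n ih =>
      intro hn
      have ih := ih (by omega)
      have hj : ((n : ℚ) + 1) ≠ 0 := by positivity
      have hj' : (N : ℚ) - (n + 1) ≠ 0 := by
        have : ((n + 1 : ℕ) : ℚ) < N := by exact_mod_cast hn
        push_cast at this
        linarith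
      have h1 := TY h hx hy N (N + 1) (n + 1)
      have e : (((N + 1 : ℕ) : ℚ) - (((n + 1 : ℕ) : ℚ) + 1)) = N - (n + 1) := by
        push_cast
        ring
      rw [e] at h1
      have h2 := RX h hx hy N (N + 1) n
      have h3 := RX h hx' hy' N N n
      have h4 := TY h hx' hy' N N n
      have fa : ∀ z : B, 1 - ((N : ℚ) / (n + 1)) • z =
          ((N : ℚ) / (n + 1)) • ((((n : ℚ) + 1) / N) • (1 : B) - z) := by
        intro z
        rw [smul_sub, smul_smul, div_mul_div_cancel₀ hj, div_self hN0, one_smul]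
      have fb : ∀ z : B, 1 - ((N : ℚ) / (N - (n + 1))) • z =
          ((N : ℚ) / (N - (n + 1))) • ((1 - ((n : ℚ) + 1) / N) • (1 : B) - z) := by
        intro z
        rw [smul_sub, smul_smul, one_sub_div hN0, div_mul_div_cancel₀ hj', div_self hN0, one_smul]
      have hP : (1 - ((N : ℚ) / (N - (n + 1))) • y') * (1 - ((N : ℚ) / (n + 1)) • x') =
          (1 - ((N : ℚ) / (n + 1)) • x) * (1 - ((N : ℚ) / (N - (n + 1))) • y) := by
        rw [fa, fa, fb, fb, smul_mul_smul_comm, smul_mul_smul_comm, hid, mul_comm ((N : ℚ) / _)]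
      have hU : IsUnit ((1 - ((N : ℚ) / (N - (n + 1))) • y') * (1 - ((N : ℚ) / (n + 1)) • x')) :=
        (h.unit (Submodule.smul_mem _ _ hy')).mul (h.unit (Submodule.smul_mem _ _ hx'))
      apply hU.mul_left_cancel
      rw [mul_assoc _ _ (Ev k x' y' _), h3, h4, ← ih, hP, ← mul_assoc, mul_assoc _ _ (Ev k x y _),
        h1, h2]
  obtain ⟨n, rfl⟩ : ∃ n, N = n + 1 := ⟨N - 1, by omega⟩
  have h2 := RX h hx hy ((n + 1 : ℕ) : ℚ) (n + 1 + 1) n
  have e : ((n + 1 : ℕ) : ℚ) / (n + 1) = 1 := by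
    push_cast
    field_simp
  rw [e, one_smul] at h2
  have h3 := key n (by omega)
  rw [← h2] at h3
  exact h3

end Pool.Agent.DR
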