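import Pool.Agent.Lib.DR.Blue

set_option autoImplicit false

noncomputable section

namespace Pool.Agent.DR

open Finset

namespace QQ90

variable {B : Type} [Ring B] [Algebra ℚ B] {k : ℕ} {I : ℕ → Submodule ℚ B}

theorem mul' (h : Nil k I) {i j n : ℕ} {p q : B} (hp : p ∈ I i) (hq : q ∈ I j) (hn : n ≤ i + j) :
    p * q ∈ I n := h.anti hn (h.mul hp hq)

theorem exists_inv (h : Nil k I) {z : B} (hz : z ∈ I 1) :
    ∃ a ∈ I 0, a * (1 - z) = 1 ∧ (1 - z) * a = 1 := by
  have h0 : z ^ (k + 1) = 0 := h.bot (h.pow hz _)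
  refine ⟨∑ i ∈ range (k + 1), z ^ i, ?_, ?_, ?_⟩
  · exact Submodule.sum_mem _ (fun i _ => h.anti (Nat.zero_le i) (h.pow hz i))
  · rw [geom_sum_mul_neg, h0, sub_zero]
  · rw [mul_neg_geom_sum, h0, sub_zero]

theorem exists_inv2 (h : Nil k I) {z : B} (hz : z ∈ I 1) :
    ∃ r ∈ I 2, (1 + z + r) * (1 - z) = 1 ∧ (1 - z) * (1 + z + r) = 1 := by
  obtain ⟨a, ha, h1, h2⟩ := exists_inv h hz
  have e : 1 + z + z * z * a = a := by
    have e1 : a = 1 + z * a := by rw [← h2]; noncomm_ring
    calc 1 + z + z * z * a = 1 + z * (1 + z * a) := by noncomm_ring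
      _ = a := by rw [← e1, ← e1]
  exact ⟨z * z * a, mul' h (h.mul hz hz) ha (by omega), by rw [e, h1], by rw [e, h2]⟩

theorem exists_q (h : Nil k I) {x y : B} (hx : x ∈ I 1) (hy : y ∈ I 1) :
    ∃ q ∈ I 2, q = y * x - x * y + y * q + q * x + q * q := by
  have hΦ : ∀ q ∈ I 2, y * x - x * y + y * q + q * x + q * q ∈ I 2 := by
    intro q hq
    refine add_mem (add_mem (add_mem (sub_mem (h.mul hy hx) (h.mul hx hy)) ?_) ?_) ?_
    · exact mul' h hy hq (by omega)
    · exact mul' h hq hx (by omega)
    · exact mul' h hq hq (by omega)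
  have key : ∀ n : ℕ, ∃ q ∈ I 2, q - (y * x - x * y + y * q + q * x + q * q) ∈ I (n + 2) := by
    intro n
    induction n with
    | zero => exact ⟨0, zero_mem _, sub_mem (zero_mem _) (hΦ 0 (zero_mem _))⟩
    | succ n ih =>
      obtain ⟨q, hq, hd⟩ := ih
      have hp := hΦ q hq
      refine ⟨_, hp, ?_⟩
      generalize hpe : y * x - x * y + y * q + q * x + q * q = p at hd hp ⊢
      have e : p - (y * x - x * y + y * p + p * x + p * p)
          = y * (q - p) + (q - p) * x + q * (q - p) + (q - p) * p := by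
        nth_rewrite 1 [← hpe]
        noncomm_ring
      rw [e]
      refine add_mem (add_mem (add_mem ?_ ?_) ?_) ?_
      · exact mul' h hy hd (by omega)
      · exact mul' h hd hx (by omega)
      · exact mul' h hq hd (by omega)
      · exact mul' h hd hp (by omega)
  obtain ⟨q, hq, hd⟩ := key k
  exact ⟨q, hq, sub_eq_zero.1 (h.bot (h.anti (by omega) hd))⟩

theorem first_order (h : Nil k I) {x y q : B} (hx : x ∈ I 1) (hy : y ∈ I 1) (hq : q ∈ I 2)
    (hr : q - (y * x - x * y) ∈ I 3) (u : List Bool) :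
    wd (x + q) (y + q) u - (wd x y u + ((y - x) * wd x y u - wd x y u * (y - x)))
      ∈ I (u.length + 2) := by
  have hδ : y - x ∈ I 1 := sub_mem hy hx
  induction u with
  | nil => simp
  | cons s u ih =>
    have hu := h.wd hx hy u
    obtain ⟨z, hz, e1, e2, e3⟩ : ∃ z ∈ I 1, wd x y (s :: u) = z * wd x y u ∧
        wd (x + q) (y + q) (s :: u) = (z + q) * wd (x + q) (y + q) u ∧
        y * x - x * y = (y - x) * z - z * (y - x) := by
      cases s
      · exact ⟨x, hx, by simp, by simp, by noncomm_ring⟩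
      · exact ⟨y, hy, by simp, by simp, by noncomm_ring⟩
    rw [e3] at hr
    rw [e1, e2, List.length_cons]
    generalize wd (x + q) (y + q) u = v' at ih ⊢
    generalize wd x y u = v at ih hu ⊢
    generalize y - x = δ at ih hr hδ ⊢
    have e : (z + q) * v' - (z * v + (δ * (z * v) - z * v * δ))
        = (z + q) * (v' - (v + (δ * v - v * δ))) + (q - (δ * z - z * δ)) * v
          + q * (δ * v - v * δ) := by noncomm_ring
    rw [e]
    refine add_mem (add_mem ?_ ?_) ?_
    · exact mul' h (add_mem hz (h.anti (by omega) hq)) ih (by omega)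
    · exact mul' h hr hu (by omega)
    · exact mul' h hq (sub_mem (h.mul hδ hu) (mul' h hu hδ (by omega))) (by omega)

end QQ90

open QQ90 in
theorem st_QQ : St_QQ := by
  intro B _ _ k I x y h hx hy
  obtain ⟨q, hq, eq⟩ := exists_q h hx hy
  obtain ⟨rx, hrx, gx1, -⟩ := exists_inv2 h hx
  obtain ⟨ry, hry, -, gy1⟩ := exists_inv2 h hy
  have hq1 : q ∈ I 1 := h.anti (by omega) hq
  have hx' : x + q ∈ I 1 := add_mem hx hq1
  have hy' : y + q ∈ I 1 := add_mem hy hq1
  have e0 : (y + q) * (x + q) - q = x * y := by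
    nth_rewrite 3 [eq]
    noncomm_ring
  refine ⟨x + q, y + q, 1 + x + rx, 1 + y + ry, hx', hy', gx1, gy1, ?_, ?_, ?_, ?_⟩
  · intro t
    simp only [sub_mul, mul_sub, smul_mul_assoc, mul_smul_comm, one_mul, mul_one, ← e0]
    module
  · intro u
    obtain ⟨a, -, ha, -⟩ := exists_inv h hy'
    have e1 : (1 - (y + q)) * (x + q) = x * (1 - y) := by
      rw [mul_sub, ← e0]
      noncomm_ring
    have e2 : (x + q) * (1 + y + ry) = a * x := by
      calc (x + q) * (1 + y + ry) = a * ((1 - (y + q)) * (x + q)) * (1 + y + ry) := by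
            rw [← mul_assoc, ha, one_mul]
        _ = a * x := by rw [e1, mul_assoc, mul_assoc, gy1, mul_one]
    refine ⟨(1 + x + rx) * wd (x + q) (y + q) u * a, ?_⟩
    rw [wd_append, wd_false, wd_nil, mul_one, mul_assoc, mul_assoc, e2]
    simp only [mul_assoc]
  · intro u
    obtain ⟨b, -, -, hb⟩ := exists_inv h hx'
    have e1 : (y + q) * (1 - (x + q)) = (1 - x) * y := by
      rw [sub_mul, ← e0]
      noncomm_ring
    have e2 : (1 + x + rx) * (y + q) = y * b := by
      calc (1 + x + rx) * (y + q) = (1 + x + rx) * ((y + q) * (1 - (x + q))) * b := by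
            rw [mul_assoc, mul_assoc, hb, mul_one]
        _ = y * b := by rw [e1, ← mul_assoc, gx1, one_mul]
    refine ⟨b * wd (x + q) (y + q) u * (1 + y + ry), ?_⟩
    rw [wd_true, ← mul_assoc, e2]
    simp only [mul_assoc]
  · intro u
    have hr : q - (y * x - x * y) ∈ I 3 := by
      have e : q - (y * x - x * y) = y * q + q * x + q * q := by
        nth_rewrite 1 [eq]
        noncomm_ring
      rw [e]
      exact add_mem (add_mem (h.mul hy hq) (h.mul hq hx)) (mul' h hq hq (by omega))
    have h1 := first_order h hx hy hq hr u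
    have hu := h.wd hx hy u
    have hu' := h.wd hx' hy' u
    have hd : wd (x + q) (y + q) u - wd x y u ∈ I (u.length + 1) := by
      have hδ : y - x ∈ I 1 := sub_mem hy hx
      have := add_mem (h.anti (Nat.le_succ _) h1)
        (sub_mem (mul' h hδ hu (le_of_eq (add_comm _ _))) (h.mul hu hδ))
      have e : wd (x + q) (y + q) u - wd x y u = wd (x + q) (y + q) u -
          (wd x y u + ((y - x) * wd x y u - wd x y u * (y - x))) +
          ((y - x) * wd x y u - wd x y u * (y - x)) := by abel
      rw [e]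
      exact this
    generalize wd (x + q) (y + q) u = v' at h1 hu' hd ⊢
    generalize wd x y u = v at h1 hu hd ⊢
    have e : (1 + x + rx) * v' * (1 + y + ry) - (v + y * v + v * x)
        = (v' - (v + ((y - x) * v - v * (y - x)))) + x * (v' - v) + (v' - v) * y + rx * v'
          + v' * ry + (x + rx) * v' * (y + ry) := by noncomm_ring
    rw [e]
    refine add_mem (add_mem (add_mem (add_mem (add_mem h1 ?_) ?_) ?_) ?_) ?_
    · exact mul' h hx hd (by omega)
    · exact mul' h hd hy (by omega)
    · exact mul' h hrx hu' (by omega)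
    · exact mul' h hu' hry (by omega)
    · exact mul' h (h.mul (add_mem hx (h.anti (by omega) hrx)) hu')
        (add_mem hy (h.anti (by omega) hry)) (by omega)

end Pool.Agent.DR
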