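import Pool.Agent.Lib.DR.Blue

set_option autoImplicit false

noncomputable section

namespace Pool.Agent.DR

open Finset

theorem t_REC : T_REC := by
  intro hM hQ hP w hw
  obtain ⟨B, _, _, I, x, y, ℓ, h, hx, hy, hℓ, hly, hlx⟩ := hM w
  obtain ⟨x', y', gx, gy, hx', hy', gx1, gy1, hid, hX, hY, hE⟩ := hQ B w.length I x y h hx hy
  have hly := hly hw.2
  have hlx := hlx hw.1
  have hbig : ∀ u : List Bool, ¬ u.length + 2 ≤ w.length →
      ℓ (gx * wd x' y' u * gy) = if u = w then 1 else 0 := by
    intro u hu
    rw [sub_eq_zero.1 (h.bot (h.anti (by omega) (hE u))), map_add, map_add, hly, hlx, hℓ]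
    simp
  refine ⟨fun u => if u.length + 2 ≤ w.length then ℓ (gx * wd x' y' u * gy) else 0, ?_, ?_⟩
  · intro u hu
    by_cases hl : u.length + 2 ≤ w.length
    · simp only [hl, if_true] at hu
      refine ⟨⟨?_, ?_⟩, hl⟩
      · by_contra hO
        obtain ⟨v, rfl⟩ := not_OK hO
        obtain ⟨g, hg⟩ := hX v
        exact hu (by rw [hg, hlx])
      · rcases u with _ | ⟨_ | _, v⟩
        · rfl
        · rfl
        · obtain ⟨g, hg⟩ := hY v
          exact absurd (by rw [hg, hly]) hu
    · simp [hl] at hu
  · intro N hN
    have hN0 : (N : ℚ) ≠ 0 := by positivity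
    have h1 := hP B w.length I x y x' y' h hx hy hx' hy' hid N hN
    have h2 : Ev w.length x y (fun u => (N : ℚ) ^ u.length * Q false (N + 1) u N) =
        gx * Ev w.length x' y' (fun u => (N : ℚ) ^ u.length * Q false N u (N - 1)) * gy := by
      rw [← h1, ← mul_assoc, ← mul_assoc, gx1, one_mul, mul_assoc, gy1, mul_one]
    have pick : ∀ c : List Bool → ℚ, ∑ i ∈ range (w.length + 1), ∑ u ∈ W i,
        c u * (if u = w then 1 else 0) = c w := by
      intro c
      rw [sum_eq_single w.length, sum_eq_single w]
      · simp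
      · intro u _ hu
        simp [hu]
      · intro hn
        exact absurd (mem_W.2 rfl) hn
      · intro i _ hi
        refine sum_eq_zero fun u hu => ?_
        rw [if_neg, mul_zero]
        rintro rfl
        exact hi (mem_W.1 hu).symm
      · intro hn
        exact absurd (self_mem_range_succ _) hn
    have h3 := congrArg ℓ h2
    simp only [Ev, mul_sum, sum_mul, map_sum, mul_smul_comm, smul_mul_assoc, map_smul, hℓ,
      smul_eq_mul] at h3
    rw [pick] at h3
    have hp : (N : ℚ) ^ w.length ≠ 0 := pow_ne_zero _ hN0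
    apply mul_left_cancel₀ hp
    rw [mul_sub, h3, ← pick (fun u => (N : ℚ) ^ u.length * Q false N u (N - 1)), mul_sum,
      ← sum_sub_distrib]
    refine sum_congr rfl fun i hi => ?_
    rw [mul_sum, ← sum_sub_distrib]
    refine sum_congr rfl fun u hu => ?_
    have hl := mem_W.1 hu
    have hi' : i ≤ w.length := by simpa [Nat.lt_succ_iff] using hi
    have e : (N : ℚ) ^ w.length = N ^ u.length * N ^ (w.length - i) := by
      rw [← pow_add, hl, Nat.add_sub_cancel' hi']
    by_cases hc : u.length + 2 ≤ w.length
    · have hne : u ≠ w := by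
        rintro rfl
        omega
      simp only [hc, hne, if_true, if_false]
      rw [e]
      field_simp
      ring
    · simp only [hc, if_false, hbig u hc]
      simp

end Pool.Agent.DR
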