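import Pool.Agent.Lib.DR.Blue

set_option autoImplicit false

noncomputable section

namespace Pool.Agent.DR

open Finset

namespace Span67

/-- `f` is, for `N ≥ 1`, a combination of the good `HH u` of weight `n` -/
def P (n : ℕ) (f : ℕ → ℚ) : Prop := ∃ e : List Bool → ℚ, (∀ u, e u ≠ 0 → Good u) ∧
  ∀ N : ℕ, 1 ≤ N → f N = ∑ u ∈ W n, e u * HH u N

theorem P.zero (n : ℕ) : P n fun _ => 0 := ⟨fun _ => 0, by simp, by simp⟩

theorem P.of_eq {n : ℕ} {f g : ℕ → ℚ} (h : P n f) (e : ∀ N, 1 ≤ N → g N = f N) : P n g := by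
  obtain ⟨c, h1, h2⟩ := h
  exact ⟨c, h1, fun N hN => (e N hN).trans (h2 N hN)⟩

theorem P.add {n : ℕ} {f g : ℕ → ℚ} (hf : P n f) (hg : P n g) : P n fun N => f N + g N := by
  obtain ⟨c, h1, h2⟩ := hf
  obtain ⟨d, h3, h4⟩ := hg
  refine ⟨fun u => c u + d u, fun u hu => ?_, fun N hN => ?_⟩
  · by_cases hc : c u = 0
    · exact h3 u (by simpa [hc] using hu)
    · exact h1 u hc
  · simp only [h2 N hN, h4 N hN, add_mul, sum_add_distrib]

theorem P.smul {n : ℕ} {f : ℕ → ℚ} (a : ℚ) (hf : a ≠ 0 → P n f) : P n fun N => a * f N := by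
  by_cases ha : a = 0
  · simpa [ha] using P.zero n
  obtain ⟨c, h1, h2⟩ := hf ha
  refine ⟨fun u => a * c u, fun u hu => h1 u (right_ne_zero_of_mul hu), fun N hN => ?_⟩
  simp only [h2 N hN, mul_sum, mul_assoc]

theorem P.sum {ι : Type*} {n : ℕ} (s : Finset ι) (f : ι → ℕ → ℚ) (h : ∀ i ∈ s, P n (f i)) :
    P n fun N => ∑ i ∈ s, f i N := by
  classical
  induction s using Finset.induction_on with
  | empty => simpa using P.zero n
  | insert a s ha ih =>
    simp only [sum_insert ha]
    exact (h a (mem_insert_self _ _)).add (ih fun i hi => h i (mem_insert_of_mem hi))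

theorem P.single {n : ℕ} {u : List Bool} (hu : Good u) (hn : u.length = n) : P n (HH u) := by
  refine ⟨fun v => if v = u then 1 else 0, fun v hv => ?_, fun N _ => ?_⟩
  · by_cases h : v = u
    · exact h ▸ hu
    · simp [h] at hv
  · simp [mem_W, hn]

theorem ell_rep (a : ℕ) (v : List Bool) (M : ℕ) :
    ell (List.replicate a false ++ true :: v) M = -HH v M / (M : ℚ) ^ (a + 1) := by
  induction a with
  | zero => simp [ell, HH]
  | succ a ih => rw [List.replicate_succ, List.cons_append, ell, ih, div_div, ← pow_succ]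

theorem P.shift {i a : ℕ} {f : ℕ → ℚ} (hf : P i f) :
    P (a + 2 + i) fun N => ∑ M ∈ range N, f M / (M : ℚ) ^ (a + 2) := by
  obtain ⟨e, h1, h2⟩ := hf
  refine (P.sum (W i) (fun v N => -e v * HH (List.replicate (a + 1) false ++ true :: v) N)
    fun v hv => P.smul _ fun h => P.single ?_ ?_).of_eq fun N _ => ?_
  · obtain ⟨k, hk, rfl⟩ := h1 v (by simpa using h)
    refine ⟨(a + 2) :: k, by simpa using hk, ?_⟩
    simp [idx]
  · simp [mem_W.1 hv]
    omega
  · simp only [HH, ell_rep, mul_sum]
    rw [sum_comm]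
    refine sum_congr rfl fun M _ => ?_
    rcases M with _ | M
    · simp
    · rw [h2 _ (by omega), sum_div]
      refine sum_congr rfl fun v _ => ?_
      simp only [HH]
      ring

end Span67

open Span67 in
theorem t_SPAN : T_SPAN := by
  intro hR w hw
  change P w.length fun N => Q false N w (N - 1)
  induction hn : w.length using Nat.strong_induction_on generalizing w with
  | _ n ih =>
    subst hn
    rcases w with _ | ⟨s, w⟩
    · refine (P.single (u := []) ⟨[], by simp, rfl⟩ rfl).of_eq fun N hN => ?_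
      have : 0 < N := hN
      simp [Q, HH, ell, this]
    obtain ⟨c, hc, hq⟩ := hR _ hw
    refine (P.sum (range ((s :: w).length + 1)) (fun i N => ∑ u ∈ W i, c u *
      ∑ M ∈ range N, Q false M u (M - 1) / (M : ℚ) ^ ((s :: w).length - i)) fun i _ =>
      P.sum (W i) _ fun u hu => P.smul _ fun h => ?_).of_eq fun N hN => ?_
    · obtain ⟨h1, h2⟩ := hc u h
      have h3 := mem_W.1 hu
      obtain ⟨a, ha⟩ : ∃ a, (s :: w).length = a + 2 + i := ⟨(s :: w).length - 2 - i, by omega⟩
      have := (ih i (by omega) u h1 h3).shift (a := a)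
      rw [ha, Nat.add_sub_cancel]
      exact this
    · induction N, hN using Nat.le_induction with
      | base =>
        have h0 : Q false 1 (s :: w) (1 - 1) = 0 := by cases s <;> simp [Q]
        rw [h0]
        refine (sum_eq_zero fun i _ => sum_eq_zero fun u hu => ?_).symm
        by_cases h : c u = 0
        · rw [h, zero_mul]
        · have h2 := (hc u h).2
          have h3 := mem_W.1 hu
          rw [sum_range_one, Nat.cast_zero, zero_pow (by omega), div_zero, mul_zero]
      | succ N hN ihN =>
        have := hq N hN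
        rw [sub_eq_iff_eq_add', ihN] at this
        rw [Nat.add_sub_cancel, this, ← sum_add_distrib]
        refine sum_congr rfl fun i _ => ?_
        rw [← sum_add_distrib]
        refine sum_congr rfl fun u _ => ?_
        rw [sum_range_succ _ N]
        ring

end Pool.Agent.DR
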