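import Pool.Agent.Lib.DR.Blue

set_option autoImplicit false

noncomputable section

namespace Pool.Agent.DR

/-- the right ideal generated by `b0, b1, c` -/
def uniJ {U : Type} [Ring U] (T : Br U) : AddSubgroup U where
  carrier := {x | ∃ u v w, x = T.b0 * u + T.b1 * v + T.c * w}
  zero_mem' := ⟨0, 0, 0, by simp⟩
  add_mem' := by
    rintro _ _ ⟨u, v, w, rfl⟩ ⟨u', v', w', rfl⟩
    exact ⟨u + u', v + v', w + w', by noncomm_ring⟩
  neg_mem' := by
    rintro _ ⟨u, v, w, rfl⟩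
    exact ⟨-u, -v, -w, by noncomm_ring⟩

theorem uniJ_b0 {U : Type} [Ring U] (T : Br U) (u : U) : T.b0 * u ∈ uniJ T := ⟨u, 0, 0, by simp⟩
theorem uniJ_b1 {U : Type} [Ring U] (T : Br U) (u : U) : T.b1 * u ∈ uniJ T := ⟨0, u, 0, by simp⟩
theorem uniJ_c {U : Type} [Ring U] (T : Br U) (u : U) : T.c * u ∈ uniJ T := ⟨0, 0, u, by simp⟩

theorem uniJ_a0 {U : Type} [Ring U] (T : Br U) {x : U} (hx : x ∈ uniJ T) : T.a0 * x ∈ uniJ T := by
  obtain ⟨u, v, w, rfl⟩ := hx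
  have e1 : T.a0 * T.b0 = T.b0 * (T.a0 + T.c) - T.c * T.b0 := by rw [T.h1.eq]; noncomm_ring
  have e2 : T.a0 * T.c = T.c * (T.a0 + T.b0) - T.b0 * T.c := by rw [T.h3.eq]; noncomm_ring
  refine ⟨(T.a0 + T.c) * u - T.c * w, T.a0 * v, (T.a0 + T.b0) * w - T.b0 * u, ?_⟩
  rw [mul_add, mul_add, ← mul_assoc, ← mul_assoc, ← mul_assoc, e1, e2, T.h8.eq]
  noncomm_ring

theorem uniJ_a1 {U : Type} [Ring U] (T : Br U) {x : U} (hx : x ∈ uniJ T) : T.a1 * x ∈ uniJ T := by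
  obtain ⟨u, v, w, rfl⟩ := hx
  have e1 : T.a1 * T.b1 = T.b1 * (T.c + T.a1) - T.c * T.b1 := by rw [T.h5.eq]; noncomm_ring
  have e2 : T.a1 * T.c = T.c * (T.a1 + T.b1) - T.b1 * T.c := by rw [T.h4.eq]; noncomm_ring
  refine ⟨T.a1 * u, (T.c + T.a1) * v - T.c * w, (T.a1 + T.b1) * w - T.b1 * v, ?_⟩
  rw [mul_add, mul_add, ← mul_assoc, ← mul_assoc, ← mul_assoc, e1, e2, ← T.h7.eq]
  noncomm_ring

theorem uniJ_gen {U : Type} [Ring U] (T : Br U) {j : U}
    (hj : j ∈ AddSubgroup.closure {T.b0, T.b1, T.c}) (u : U) : j * u ∈ uniJ T := by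
  induction hj using AddSubgroup.closure_induction with
  | mem g hg =>
    rcases hg with rfl | rfl | rfl
    exacts [uniJ_b0 T u, uniJ_b1 T u, uniJ_c T u]
  | zero => rw [zero_mul]; exact zero_mem _
  | add p q _ _ hp hq => rw [add_mul]; exact add_mem hp hq
  | neg p _ hp => rw [neg_mul]; exact neg_mem hp

theorem st_UNI : St_UNI := by
  intro U _ T hT s0 s1 f h0 h1 f0 f1 fc fs u
  have hJ : ∀ x ∈ uniJ T, f x = 0 := by
    rintro _ ⟨u, v, w, rfl⟩
    rw [map_add, map_add, f0, f1, fc]; simp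
  let S : AddSubgroup U := (Subring.closure {s0, s1}).toAddSubgroup ⊔ uniJ T
  have hS : ∀ x, x ∈ S := by
    refine hT.ind S (AddSubgroup.mem_sup_left (Subring.one_mem _)) fun x hx => ?_
    obtain ⟨s, hs, j, hj, rfl⟩ := AddSubgroup.mem_sup.1 hx
    have hs' : s ∈ Subring.closure {s0, s1} := hs
    refine ⟨?_, ?_, AddSubgroup.mem_sup_right (uniJ_c T _), AddSubgroup.mem_sup_right (uniJ_b0 T _),
      AddSubgroup.mem_sup_right (uniJ_b1 T _)⟩
    · have e : T.a0 * (s + j) = s0 * s + (T.a0 * j - (s0 - T.a0) * s) := by noncomm_ring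
      rw [e]
      exact add_mem (AddSubgroup.mem_sup_left
        (Subring.mul_mem _ (Subring.subset_closure (by simp)) hs'))
        (AddSubgroup.mem_sup_right (sub_mem (uniJ_a0 T hj) (uniJ_gen T h0 s)))
    · have e : T.a1 * (s + j) = s1 * s + (T.a1 * j - (s1 - T.a1) * s) := by noncomm_ring
      rw [e]
      exact add_mem (AddSubgroup.mem_sup_left
        (Subring.mul_mem _ (Subring.subset_closure (by simp)) hs'))
        (AddSubgroup.mem_sup_right (sub_mem (uniJ_a1 T hj) (uniJ_gen T h1 s)))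
  obtain ⟨s, hs, j, hj, rfl⟩ := AddSubgroup.mem_sup.1 (hS u)
  rw [map_add, fs s hs, hJ j hj, add_zero]

end Pool.Agent.DR
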