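import Pool.Agent.Lib.DR.Blue

set_option autoImplicit false

noncomputable section

namespace Pool.Agent.DR

namespace VAN

variable {U : Type} [Ring U]

theorem key {T : Br U} (hU : Uni T) (f : U →+ ℤ) (t s0 s1 : U)
    (h0 : s0 - T.a0 ∈ AddSubgroup.closure {T.b0, T.b1, T.c})
    (h1 : s1 - T.a1 ∈ AddSubgroup.closure {T.b0, T.b1, T.c})
    (hb : ∀ u, f (T.b0 * (u * t)) = 0 ∧ f (T.b1 * (u * t)) = 0 ∧ f (T.c * (u * t)) = 0)
    (hs : ∀ s ∈ Subring.closure {s0, s1}, f (s * t) = 0) (u : U) : f (u * t) = 0 :=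
  hU s0 s1 (f.comp (AddMonoidHom.mulRight t)) h0 h1
    (fun u => by simpa [mul_assoc] using (hb u).1)
    (fun u => by simpa [mul_assoc] using (hb u).2.1)
    (fun u => by simpa [mul_assoc] using (hb u).2.2) hs u

theorem comm {p q t s : U} (hp : Commute t p) (hq : Commute t q)
    (hs : s ∈ Subring.closure {p, q}) : s * t = t * s := by
  induction hs using Subring.closure_induction with
  | mem g hg =>
    rcases hg with rfl | rfl
    · exact hp.eq.symm
    · exact hq.eq.symm
  | zero => simp
  | one => simp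
  | add a b _ _ ha hb => rw [add_mul, mul_add, ha, hb]
  | neg a _ ha => rw [neg_mul, mul_neg, ha]
  | mul a b _ _ ha hb => rw [mul_assoc, hb, ← mul_assoc, ha, mul_assoc]

theorem fix {T : Br U} {fl : Bool} {D : U →+* U} {φ : List Bool → U →+ ℤ} (h : Fam T fl D φ)
    {s : U} (hs : s ∈ Subring.closure {T.a0 + T.b0, T.a1 + T.b1}) : D s = s := by
  induction hs using Subring.closure_induction with
  | mem g hg =>
    rcases hg with rfl | rfl
    · rw [map_add, h.Da0, h.Db0, zero_add]
    · rw [map_add, h.Da1, h.Db1, zero_add]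
  | zero => simp
  | one => simp
  | add a b _ _ ha hb => rw [map_add, ha, hb]
  | neg a _ ha => rw [map_neg, ha]
  | mul a b _ _ ha hb => rw [map_mul, ha, hb]

theorem m1 (p q r : U) : p ∈ AddSubgroup.closure ({p, q, r} : Set U) :=
  AddSubgroup.subset_closure (by simp)

theorem m2 (p q r : U) : q ∈ AddSubgroup.closure ({p, q, r} : Set U) :=
  AddSubgroup.subset_closure (by simp)

theorem m3 (p q r : U) : r ∈ AddSubgroup.closure ({p, q, r} : Set U) :=
  AddSubgroup.subset_closure (by simp)

end VAN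

open VAN in
theorem st_VAN : St_VAN := by
  intro U _ T fl D φ hU hU' h w
  induction w with
  | nil => exact fun _ => h.nil'
  | cons s w ih =>
    intro hw
    have hp := ih hw.tail
    have hz : ∀ t ∈ ({T.a0, T.b0, T.c, T.a0 + T.c, T.b0 + T.c} : Set U), ∀ u,
        φ w (u * t) = 0 ∧ φ w (D (u * t)) = 0 := by
      intro t ht u
      rcases ht with rfl | rfl | rfl | rfl | rfl <;>
        simp [mul_add, h.Da0, h.Db0, h.Dc, (hp _).1, (hp _).2.1, (hp _).2.2]
    have hc : ∀ x ∈ Subring.closure {T.a0 + T.b0, T.a1 + T.b1}, φ (s :: w) (x * T.c) = 0 := by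
      intro x hx
      rw [comm T.h3 T.h4 hx, h.ec, fix h hx]
      simp
    cases s
    · have hb : ∀ t ∈ ({T.a0, T.b0, T.c, T.a0 + T.c, T.b0 + T.c} : Set U), ∀ u,
          φ (false :: w) (T.b0 * (u * t)) = 0 ∧ φ (false :: w) (T.b1 * (u * t)) = 0 ∧
            φ (false :: w) (T.c * (u * t)) = 0 := fun t ht u => by
        rw [h.xb0, h.xb1, h.ec, (hz t ht u).1, (hz t ht u).2]
        simp
      have e1 := key hU (φ (false :: w)) T.c (T.a0 + T.b0) (T.a1 + T.b1)
        (by rw [add_sub_cancel_left]; exact m1 _ _ _) (by rw [add_sub_cancel_left]; exact m2 _ _ _)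
        (hb _ (by simp)) hc
      have e2 := key hU (φ (false :: w)) T.b0 (T.a0 + T.c) T.a1
        (by rw [add_sub_cancel_left]; exact m3 _ _ _) (by rw [sub_self]; exact zero_mem _)
        (hb _ (by simp)) (fun x hx => by
          rw [comm T.h1 T.h7 hx, h.xb0]
          rcases w with _ | ⟨_ | _, w⟩
          · simp at hw
          · simpa using h.xsec w x hx
          · simp)
      have e3 := key hU (φ (false :: w)) (T.a0 + T.c) (T.a0 + T.c) T.a1
        (by rw [add_sub_cancel_left]; exact m3 _ _ _) (by rw [sub_self]; exact zero_mem _)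
        (hb _ (by simp)) (fun x hx =>
          h.xsec w _ (mul_mem hx (Subring.subset_closure (by simp))))
      intro u
      refine ⟨?_, e2 u, e1 u⟩
      have := e3 u
      rwa [mul_add, map_add, e1 u, add_zero] at this
    · have hb : ∀ t ∈ ({T.a0, T.b0, T.c, T.a0 + T.c, T.b0 + T.c} : Set U), ∀ u,
          φ (true :: w) (T.a0 * (u * t)) = 0 ∧ φ (true :: w) (T.a1 * (u * t)) = 0 ∧
            φ (true :: w) (T.c * (u * t)) = 0 := fun t ht u => by
        rw [h.ya0, h.ya1, h.ec, (hz t ht u).1, (hz t ht u).2]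
        simp
      have e1 := key hU' (φ (true :: w)) T.c (T.a0 + T.b0) (T.a1 + T.b1)
        (by change T.a0 + T.b0 - T.b0 ∈ _; rw [add_sub_cancel_right]; exact m1 _ _ _)
        (by change T.a1 + T.b1 - T.b1 ∈ _; rw [add_sub_cancel_right]; exact m2 _ _ _)
        (hb _ (by simp)) hc
      have e2 := key hU' (φ (true :: w)) T.a0 (T.b0 + T.c) T.b1
        (by change T.b0 + T.c - T.b0 ∈ _; rw [add_sub_cancel_left]; exact m3 _ _ _)
        (by change T.b1 - T.b1 ∈ _; rw [sub_self]; exact zero_mem _)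
        (hb _ (by simp)) (fun x hx => by
          rw [comm T.h2 T.h8 hx, h.ya0]
          rcases w with _ | ⟨_ | _, w⟩
          · simp
          · simp
          · rw [h.ysec w x hx]; simp)
      have e3 := key hU' (φ (true :: w)) (T.b0 + T.c) (T.b0 + T.c) T.b1
        (by change T.b0 + T.c - T.b0 ∈ _; rw [add_sub_cancel_left]; exact m3 _ _ _)
        (by change T.b1 - T.b1 ∈ _; rw [sub_self]; exact zero_mem _)
        (hb _ (by simp)) (fun x hx =>
          h.ysec w _ (mul_mem hx (Subring.subset_closure (by simp))))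
      intro u
      refine ⟨e2 u, ?_, e1 u⟩
      have := e3 u
      rwa [mul_add, map_add, e1 u, add_zero] at this

end Pool.Agent.DR
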