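import Mathlib.Algebra.BigOperators.Intervals
import Mathlib.Data.Rat.Defs
import Mathlib.Algebra.Order.Field.Rat

set_option autoImplicit false

namespace Pool.Agent.DR

/-- The truncated sum `ζ_{<N}(k₁, …, k_r) = ∑_{N > n₁ > ⋯ > n_r > 0} ∏ n_i ^ (-k_i)`. -/
def mhs : List ℕ → ℕ → ℚ
  | [], _ => 1
  | k :: ks, N => ∑ n ∈ Finset.Ico 1 N, mhs ks n / (n : ℚ) ^ k

/-- The diamond sum: `dia N (s₁ ⋯ s_m) n` sums over `n ≥ n₁ ≥ ⋯ ≥ n_m ≥ 1`, with `n_i > n_{i+1}`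
when `s_i s_{i+1} = Y X`, the product of `1 / n_i` for `s_i = X` and `1 / (N - n_i)` for `s_i = Y`. -/
def dia (N : ℕ) : List Bool → ℕ → ℚ
  | [], _ => 1
  | false :: w, n => ∑ j ∈ Finset.Icc 1 n, dia N w j / j
  | true :: w, n =>
      ∑ j ∈ Finset.Icc 1 n, dia N w (if w.head? = some false then j - 1 else j) / ((N : ℚ) - j)

end Pool.Agent.DR
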