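import Pool.Agent.Lib.DR.Glue
import Pool.Agent.Lib.DR.Sums
import Pool.Agent.Lib.DR.B_SPAN

set_option autoImplicit false

noncomputable section

namespace Pool.Agent.DR

open Finset

universe v

theorem dia_eq (N : ℕ) (w : List Bool) (n : ℕ) : dia N w n = Q false N w n := by
  induction w generalizing n with
  | nil => rfl
  | cons s w ih =>
    cases s
    · rw [dia, Q, ← Ico_add_one_right_eq_Icc, sum_Ico_eq_sum_range]
      simp [ih, add_comm]
    · rw [dia, Q, ← Ico_add_one_right_eq_Icc, sum_Ico_eq_sum_range]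
      rcases w with _ | ⟨_ | _, w⟩ <;> simp [ih, add_comm, Q]

theorem HH_idx (k : List ℕ) (hk : ∀ j ∈ k, 2 ≤ j) (N : ℕ) (hN : 1 ≤ N) :
    HH (idx k) N = (-1) ^ k.length * mhs k N := by
  induction k generalizing N with
  | nil =>
    obtain ⟨M, rfl⟩ := Nat.exists_eq_add_of_le' hN
    simp [HH, idx, ell, mhs]
  | cons j k ih =>
    obtain ⟨i, rfl⟩ := Nat.exists_eq_add_of_le' (hk j List.mem_cons_self)
    have h : idx ((i + 2) :: k) = List.replicate (i + 1) false ++ true :: idx k := by simp [idx]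
    rw [h, HH, mhs, range_eq_Ico, sum_eq_sum_Ico_succ_bot hN, Span67.ell_rep, mul_sum]
    simp only [CharP.cast_eq_zero, ne_eq, Nat.add_eq_zero_iff, one_ne_zero, and_false,
      not_false_eq_true, zero_pow, div_zero, zero_add]
    refine sum_congr rfl fun M hM => ?_
    rw [Span67.ell_rep, ih (fun i hi => hk i (List.mem_cons_of_mem _ hi)) M (mem_Ico.1 hM).1,
      List.length_cons]
    ring

theorem idx_inj {k l : List ℕ} (hk : ∀ j ∈ k, 2 ≤ j) (hl : ∀ j ∈ l, 2 ≤ j) (h : idx k = idx l) :
    k = l := by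
  have key : ∀ (i j : ℕ) (u v : List Bool), List.replicate i false ++ true :: u =
      List.replicate j false ++ true :: v → i = j ∧ u = v := fun i => by
    induction i with
    | zero => intro j u v h; cases j <;> simp_all [List.replicate_succ]
    | succ i ih =>
      intro j u v h
      cases j with
      | zero => simp [List.replicate_succ] at h
      | succ j => simpa using ih j u v (by simpa [List.replicate_succ] using h)
  induction k generalizing l with
  | nil => cases l <;> simp_all [idx]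
  | cons a k ih =>
    cases l with
    | nil => simp [idx] at h
    | cons b l =>
      have h1 := key (a - 1) (b - 1) (idx k) (idx l) (by simpa [idx] using h)
      have h2 := hk a List.mem_cons_self
      have h3 := hl b List.mem_cons_self
      rw [ih (fun i hi => hk i (List.mem_cons_of_mem _ hi))
        (fun i hi => hl i (List.mem_cons_of_mem _ hi)) h1.2, show a = b by omega]

theorem sum_good {M : Type*} [AddCommMonoid M] {n : ℕ} {G : Finset (List ℕ)}
    (hG : ∀ k, k ∈ G ↔ (∀ j ∈ k, 2 ≤ j) ∧ k.sum = n) (F : List Bool → M)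
    (hF : ∀ u, F u ≠ 0 → Good u) : ∑ u ∈ W n, F u = ∑ k ∈ G, F (idx k) := by
  rw [← sum_image (s := G) (g := idx) (f := F) fun k hk l hl h =>
    idx_inj ((hG k).1 hk).1 ((hG l).1 hl).1 h]
  refine (sum_subset (fun u hu => ?_) fun u hu hu' => ?_).symm
  · obtain ⟨k, hk, rfl⟩ := mem_image.1 hu
    rw [mem_W, length_idx k ((hG k).1 hk).1, ((hG k).1 hk).2]
  · by_contra h
    obtain ⟨k, hk, rfl⟩ := hF u h
    exact hu' (mem_image_of_mem _ ((hG k).2 ⟨hk, by rw [← length_idx k hk, mem_W.1 hu]⟩))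

theorem adm_ex (hUNIV : St_UNIV) (hFOX : St_FOX) (hUNI : St_UNI) (hFAM : St_FAM) (hVAN : St_VAN)
    (hAB : St_AB) (hETA : St_ETA) (hTENS : St_TENS.{v}) (hCONV : St_CONV.{v}) (hC : St_CHAIN)
    (hS : St_SPAN) (hM : St_MSW) (hI : St_INJ) : ∃ a : List Bool → List Bool → ℤ,
    ∀ w, OK (false :: w) → (∀ u, a (false :: w) u ≠ 0 → Good u) ∧
      (∀ N : ℕ, 1 ≤ N → (-1) ^ (false :: w).count true * Q false N (false :: w) (N - 1) =
        ∑ u ∈ W (w.length + 1), a (false :: w) u * HH u N) ∧
      ∀ (R : Type v) [CommRing R] (Φ : List Bool → R), Pent Φ → Φ [] = 1 →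
        Φ (false :: w) = ∑ u ∈ W (w.length + 1), a (false :: w) u • Φ u := by
  obtain ⟨U, _, T, hU⟩ := hUNIV
  choose D φ hF using hFAM U T hU (hFOX U T hU) (hFOX U _ hU.swap)
  have hV : ∀ fl w, OK w → Van T (φ fl w) := fun fl =>
    hVAN U T fl _ _ (hUNI U T hU) (hUNI U _ hU.swap) (hF fl)
  have s0 : ∀ w, OK (false :: w) → ∀ u,
      φ false (false :: w) (wd (T.a0 + T.b0) (T.a1 + T.b1) u) ≠ 0 → Good u := fun w hw u hu => by
    obtain ⟨e, he1, he2⟩ := hS (false :: w) ⟨hw, rfl⟩
    have := supp hC hI (hF false) (hV false) hw he2 u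
    refine he1 u fun h0 => hu ?_
    rw [h0, ite_self] at this
    exact_mod_cast this
  have s1 : ∀ w, OK (false :: w) → ∀ u, φ true (false :: w) (wd (T.a0 + T.b0) (T.a1 + T.b1) u) =
      if u = false :: w then (-1) ^ (false :: w).count true else 0 := fun w hw u => by
    have := supp hC hI (hF true) (hV true) hw
      (e := fun u => if u = false :: w then (-1) ^ (false :: w).count true else 0)
      (fun N hN => by
        rw [hM _ hw N hN]
        simp only [ite_mul, zero_mul]
        rw [sum_ite_eq', if_pos (mem_W.2 List.length_cons)]) u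
    by_cases h : u = false :: w
    · rw [if_pos ⟨by rw [h]; rfl, by rw [h]; exact hw⟩, if_pos h] at this
      rw [if_pos h]
      exact_mod_cast this
    · rw [if_neg h, ite_self] at this
      rw [if_neg h]
      exact_mod_cast this
  have hK : ∀ fl, Kap (kap T (D fl) (φ fl)) := fun fl =>
    hETA U T fl _ _ (hF fl) (hV fl) fun w hw v => by
      rcases w with _ | ⟨_ | _, w⟩
      · rw [wd_true, add_mul, map_add, ((hF fl).nil _).2.1, ((hF fl).nil _).2.2.2.2, add_zero]
      · cases fl
        · by_contra h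
          exact absurd (s0 w hw.1 _ h).yh (by simp)
        · rw [s1 w hw.1, if_neg (by simp)]
      · exact absurd hw.2 (by simp)
  refine ⟨fun w u => (-1) ^ w.count true * φ false w (wd (T.a0 + T.b0) (T.a1 + T.b1) u),
    fun w hw => ⟨fun u hu => s0 w hw u (right_ne_zero_of_mul hu), fun N hN => ?_,
      fun R _ Φ hP h1 => ?_⟩⟩
  · have := hC U T false _ _ (hF _) (hV _) w hw (w.length + 1) N hN
    rw [if_pos rfl] at this
    rw [← this, mul_sum]
    exact sum_congr rfl fun u _ => by push_cast; ring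
  have hc := hCONV R Φ (fun w u v => kap T (D false) (φ false) w u v - kap T (D true) (φ true) w u v)
    h1 ⟨fun s w v h => by rw [(hK _).f1 s w v h, (hK _).f1 s w v h, sub_zero],
      fun s w t u v h => by
        rw [(hK _).f2 s w t u v h, (hK _).f2 s w t u v h]
        split_ifs <;> ring,
      fun s w u v h => by
        rw [(hK _).t1 s w u v h, (hK _).t1 s w u v h]
        split_ifs <;> ring⟩
    (by simp [kap, psi, (hF _).nil1])
    (fun w hw => by
      simp only [sub_smul, sum_sub_distrib, kap, psi, yh_cons, Bool.false_eq_true, if_false]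
      rw [hTENS R Φ hP h1 U T _ (hV _ _ hw) (hAB U T _ _ _ (hF _) w hw),
        hTENS R Φ hP h1 U T _ (hV _ _ hw) (hAB U T _ _ _ (hF _) w hw), sub_zero]) w hw
  simp only [sub_smul, sum_sub_distrib, kap, psi, yh_cons, Bool.false_eq_true, if_false, wd_nil,
    one_mul, s1 w hw, ite_smul, zero_smul] at hc
  rw [sum_ite_eq', if_pos (mem_W.2 List.length_cons), sub_eq_zero] at hc
  simp only [mul_smul, ← smul_sum]
  rw [hc, smul_smul, ← mul_pow, neg_one_mul, neg_neg, one_pow, one_smul]

theorem main_of2 (hUNIV : St_UNIV) (hFOX : St_FOX) (hUNI : St_UNI) (hFAM : St_FAM) (hVAN : St_VAN)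
    (hAB : St_AB) (hETA : St_ETA) (hLIFT : St_LIFT.{v}) (hTENS : St_TENS.{v})
    (hCONV : St_CONV.{v}) (hSH1 : St_SH1.{v})
    (hSH3 : ∀ w : List Bool, ∃ m : List Bool → ℤ, (∀ u, m u ≠ 0 → Adm u) ∧
      ∀ (R : Type v) [CommRing R] (Φ : List Bool → R), Shift Φ →
        Φ w = ∑ u ∈ W w.length, m u • Φ u) (hC : St_CHAIN)
    (hS : St_SPAN) (hM : St_MSW) (hI : St_INJ) (hN : St_COUNT) (n : ℕ) :
    ∃ (G : Finset (List ℕ)) (c : List Bool → List ℕ → ℤ),
      (∀ k, k ∈ G ↔ (∀ j ∈ k, 2 ≤ j) ∧ k.sum = n + 1) ∧ G.card = Nat.fib n ∧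
      (∀ w : List Bool, w.length = n + 1 → w.head? = some false → w.getLast? = some true →
        ∀ N : ℕ, 1 ≤ N → (-1) ^ w.count true * dia N w (N - 1) =
          ∑ k ∈ G, c w k * ((-1) ^ k.length * mhs k N)) ∧
      ∀ (R : Type v) [CommRing R] (Φ : List Bool → R), Φ [] = 1 → Pentagon Φ →
        ∀ w : List Bool, w.length = n + 1 → Φ w = ∑ k ∈ G, c w k • Φ (idx k) := by
  classical
  obtain ⟨G, hG, hc⟩ := hN n
  obtain ⟨a, ha⟩ := adm_ex hUNIV hFOX hUNI hFAM hVAN hAB hETA hTENS hCONV hC hS hM hI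
  choose m hm1 hm2 using hSH3
  have key : ∀ (R : Type v) [CommRing R] (Φ : List Bool → R), Φ [] = 1 → Pentagon Φ →
      ∀ w : List Bool, w.length = n + 1 → Adm w → Φ w = ∑ k ∈ G, a w (idx k) • Φ (idx k) := by
    intro R _ Φ h1 hP w hw hA
    rcases w with _ | ⟨_ | _, w⟩
    · simp at hw
    · obtain ⟨h2, -, h3⟩ := ha w hA.1
      rw [h3 R Φ (hLIFT R Φ hP) h1, show w.length + 1 = n + 1 from hw]
      exact sum_good hG _ fun u hu => h2 u (left_ne_zero_of_smul hu)
    · exact absurd hA.2 (by simp)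
  refine ⟨G, fun w k => if Adm w then a w (idx k) else ∑ u ∈ W (n + 1), m w u * a u (idx k), hG, hc,
    fun w hw h1 h2 N hN => ?_, fun R _ Φ h1 hP w hw => ?_⟩
  · rcases w with _ | ⟨_ | _, w⟩
    · simp at hw
    · have hO : OK (false :: w) := by rw [OK, h2]; simp
      obtain ⟨h3, h4, -⟩ := ha w hO
      rw [dia_eq, h4 N hN, show w.length + 1 = n + 1 from hw,
        sum_good hG _ fun u hu => h3 u (by simpa using left_ne_zero_of_mul hu)]
      refine sum_congr rfl fun k hk => ?_
      simp only [if_pos (show Adm (false :: w) from ⟨hO, rfl⟩), HH_idx k ((hG k).1 hk).1 N hN]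
    · simp at h1
  · by_cases hA : Adm w
    · simp only [if_pos hA]
      exact key R Φ h1 hP w hw hA
    · simp only [if_neg hA, sum_smul]
      rw [sum_comm, hm2 w R Φ (hSH1 R Φ (hLIFT R Φ hP) h1), hw]
      refine sum_congr rfl fun u hu => ?_
      by_cases h0 : m w u = 0
      · simp [h0]
      · rw [key R Φ h1 hP u (mem_W.1 hu) (hm1 w u h0), smul_sum]
        simp only [mul_smul]

end Pool.Agent.DR
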