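import Mathlib.Algebra.RingQuot
import Mathlib.Algebra.FreeAlgebra
import Mathlib.RingTheory.PowerSeries.Basic
import Mathlib.Data.Fintype.Vector

set_option autoImplicit false

noncomputable section

namespace Pool.Agent.DR

/-- The monomial `u(p, q)`: the letter `false` is `X` (sent to `p`), `true` is `Y` (sent to `q`). -/
def wd {B : Type*} [Monoid B] (p q : B) (u : List Bool) : B :=
  (u.map fun s => if s then q else p).prod

/-- The series `Φ(p, q) = ∑_u Φ[u] u(p, q)`, with its degree `n` part as the coefficient of `T ^ n`. -/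
def ser {R B : Type*} [CommRing R] [Ring B] [Algebra R B] (Φ : List Bool → R) (p q : B) :
    PowerSeries B :=
  PowerSeries.mk fun n => ∑ u : List.Vector Bool n, Φ u.toList • wd p q u.toList

/-- The infinitesimal pure braid relations on four strands. -/
inductive Rel (R : Type*) [CommRing R] :
    FreeAlgebra R (Fin 4 × Fin 4) → FreeAlgebra R (Fin 4 × Fin 4) → Prop
  | diag (i : Fin 4) : Rel R (FreeAlgebra.ι R (i, i)) 0
  | symm (i j : Fin 4) : Rel R (FreeAlgebra.ι R (i, j)) (FreeAlgebra.ι R (j, i))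
  | tri (i j k : Fin 4) (h : [i, j, k].Nodup) :
      Rel R (FreeAlgebra.ι R (i, j) * (FreeAlgebra.ι R (i, k) + FreeAlgebra.ι R (j, k)))
        ((FreeAlgebra.ι R (i, k) + FreeAlgebra.ι R (j, k)) * FreeAlgebra.ι R (i, j))
  | far (i j k l : Fin 4) (h : [i, j, k, l].Nodup) :
      Rel R (FreeAlgebra.ι R (i, j) * FreeAlgebra.ι R (k, l))
        (FreeAlgebra.ι R (k, l) * FreeAlgebra.ι R (i, j))

/-- The generator `t_{i+1, j+1}` of the enveloping algebra of the Drinfeld-Kohno Lie algebra. -/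
def tt (R : Type*) [CommRing R] (i j : Fin 4) : RingQuot (Rel R) :=
  RingQuot.mkAlgHom R (Rel R) (FreeAlgebra.ι R (i, j))

/-- Drinfeld's pentagon equation. -/
def Pentagon {R : Type*} [CommRing R] (Φ : List Bool → R) : Prop :=
  ser Φ (tt R 0 1) (tt R 1 2 + tt R 1 3) * ser Φ (tt R 0 2 + tt R 1 2) (tt R 2 3) =
    ser Φ (tt R 1 2) (tt R 2 3) * ser Φ (tt R 0 1 + tt R 0 2) (tt R 1 3 + tt R 2 3) *
      ser Φ (tt R 0 1) (tt R 1 2)

/-- The word `X ^ (k₁ - 1) Y ⋯ X ^ (k_r - 1) Y`. -/
def idx (k : List ℕ) : List Bool :=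
  k.flatMap fun j => List.replicate (j - 1) false ++ [true]

end Pool.Agent.DR
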