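import Pool.Agent.Lib.DR.Blue

set_option autoImplicit false

noncomputable section

namespace Pool.Agent.DR

open Finset

universe v

namespace SH2

/-- the number of ways to delete letters `Y` from the first word to get the second -/
def m : List Bool → List Bool → ℤ
  | [], w => if w = [] then 1 else 0
  | false :: u, false :: w => m u w
  | false :: _, _ => 0
  | true :: u, true :: w => m u w + m u (true :: w)
  | true :: u, w => m u w

theorem m_len : ∀ (u w : List Bool), m u w ≠ 0 → w.length ≤ u.length
  | [], w, h => by
    have : w = [] := by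
      by_contra hw
      simp [m, hw] at h
    simp [this]
  | false :: u, [], _ => by simp
  | false :: u, false :: w, h => by
    have := m_len u w (by simpa [m] using h)
    simpa using this
  | false :: u, true :: w, h => by simp [m] at h
  | true :: u, [], _ => by simp
  | true :: u, false :: w, h => by
    have := m_len u (false :: w) (by simpa [m] using h)
    simp only [List.length_cons] at this ⊢
    omega
  | true :: u, true :: w, h => by
    rw [m] at h
    by_cases h1 : m u w = 0
    · have := m_len u (true :: w) (by simpa [h1] using h)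
      simp only [List.length_cons] at this ⊢
      omega
    · have := m_len u w h1
      simpa using this

theorem m_zero {u w : List Bool} (h : u.length < w.length) : m u w = 0 := by
  by_contra h'
  exact absurd (m_len u w h') (by omega)

theorem m_eq : ∀ (u w : List Bool), u.length = w.length → m u w = if u = w then 1 else 0
  | [], [], _ => by simp [m]
  | [], _ :: _, h => by simp at h
  | _ :: _, [], h => by simp at h
  | false :: u, false :: w, h => by
    rw [m, m_eq u w (by simpa using h)]
    simp
  | false :: u, true :: w, _ => by simp [m]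
  | true :: u, false :: w, h => by
    have : m u (false :: w) = 0 := m_zero (by simp only [List.length_cons] at h ⊢; omega)
    simp [m, this]
  | true :: u, true :: w, h => by
    have : m u (true :: w) = 0 := m_zero (by simp only [List.length_cons] at h ⊢; omega)
    rw [m, this, m_eq u w (by simpa using h)]
    simp

theorem m_true {w : List Bool} (hw : yh w = false) (u : List Bool) : m (true :: u) w = m u w := by
  rcases w with _ | ⟨_ | _, w⟩
  · simp [m]
  · simp [m]
  · simp at hw

theorem m_rep {w : List Bool} (hw : yh w = false) (i : ℕ) (u : List Bool) :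
    m (List.replicate i true ++ u) w = m u w := by
  induction i with
  | zero => simp
  | succ i ih => rw [List.replicate_succ, List.cons_append, m_true hw, ih]

theorem OK_true {u : List Bool} (h : OK u) : OK (true :: u) := by
  cases u with
  | nil => simp
  | cons t u => simpa using h

theorem m_nil_OK : ∀ u : List Bool, m u [] ≠ 0 → OK u
  | [], _ => by simp
  | false :: u, h => by simp [m] at h
  | true :: u, h => OK_true (m_nil_OK u (by simpa [m] using h))

theorem m_OK : ∀ (u w : List Bool), m u w ≠ 0 → OK w → OK u
  | [], _, _, _ => by simp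
  | false :: u, [], h, _ => by simp [m] at h
  | false :: u, false :: w, h, hw => by
    have h' : m u w ≠ 0 := by simpa [m] using h
    have h1 := m_OK u w h' hw.tail
    have h2 := m_len u w h'
    cases w with
    | nil => simp at hw
    | cons s w =>
      cases u with
      | nil => simp at h2
      | cons t u => simpa using h1
  | false :: u, true :: w, h, _ => by simp [m] at h
  | true :: u, [], h, _ => m_nil_OK _ h
  | true :: u, false :: w, h, hw => OK_true (m_OK u _ (by simpa [m] using h) hw)
  | true :: u, true :: w, h, hw => by
    rw [m] at h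
    by_cases h1 : m u w = 0
    · exact OK_true (m_OK u _ (by simpa [h1] using h) hw)
    · exact OK_true (m_OK u w h1 hw.tail)

theorem decomp : ∀ u : List Bool, ∃ i u', u = List.replicate i true ++ u' ∧ yh u' = false
  | [] => ⟨0, [], by simp, rfl⟩
  | false :: u => ⟨0, false :: u, by simp, rfl⟩
  | true :: u => by
    obtain ⟨i, u', h, h'⟩ := decomp u
    exact ⟨i + 1, u', by rw [List.replicate_succ, List.cons_append, ← h], h'⟩

variable {R : Type v} [CommRing R]

/-- strip a first letter `s` -/
def st (R : Type v) [CommRing R] (s : Bool) : Module.End R (List Bool → R) where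
  toFun ψ w := match w with
    | [] => 0
    | t :: w => if t = s then ψ w else 0
  map_add' ψ ψ' := by
    funext w
    rcases w with _ | ⟨t, w⟩
    · simp
    · by_cases h : t = s <;> simp [h]
  map_smul' c ψ := by
    funext w
    rcases w with _ | ⟨t, w⟩
    · simp
    · by_cases h : t = s <;> simp [h]

theorem st_nil (s : Bool) (ψ : List Bool → R) : st R s ψ [] = 0 := rfl

theorem st_cons (s t : Bool) (ψ : List Bool → R) (w : List Bool) :
    st R s ψ (t :: w) = if t = s then ψ w else 0 := rfl

def dl (R : Type v) [CommRing R] : List Bool → R := fun w => if w = [] then 1 else 0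

theorem wd_shift : ∀ (u w : List Bool),
    wd (st R false) (st R true + 1) u (dl R) w = (m u w : R)
  | [], w => by
    by_cases h : w = [] <;> simp [m, dl, h]
  | false :: u, [] => by simp [m, st_nil]
  | false :: u, false :: w => by simp [m, st_cons, wd_shift u w]
  | false :: u, true :: w => by simp [m, st_cons]
  | true :: u, [] => by simp [m, st_nil, wd_shift u []]
  | true :: u, false :: w => by simp [m, st_cons, wd_shift u (false :: w)]
  | true :: u, true :: w => by simp [m, st_cons, wd_shift u w, wd_shift u (true :: w)]

theorem wd_plain : ∀ (u w : List Bool), w.length < u.length →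
    wd (st R false) (st R true) u (dl R) w = 0
  | [], _, h => by simp at h
  | false :: u, [], _ => by simp [st_nil]
  | true :: u, [], _ => by simp [st_nil]
  | false :: u, t :: w, h => by
    simp [st_cons, wd_plain u w (by simpa using h)]
  | true :: u, t :: w, h => by
    simp [st_cons, wd_plain u w (by simpa using h)]

theorem rel {Φ : List Bool → R} (h : Shift Φ) {n : ℕ} {w : List Bool} (hw : w.length < n) :
    ∑ u ∈ W n, m u w • Φ u = 0 := by
  have h1 := congrArg (PowerSeries.coeff n) (h _ (st R false) (st R true)).2
  rw [coeff_ser, coeff_ser] at h1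
  have h2 := congrArg (fun f : Module.End R (List Bool → R) => f (dl R) w) h1
  simp only [LinearMap.sum_apply, LinearMap.smul_apply, Finset.sum_apply, Pi.smul_apply,
    smul_eq_mul, wd_shift] at h2
  rw [sum_eq_zero (s := W n) (f := fun u => Φ u * wd (st R false) (st R true) u (dl R) w)
    fun u hu => by rw [wd_plain u w (by rw [mem_W.1 hu]; exact hw), mul_zero]] at h2
  rw [← h2]
  exact sum_congr rfl fun u _ => by rw [zsmul_eq_mul, mul_comm]

theorem strip {Φ : List Bool → R} (h : Shift Φ) (P : List Bool → Prop)
    (h1 : ∀ u w, m u w ≠ 0 → P w → P u) (h2 : ∀ w, P (true :: w) → P w) (n : ℕ) :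
    ∀ (j : ℕ) (w : List Bool), yh w = false → P w → j + w.length = n →
      Φ (List.replicate j true ++ w) ∈
        Submodule.span ℤ (Φ '' {u | (P u ∧ yh u = false) ∧ u.length = n}) := by
  have h3 : ∀ (i : ℕ) (w : List Bool), P (List.replicate i true ++ w) → P w := fun i w => by
    induction i with
    | zero => simp
    | succ i ih => exact fun hp => ih (h2 _ hp)
  intro j
  induction j using Nat.strong_induction_on with
  | _ j ih =>
    intro w hy hp hn
    rcases Nat.eq_zero_or_pos j with rfl | hj
    · exact Submodule.subset_span ⟨w, ⟨⟨hp, hy⟩, by simpa using hn⟩, by simp⟩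
    have hr := rel h (n := n) (w := w) (by omega)
    have hm : List.replicate j true ++ w ∈ W n := mem_W.2 (by simpa using hn)
    rw [← add_sum_erase _ _ hm, m_rep hy, m_eq w w rfl, if_pos rfl, one_smul,
      add_eq_zero_iff_eq_neg] at hr
    rw [hr]
    refine neg_mem (Submodule.sum_mem _ fun u hu => ?_)
    by_cases h0 : m u w = 0
    · rw [h0, zero_smul]
      exact zero_mem _
    refine Submodule.smul_mem _ _ ?_
    obtain ⟨hne, hu⟩ := mem_erase.1 hu
    have hpu := h1 u w h0 hp
    obtain ⟨i, u', rfl, hy'⟩ := decomp u
    have hl : i + u'.length = n := by simpa using mem_W.1 hu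
    rw [m_rep hy] at h0
    have hle := m_len u' w h0
    have hij : i < j := by
      by_contra hc
      have he : u'.length = w.length := by omega
      have hi : i = j := by omega
      rw [m_eq u' w he] at h0
      have : u' = w := by
        by_contra hc'
        simp [hc'] at h0
      exact hne (by rw [hi, this])
    exact ih i hij u' hy' (h3 i u' hpu) hl

theorem strip' {Φ : List Bool → R} (h : Shift Φ) (P : List Bool → Prop)
    (h1 : ∀ u w, m u w ≠ 0 → P w → P u) (h2 : ∀ w, P (true :: w) → P w) (w : List Bool)
    (hw : P w) :
    Φ w ∈ Submodule.span ℤ (Φ '' {u | (P u ∧ yh u = false) ∧ u.length = w.length}) := by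
  obtain ⟨i, w', rfl, hy⟩ := decomp w
  have h3 : ∀ (i : ℕ) (w : List Bool), P (List.replicate i true ++ w) → P w := fun i w => by
    induction i with
    | zero => simp
    | succ i ih => exact fun hp => ih (h2 _ hp)
  exact strip h P h1 h2 _ i w' hy (h3 i w' hw) (by simp)

/-- reverse the word and swap the letters -/
def sg (u : List Bool) : List Bool := (u.map not).reverse

theorem sg_sg (u : List Bool) : sg (sg u) = u := by
  simp [sg, List.map_reverse, Function.comp_def]

theorem sg_len (u : List Bool) : (sg u).length = u.length := by simp [sg]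

theorem sg_OK {u : List Bool} (h : yh u = false) : OK (sg u) := by
  rcases u with _ | ⟨_ | _, u⟩
  · simp [sg]
  · simp [sg, OK]
  · simp at h

theorem wd_op {B : Type*} [Monoid B] (p q : B) (u : List Bool) :
    wd (MulOpposite.op q) (MulOpposite.op p) u = MulOpposite.op (wd p q (sg u)) := by
  induction u with
  | nil => simp [sg]
  | cons s u ih =>
    have : sg (s :: u) = sg u ++ [!s] := by simp [sg]
    rw [this, wd_append]
    cases s <;> simp [ih]

theorem coeff_sg {B : Type v} [Ring B] [Algebra R B] (Φ : List Bool → R) (p q : B) (n : ℕ) :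
    PowerSeries.coeff n (ser (fun u => Φ (sg u)) p q) =
      MulOpposite.unop (PowerSeries.coeff n (ser Φ (MulOpposite.op q) (MulOpposite.op p))) := by
  rw [coeff_ser, coeff_ser, Finset.unop_sum]
  refine sum_nbij' sg sg (by simp [mem_W, sg_len]) (by simp [mem_W, sg_len]) (by simp [sg_sg])
    (by simp [sg_sg]) fun u _ => ?_
  rw [wd_op, sg_sg]
  simp

theorem shift_sg {Φ : List Bool → R} (h : Shift Φ) : Shift fun u => Φ (sg u) := by
  intro B _ _ p q
  constructor
  · ext n
    rw [coeff_sg, coeff_sg, MulOpposite.op_add, MulOpposite.op_one, (h Bᵐᵒᵖ _ _).2]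
  · ext n
    rw [coeff_sg, coeff_sg, MulOpposite.op_add, MulOpposite.op_one, (h Bᵐᵒᵖ _ _).1]

end SH2

theorem st_SH2 : St_SH2.{v} := by
  intro R _ Φ h w
  have h1 := SH2.strip' (SH2.shift_sg h) (fun _ => True) (fun _ _ _ _ => trivial)
    (fun _ _ => trivial) (SH2.sg w) trivial
  simp only [SH2.sg_sg, SH2.sg_len] at h1
  refine Submodule.span_le.2 ?_ h1
  rintro _ ⟨u, ⟨⟨-, hy⟩, hl⟩, rfl⟩
  have h2 := SH2.strip' h OK SH2.m_OK (fun _ hw => hw.tail) (SH2.sg u) (SH2.sg_OK hy)
  rw [SH2.sg_len, hl] at h2
  exact h2

end Pool.Agent.DR
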