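import Pool.Agent.Lib.DR.Blue

set_option autoImplicit false

noncomputable section

namespace Pool.Agent.DR

open Finset TensorProduct

universe v

namespace TENS

/-- image of the braid data under a ring map -/
def mapBr {U B : Type*} [Ring U] [Ring B] (g : U →+* B) (T : Br U) : Br B where
  a0 := g T.a0
  a1 := g T.a1
  c := g T.c
  b0 := g T.b0
  b1 := g T.b1
  h1 := map_add g _ _ ▸ T.h1.map g
  h2 := map_add g _ _ ▸ T.h2.map g
  h3 := map_add g _ _ ▸ T.h3.map g
  h4 := map_add g _ _ ▸ T.h4.map g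
  h5 := map_add g _ _ ▸ T.h5.map g
  h6 := map_add g _ _ ▸ T.h6.map g
  h7 := T.h7.map g
  h8 := T.h8.map g

theorem two {R B U : Type*} [CommRing R] [Ring B] [Algebra R B] [Ring U] (g : U →+* B)
    (L : B →ₗ[R] R) (f : U →+ ℤ) (hL : ∀ u, L (g u) = f u • (1 : R)) (Φ : List Bool → R)
    (p q r s z : U) (n : ℕ) :
    L (PowerSeries.coeff n (ser Φ (g p) (g q) * ser Φ (g r) (g s)) * g z) =
      ∑ x ∈ antidiagonal n, ∑ u ∈ W x.1, ∑ w ∈ W x.2,
        f (wd p q u * wd r s w * z) • (Φ u * Φ w) := by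
  rw [PowerSeries.coeff_mul, sum_mul, map_sum]
  refine sum_congr rfl fun x _ => ?_
  rw [coeff_ser, coeff_ser, sum_mul_sum, sum_mul, map_sum]
  refine sum_congr rfl fun u _ => ?_
  rw [sum_mul, map_sum]
  refine sum_congr rfl fun w _ => ?_
  rw [smul_mul_smul_comm, smul_mul_assoc, ← map_wd, ← map_wd, ← map_mul, ← map_mul, map_smul, hL,
    smul_eq_mul, mul_smul_comm, mul_one]

theorem van {U : Type} [Ring U] {T : Br U} {f : U →+ ℤ} (h : Van T f) (y : U) {w : List Bool}
    (hw : w ≠ []) : f (y * wd T.b0 T.c w) = 0 := by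
  obtain rfl | ⟨w', s, rfl⟩ := List.eq_nil_or_concat w
  · exact absurd rfl hw
  · rw [List.concat_eq_append, wd_append, ← mul_assoc]
    cases s
    · simpa using (h (y * wd T.b0 T.c w')).2.1
    · simpa using (h (y * wd T.b0 T.c w')).2.2

end TENS

open TENS in
theorem st_TENS : St_TENS.{v} := by
  intro R _ Φ hP h1 U _ T f hV h0 n
  let g : U →+* R ⊗[ℤ] U := (Algebra.TensorProduct.includeRight : U →ₐ[ℤ] R ⊗[ℤ] U).toRingHom
  let L : R ⊗[ℤ] U →ₗ[R] R := (AlgebraTensorModule.rid ℤ R R).toLinearMap ∘ₗ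
    LinearMap.baseChange R f.toIntLinearMap
  have hL : ∀ u, L (g u) = f u • (1 : R) := fun u => by simp [L, g]
  have e := hP (R ⊗[ℤ] U) (mapBr g T)
  simp only [mapBr, ← map_add] at e
  have e1 := two g L f hL Φ T.b0 (T.c + T.b1) (T.a0 + T.c) T.a1 1 n
  simp only [mul_one, map_one, h0, zero_smul, sum_const_zero] at e1
  rw [e, PowerSeries.coeff_mul, map_sum, sum_eq_single (n, 0)] at e1
  · have e2 := two g L f hL Φ T.c T.a1 (T.a0 + T.b0) (T.a1 + T.b1) 1 n
    simp only [mul_one, map_one] at e2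
    rw [coeff_ser Φ (g T.b0), W_zero, sum_singleton, h1, wd_nil, one_smul, mul_one] at e1
    rw [← e2, e1]
  · intro y hy hne
    rw [coeff_ser Φ (g T.b0), mul_sum, map_sum]
    refine sum_eq_zero fun w hw => ?_
    have hw' : w ≠ [] := by
      rintro rfl
      have h2 : y.2 = 0 := (mem_W.1 hw).symm
      have h3 := mem_antidiagonal.1 hy
      exact hne (Prod.ext (by simpa [h2] using h3) h2)
    rw [mul_smul_comm, map_smul, ← map_wd, two g L f hL]
    simp only [van hV _ hw', zero_smul, sum_const_zero, smul_zero]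
  · intro h
    exact absurd (mem_antidiagonal.2 (by simp)) h

end Pool.Agent.DR
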