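import Pool.Agent.Lib.DR.Blue

set_option autoImplicit false

noncomputable section

namespace Pool.Agent.DR

namespace UNIV

/-- the free ring on five letters -/
abbrev FA : Type := FreeAlgebra ℤ (Fin 5)

/-- the letters -/
def g (i : Fin 5) : FA := FreeAlgebra.ι ℤ i

/-- the pairs that have to commute -/
def prs : List (FA × FA) :=
  [(g 3, g 0 + g 2), (g 0, g 3 + g 2), (g 2, g 0 + g 3), (g 2, g 1 + g 4), (g 4, g 2 + g 1),
    (g 1, g 2 + g 4), (g 3, g 1), (g 0, g 4)]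

/-- the relations -/
def Rel5 (x y : FA) : Prop := ∃ p ∈ prs, x = p.1 * p.2 ∧ y = p.2 * p.1

/-- the quotient map -/
def mk : FA →ₐ[ℤ] RingQuot Rel5 := RingQuot.mkAlgHom ℤ Rel5

theorem comm {x y : FA} (h : (x, y) ∈ prs) : Commute (mk x) (mk y) := by
  have h1 : mk (x * y) = mk (y * x) := RingQuot.mkAlgHom_rel ℤ ⟨(x, y), h, rfl, rfl⟩
  rw [map_mul, map_mul] at h1
  exact h1

theorem comm2 {x y z : FA} (h : (x, y + z) ∈ prs) : Commute (mk x) (mk y + mk z) := by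
  rw [← map_add]
  exact comm h

/-- the universal five-tuple -/
def T0 : Br (RingQuot Rel5) where
  a0 := mk (g 0)
  a1 := mk (g 1)
  c := mk (g 2)
  b0 := mk (g 3)
  b1 := mk (g 4)
  h1 := comm2 (by simp [prs])
  h2 := comm2 (by simp [prs])
  h3 := comm2 (by simp [prs])
  h4 := comm2 (by simp [prs])
  h5 := comm2 (by simp [prs])
  h6 := comm2 (by simp [prs])
  h7 := comm (by simp [prs])
  h8 := comm (by simp [prs])

theorem ind (S : AddSubgroup (RingQuot Rel5)) (h1 : (1 : RingQuot Rel5) ∈ S)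
    (hS : ∀ u ∈ S, T0.a0 * u ∈ S ∧ T0.a1 * u ∈ S ∧ T0.c * u ∈ S ∧ T0.b0 * u ∈ S ∧
      T0.b1 * u ∈ S) (u : RingQuot Rel5) : u ∈ S := by
  have key : ∀ r : FA, ∀ u ∈ S, mk r * u ∈ S := by
    intro r
    induction r using FreeAlgebra.induction with
    | grade0 n =>
      intro u hu
      rw [AlgHom.commutes, ← Algebra.smul_def]
      exact S.zsmul_mem hu n
    | grade1 i =>
      intro u hu
      obtain ⟨e0, e1, e2, e3, e4⟩ := hS u hu
      fin_cases i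
      exacts [e0, e1, e2, e3, e4]
    | mul a b ha hb =>
      intro u hu
      rw [map_mul, mul_assoc]
      exact ha _ (hb u hu)
    | add a b ha hb =>
      intro u hu
      rw [map_add, add_mul]
      exact S.add_mem (ha u hu) (hb u hu)
  obtain ⟨r, rfl⟩ := RingQuot.mkAlgHom_surjective ℤ Rel5 u
  have h2 := key r 1 h1
  rw [mul_one] at h2
  exact h2

theorem lift (B : Type) [Ring B] (T' : Br B) : ∃ f : RingQuot Rel5 →+* B,
    f T0.a0 = T'.a0 ∧ f T0.a1 = T'.a1 ∧ f T0.c = T'.c ∧ f T0.b0 = T'.b0 ∧ f T0.b1 = T'.b1 := by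
  let φ : FA →ₐ[ℤ] B := FreeAlgebra.lift ℤ ![T'.a0, T'.a1, T'.c, T'.b0, T'.b1]
  have e0 : φ (g 0) = T'.a0 := FreeAlgebra.lift_ι_apply _ _
  have e1 : φ (g 1) = T'.a1 := FreeAlgebra.lift_ι_apply _ _
  have e2 : φ (g 2) = T'.c := FreeAlgebra.lift_ι_apply _ _
  have e3 : φ (g 3) = T'.b0 := FreeAlgebra.lift_ι_apply _ _
  have e4 : φ (g 4) = T'.b1 := FreeAlgebra.lift_ι_apply _ _
  have hφ : ∀ ⦃x y : FA⦄, Rel5 x y → φ x = φ y := by
    rintro x y ⟨p, hp, rfl, rfl⟩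
    simp only [prs, List.mem_cons, List.not_mem_nil, or_false] at hp
    rcases hp with rfl | rfl | rfl | rfl | rfl | rfl | rfl | rfl <;>
      simp only [map_mul, map_add, e0, e1, e2, e3, e4]
    exacts [T'.h1, T'.h2, T'.h3, T'.h4, T'.h5, T'.h6, T'.h7, T'.h8]
  have hl : ∀ x : FA, RingQuot.liftAlgHom ℤ ⟨φ, hφ⟩ (mk x) = φ x := fun x =>
    RingQuot.liftAlgHom_mkAlgHom_apply ℤ φ hφ x
  exact ⟨(RingQuot.liftAlgHom ℤ ⟨φ, hφ⟩ : RingQuot Rel5 →ₐ[ℤ] B).toRingHom, (hl _).trans e0,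
    (hl _).trans e1, (hl _).trans e2, (hl _).trans e3, (hl _).trans e4⟩

end UNIV

theorem st_UNIV : St_UNIV :=
  ⟨RingQuot UNIV.Rel5, inferInstance, UNIV.T0, ⟨UNIV.ind, UNIV.lift⟩⟩

end Pool.Agent.DR
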