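import Pool.Agent.Lib.DR.Blue

set_option autoImplicit false

namespace Pool.Agent.DR

universe v

namespace SH1

variable {R : Type v} [CommRing R] {Φ : List Bool → R} {B : Type v} [Ring B] [Algebra R B]

theorem rinv (h1 : Φ [] = 1) (p q : B) : ∃ y, ser Φ p q * y = 1 := by
  refine ⟨PowerSeries.invOfUnit (ser Φ p q) 1, PowerSeries.mul_invOfUnit _ _ ?_⟩
  rw [← PowerSeries.coeff_zero_eq_constantCoeff_apply, coeff_ser, W_zero]
  simp [h1]

theorem idem (h1 : Φ [] = 1) {p q : B} (h : ser Φ p q = ser Φ p q * ser Φ p q) :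
    ser Φ p q = 1 := by
  obtain ⟨y, hy⟩ := rinv h1 p q
  calc ser Φ p q = ser Φ p q * (ser Φ p q * y) := by rw [hy, mul_one]
    _ = 1 := by rw [← mul_assoc, ← h, hy]

theorem pent (h : Pent Φ) (p q s t : B) (hs : ∀ x, Commute s x) (ht : ∀ x, Commute t x) :
    ser Φ s t * ser Φ p q = ser Φ 0 q * ser Φ (p + s) (q + t) * ser Φ s 0 := by
  have := h B ⟨p, q, 0, s, t, hs _, (by simpa using (hs p).symm), Commute.zero_left _,
    Commute.zero_left _, ht _, (by simpa using (ht q).symm), hs _, (ht p).symm⟩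
  simpa using this

end SH1

open SH1 in
theorem st_SH1 : St_SH1.{v} := by
  intro R _ Φ h h1 B _ _ p q
  have z : ∀ x : B, Commute 0 x := Commute.zero_left
  have o : ∀ x : B, Commute 1 x := Commute.one_left
  have e0 : ser Φ (0 : B) 0 = 1 := by
    have a := pent h (0 : B) 0 0 0 z z
    obtain ⟨y, hy⟩ := rinv h1 (0 : B) 0
    rw [add_zero] at a
    refine idem h1 ?_
    calc ser Φ (0 : B) 0 = ser Φ 0 0 * ser Φ 0 0 * y := by rw [mul_assoc, hy, mul_one]
      _ = ser Φ 0 0 * ser Φ 0 0 * ser Φ 0 0 * y := congrArg (· * y) a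
      _ = _ := by rw [mul_assoc, hy, mul_one]
  have e1 : ∀ x : B, ser Φ 0 x = 1 := fun x => by
    have a := pent h (0 : B) x 0 0 z z
    rw [add_zero, add_zero, e0, one_mul, mul_one] at a
    exact idem h1 a
  have e2 : ser Φ (1 : B) 0 = 1 := by
    have a := pent h (0 : B) 0 1 0 o z
    rw [zero_add, add_zero, e0, one_mul, mul_one] at a
    exact idem h1 a
  constructor
  · have a := pent h p q 1 0 o z
    rw [e2, e1, one_mul, one_mul, mul_one, add_zero] at a
    exact a.symm
  · have a := pent h p q 0 1 z o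
    rw [e0, e1, e1, one_mul, one_mul, mul_one, add_zero] at a
    exact a.symm

end Pool.Agent.DR
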