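import Pool.Agent.Lib.DR.Api

set_option autoImplicit false

noncomputable section

namespace Pool.Agent.DR

open Finset

universe v

/-- `a0 = t13, a1 = t34, c = t23, b0 = t12, b1 = t24` -/
structure Br (B : Type*) [Ring B] where
  a0 : B
  a1 : B
  c : B
  b0 : B
  b1 : B
  h1 : Commute b0 (a0 + c)
  h2 : Commute a0 (b0 + c)
  h3 : Commute c (a0 + b0)
  h4 : Commute c (a1 + b1)
  h5 : Commute b1 (c + a1)
  h6 : Commute a1 (c + b1)
  h7 : Commute b0 a1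
  h8 : Commute a0 b1

def Br.swap {B : Type*} [Ring B] (T : Br B) : Br B where
  a0 := T.b0
  a1 := T.b1
  c := T.c
  b0 := T.a0
  b1 := T.a1
  h1 := T.h2
  h2 := T.h1
  h3 := add_comm T.a0 T.b0 ▸ T.h3
  h4 := add_comm T.a1 T.b1 ▸ T.h4
  h5 := T.h6
  h6 := T.h5
  h7 := T.h8
  h8 := T.h7

theorem closure_left {U : Type*} [Ring U] {S : Set U} (H : AddSubgroup U) (h1 : (1 : U) ∈ H)
    (h : ∀ g ∈ S, ∀ u ∈ H, g * u ∈ H) {s : U} (hs : s ∈ Subring.closure S) : s ∈ H := by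
  have key : ∀ u ∈ H, s * u ∈ H := by
    induction hs using Subring.closure_induction with
    | mem g hg => exact h g hg
    | zero => intro u _; simp
    | one => intro u hu; simpa
    | add p q _ _ hp hq => intro u hu; rw [add_mul]; exact add_mem (hp u hu) (hq u hu)
    | neg p _ hp => intro u hu; rw [neg_mul]; exact neg_mem (hp u hu)
    | mul p q _ _ hp hq => intro u hu; rw [mul_assoc]; exact hp _ (hq u hu)
  simpa using key 1 h1

theorem closure_wd {U M : Type*} [Ring U] [AddCommGroup M] {p q : U} (f : U →+ M)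
    (h : ∀ v, f (wd p q v) = 0) {s : U} (hs : s ∈ Subring.closure {p, q}) : f s = 0 := by
  let H : AddSubgroup U := ⨅ v : List Bool, (f.comp (AddMonoidHom.mulLeft (wd p q v))).ker
  have hH : ∀ u, u ∈ H ↔ ∀ v, f (wd p q v * u) = 0 := fun u => by simp [H, AddSubgroup.mem_iInf]
  have := closure_left H ((hH 1).2 (by simpa using h)) (fun g hg u hu => (hH _).2 fun v => by
    rcases hg with rfl | rfl
    · simpa [wd_append, mul_assoc] using (hH u).1 hu (v ++ [false])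
    · simpa [wd_append, mul_assoc] using (hH u).1 hu (v ++ [true])) hs
  simpa using (hH s).1 this []

section univ
variable {U : Type} [Ring U]

structure Univ (T : Br U) : Prop where
  ind : ∀ S : AddSubgroup U, (1 : U) ∈ S → (∀ u ∈ S, T.a0 * u ∈ S ∧ T.a1 * u ∈ S ∧ T.c * u ∈ S ∧
    T.b0 * u ∈ S ∧ T.b1 * u ∈ S) → ∀ u, u ∈ S
  lift : ∀ (B : Type) [Ring B] (T' : Br B), ∃ f : U →+* B, f T.a0 = T'.a0 ∧ f T.a1 = T'.a1 ∧
    f T.c = T'.c ∧ f T.b0 = T'.b0 ∧ f T.b1 = T'.b1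

theorem Univ.swap {T : Br U} (h : Univ T) : Univ T.swap where
  ind S h1 hS := h.ind S h1 fun u hu =>
    ⟨(hS u hu).2.2.2.1, (hS u hu).2.2.2.2, (hS u hu).2.2.1, (hS u hu).1, (hS u hu).2.1⟩
  lift B _ T' := by
    obtain ⟨f, h1, h2, h3, h4, h5⟩ := h.lift B T'.swap
    exact ⟨f, h4, h5, h3, h1, h2⟩

def Fox (T : Br U) : Prop :=
  ∀ g0 g1 gc : U →+ ℤ, ∃ f : U →+ ℤ, (∀ u, f (T.b0 * u) = g0 u) ∧ (∀ u, f (T.b1 * u) = g1 u) ∧
    (∀ u, f (T.c * u) = gc u) ∧ ∀ s ∈ Subring.closure {T.a0 + T.c, T.a1}, f s = 0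

def Uni (T : Br U) : Prop :=
  ∀ (s0 s1 : U) (f : U →+ ℤ), s0 - T.a0 ∈ AddSubgroup.closure {T.b0, T.b1, T.c} →
    s1 - T.a1 ∈ AddSubgroup.closure {T.b0, T.b1, T.c} → (∀ u, f (T.b0 * u) = 0) →
    (∀ u, f (T.b1 * u) = 0) → (∀ u, f (T.c * u) = 0) →
    (∀ s ∈ Subring.closure {s0, s1}, f s = 0) → ∀ u, f u = 0

/-- the two families of functionals (`fl = false` diamond, `fl = true` flat) -/
structure Fam (T : Br U) (fl : Bool) (D : U →+* U) (φ : List Bool → U →+ ℤ) : Prop where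
  Da0 : D T.a0 = 0
  Da1 : D T.a1 = 0
  Dc : D T.c = 0
  Db0 : D T.b0 = T.a0 + T.b0
  Db1 : D T.b1 = T.a1 + T.b1
  Dmem : ∀ u, D u ∈ Subring.closure {T.a0 + T.b0, T.a1 + T.b1}
  nil1 : φ [] 1 = 1
  nil : ∀ u, φ [] (T.a0 * u) = 0 ∧ φ [] (T.a1 * u) = 0 ∧ φ [] (T.c * u) = 0 ∧
    φ [] (T.b0 * u) = 0 ∧ φ [] (T.b1 * u) = 0
  nil' : ∀ u, φ [] (u * T.a0) = 0 ∧ φ [] (u * T.b0) = 0 ∧ φ [] (u * T.c) = 0
  ec : ∀ s w u, φ (s :: w) (T.c * u) = if yh w then φ w u - φ w (D u) else φ w (D u) - φ w u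
  ya0 : ∀ w u, φ (true :: w) (T.a0 * u) = if yh w && fl then -φ w u else 0
  ya1 : ∀ w u, φ (true :: w) (T.a1 * u) = if yh w then 0 else φ w u
  ysec : ∀ w, ∀ s ∈ Subring.closure {T.b0 + T.c, T.b1}, φ (true :: w) s = 0
  xb0 : ∀ w u, φ (false :: w) (T.b0 * u) = if yh w then 0 else φ w u
  xb1 : ∀ w u, φ (false :: w) (T.b1 * u) = if yh w then φ w (D u) - φ w u else -φ w (D u)
  xsec : ∀ w, ∀ s ∈ Subring.closure {T.a0 + T.c, T.a1}, φ (false :: w) s = 0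

def Van {M : Type} [AddCommGroup M] (T : Br U) (p : U →+ M) : Prop :=
  ∀ u, p (u * T.a0) = 0 ∧ p (u * T.b0) = 0 ∧ p (u * T.c) = 0

/-- `(rt t p) u = p (t * u)` -/
def rt {M : Type} [AddCommGroup M] (t : U) : (U →+ M) →+ U →+ M :=
  AddMonoidHom.compHom' (AddMonoidHom.mulLeft t)

@[simp] theorem rt_apply {M : Type} [AddCommGroup M] (t : U) (p : U →+ M) (u : U) :
    rt t p u = p (t * u) := rfl

theorem Van.rt {M : Type} [AddCommGroup M] {T : Br U} {p : U →+ M} (h : Van T p) (t : U) :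
    Van T (rt t p) := fun u => by simpa only [rt_apply, ← mul_assoc] using h (t * u)

def psi (D : U →+* U) (φ : List Bool → U →+ ℤ) (w : List Bool) : U →+ ℤ :=
  if yh w then φ w - (φ w).comp D.toAddMonoidHom else φ w

def kap (T : Br U) (D : U →+* U) (φ : List Bool → U →+ ℤ) (w u v : List Bool) : ℤ :=
  psi D φ w (wd T.c T.a1 u * wd (T.a0 + T.b0) (T.a1 + T.b1) v)

/-- the realisation by power series in `a, b` -/
def rho (T : Br U) : ℕ → (U →+ ℚ) →+ P2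
  | 0 => 0
  | k + 1 => (if k = 0 then cst.toAddMonoidHom.comp (AddMonoidHom.eval 1) else 0) +
      (dg fun m n => ((m : ℚ) + n)⁻¹).comp ((rho T k).comp (rt (T.a0 + T.b0 + T.c)) -
        (AddMonoidHom.mulLeft al).comp ((rho T k).comp (rt T.a1)) -
        (AddMonoidHom.mulLeft be).comp ((rho T k).comp (rt T.b1)))

@[simp] theorem rho_zero (T : Br U) (p : U →+ ℚ) : rho T 0 p = 0 := rfl

theorem cf_rho (T : Br U) (k m n : ℕ) (p : U →+ ℚ) : cf m n (rho T (k + 1) p) =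
    (if k = 0 ∧ m + n = 0 then p 1 else 0) + ((m : ℚ) + n)⁻¹ *
      cf m n (rho T k (rt (T.a0 + T.b0 + T.c) p) - al * rho T k (rt T.a1 p) -
        be * rho T k (rt T.b1 p)) := by
  rw [rho, AddMonoidHom.add_apply, map_add, AddMonoidHom.comp_apply, cf_dg]
  by_cases hk : k = 0
  · simp [hk, cf_cst]
  · simp [hk]

end univ

structure Kap (κ : List Bool → List Bool → List Bool → ℤ) : Prop where
  f1 : ∀ s w v, OK (s :: w) → κ (s :: w) [false] v = 0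
  f2 : ∀ s w t u v, OK (s :: w) →
    κ (s :: w) (false :: t :: u) v = if yh w then κ w (t :: u) v else -κ w (t :: u) v
  t1 : ∀ s w u v, OK (s :: w) → κ (s :: w) (true :: u) v = if yh w then 0 else κ w u v

def Pent {R : Type v} [CommRing R] (Φ : List Bool → R) : Prop :=
  ∀ (B : Type v) [Ring B] [Algebra R B] (T : Br B),
    ser Φ T.b0 (T.c + T.b1) * ser Φ (T.a0 + T.c) T.a1 =
      ser Φ T.c T.a1 * ser Φ (T.a0 + T.b0) (T.a1 + T.b1) * ser Φ T.b0 T.c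

def Shift {R : Type v} [CommRing R] (Φ : List Bool → R) : Prop :=
  ∀ (B : Type v) [Ring B] [Algebra R B] (p q : B),
    ser Φ (p + 1) q = ser Φ p q ∧ ser Φ p (q + 1) = ser Φ p q

/-- chain sums -/
def Q (fl : Bool) (N : ℕ) : List Bool → ℕ → ℚ
  | [], _ => 1
  | false :: w, n => ∑ j ∈ range n, Q fl N w (j + 1) / ((j : ℚ) + 1)
  | true :: w, n => ∑ j ∈ range n, Q fl N w (if yh w && !fl then j + 1 else j) / ((N : ℚ) - (j + 1))

/-- Taylor coefficients of multiple polylogarithms -/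
def ell : List Bool → ℕ → ℚ
  | [], N => if N = 0 then 1 else 0
  | false :: u, N => ell u N / N
  | true :: u, N => -(∑ M ∈ range N, ell u M) / N

def HH (u : List Bool) (N : ℕ) : ℚ := ∑ M ∈ range N, ell u M

section nil
variable {B : Type} [Ring B] [Algebra ℚ B]

structure Nil (k : ℕ) (I : ℕ → Submodule ℚ B) : Prop where
  one : (1 : B) ∈ I 0
  mul : ∀ {i j : ℕ} {p q : B}, p ∈ I i → q ∈ I j → p * q ∈ I (i + j)
  anti : ∀ {i j : ℕ} {p : B}, i ≤ j → p ∈ I j → p ∈ I i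
  bot : ∀ {p : B}, p ∈ I (k + 1) → p = 0

def Ev (k : ℕ) (x y : B) (φ : List Bool → ℚ) : B :=
  ∑ i ∈ range (k + 1), ∑ u ∈ W i, φ u • wd x y u

variable {k : ℕ} {I : ℕ → Submodule ℚ B}

theorem Nil.wd (h : Nil k I) {x y : B} (hx : x ∈ I 1) (hy : y ∈ I 1) (u : List Bool) :
    wd x y u ∈ I u.length := by
  induction u with
  | nil => exact h.one
  | cons s u ih =>
    rw [List.length_cons, add_comm]
    cases s
    · exact wd_false x y u ▸ h.mul hx ih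
    · exact wd_true x y u ▸ h.mul hy ih

theorem Nil.pow (h : Nil k I) {x : B} (hx : x ∈ I 1) (n : ℕ) : x ^ n ∈ I n := by
  induction n with
  | zero => exact pow_zero x ▸ h.one
  | succ n ih => exact pow_succ x n ▸ h.mul ih hx

theorem Nil.unit (h : Nil k I) {x : B} (hx : x ∈ I 1) : IsUnit (1 - x) :=
  IsNilpotent.isUnit_one_sub ⟨k + 1, h.bot (h.pow hx _)⟩

theorem Nil.ev (h : Nil k I) {x y : B} (hx : x ∈ I 1) (hy : y ∈ I 1) (φ : List Bool → ℚ) :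
    Ev k x y φ = φ [] • (1 : B) + x * Ev k x y (fun u => φ (false :: u)) +
      y * Ev k x y (fun u => φ (true :: u)) := by
  have h0 : ∀ z ∈ I 1, ∀ ψ : List Bool → ℚ, z * Ev k x y ψ =
      ∑ i ∈ range k, ∑ u ∈ W i, ψ u • (z * DR.wd x y u) := fun z hz ψ => by
    rw [Ev, sum_range_succ, mul_add, mul_sum, mul_sum, sum_eq_zero (s := W k), add_zero]
    · simp only [mul_sum, mul_smul_comm]
    · intro u hu
      have := h.mul hz (h.wd hx hy u)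
      rw [mem_W.1 hu, add_comm] at this
      rw [mul_smul_comm, h.bot this, smul_zero]
  rw [h0 x hx, h0 y hy, Ev, sum_range_succ', W_zero, sum_singleton, wd_nil, add_assoc,
    ← sum_add_distrib, add_comm]
  simp only [sum_W_succ, wd_false, wd_true]

theorem Ev_add (x y : B) (φ ψ : List Bool → ℚ) :
    Ev k x y (fun u => φ u + ψ u) = Ev k x y φ + Ev k x y ψ := by
  simp only [Ev, add_smul, sum_add_distrib]

theorem Ev_mul (x y : B) (c : ℚ) (φ : List Bool → ℚ) :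
    Ev k x y (fun u => c * φ u) = c • Ev k x y φ := by
  simp only [Ev, mul_smul, smul_sum]

end nil

def St_UNIV : Prop := ∃ (U : Type) (_ : Ring U) (T : Br U), Univ T

def St_FOX : Prop := ∀ (U : Type) [Ring U] (T : Br U), Univ T → Fox T

def St_UNI : Prop := ∀ (U : Type) [Ring U] (T : Br U), Univ T → Uni T

def St_FAM : Prop := ∀ (U : Type) [Ring U] (T : Br U), Univ T → Fox T → Fox T.swap →
  ∀ fl, ∃ D φ, Fam T fl D φ

def St_VAN : Prop := ∀ (U : Type) [Ring U] (T : Br U) (fl : Bool) (D : U →+* U)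
  (φ : List Bool → U →+ ℤ), Uni T → Uni T.swap → Fam T fl D φ → ∀ w, OK w → Van T (φ w)

def St_AB : Prop := ∀ (U : Type) [Ring U] (T : Br U) (fl : Bool) (D : U →+* U)
  (φ : List Bool → U →+ ℤ), Fam T fl D φ → ∀ w, OK (false :: w) → ∀ u v,
    φ (false :: w) (wd T.b0 (T.c + T.b1) u * wd (T.a0 + T.c) T.a1 v) = 0

def St_ETA : Prop := ∀ (U : Type) [Ring U] (T : Br U) (fl : Bool) (D : U →+* U)
  (φ : List Bool → U →+ ℤ), Fam T fl D φ → (∀ w, OK w → Van T (φ w)) →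
  (∀ w, Adm w → ∀ v, φ w (wd (T.a0 + T.b0) (T.a1 + T.b1) (true :: v)) = 0) → Kap (kap T D φ)

def St_LIFT : Prop := ∀ (R : Type v) [CommRing R] (Φ : List Bool → R), Pentagon Φ → Pent Φ

def St_TENS : Prop := ∀ (R : Type v) [CommRing R] (Φ : List Bool → R), Pent Φ → Φ [] = 1 →
  ∀ (U : Type) [Ring U] (T : Br U) (f : U →+ ℤ), Van T f →
  (∀ u v, f (wd T.b0 (T.c + T.b1) u * wd (T.a0 + T.c) T.a1 v) = 0) → ∀ n : ℕ,
  ∑ x ∈ antidiagonal n, ∑ u ∈ W x.1, ∑ v ∈ W x.2,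
    f (wd T.c T.a1 u * wd (T.a0 + T.b0) (T.a1 + T.b1) v) • (Φ u * Φ v) = 0

def St_CONV : Prop := ∀ (R : Type v) [CommRing R] (Φ : List Bool → R)
  (κ : List Bool → List Bool → List Bool → ℤ), Φ [] = 1 → Kap κ → κ [] [] [] = 0 →
  (∀ w, OK (false :: w) → ∑ x ∈ antidiagonal (w.length + 1), ∑ u ∈ W x.1, ∑ v ∈ W x.2,
    κ (false :: w) u v • (Φ u * Φ v) = 0) →
  ∀ w, OK (false :: w) → ∑ v ∈ W (w.length + 1), κ (false :: w) [] v • Φ v = 0

def St_SH1 : Prop := ∀ (R : Type v) [CommRing R] (Φ : List Bool → R), Pent Φ → Φ [] = 1 → Shift Φ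

def St_SH2 : Prop := ∀ (R : Type v) [CommRing R] (Φ : List Bool → R), Shift Φ →
  ∀ w, Φ w ∈ Submodule.span ℤ (Φ '' {u | Adm u ∧ u.length = w.length})

def St_FLAT : Prop := ∀ (U : Type) [Ring U] (T : Br U) (p : U →+ ℚ), Van T p → ∀ k : ℕ,
  (va - vb) * (thB (rho T (k + 1) p) - rho T k (rt T.b0 p) + be * rho T k (rt T.b1 p)) +
    vb * rho T k (rt T.c p) = 0 ∧
  (va - vb) * (thA (rho T (k + 1) p) - rho T k (rt T.a0 p) + al * rho T k (rt T.a1 p)) -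
    va * rho T k (rt T.c p) = 0

def St_BND : Prop := ∀ (U : Type) [Ring U] (T : Br U) (p : U →+ ℚ), Van T p →
  (∀ s ∈ Subring.closure {T.a0 + T.c, T.a1}, p s = 0) → ∀ k m : ℕ, cf m 0 (rho T k p) = 0

def St_DIAG : Prop := ∀ (U : Type) [Ring U] (T : Br U) (p : U →+ ℚ), Van T p → ∀ k N : ℕ,
  ∑ x ∈ antidiagonal N, cf x.1 x.2 (rho T (k + 1) p) =
    ∑ u ∈ W k, p (wd (T.a0 + T.b0) (T.a1 + T.b1) u) * ell u N

def St_ARR : Prop := ∀ (fl : Bool) (F : ℕ → List Bool → P2), F 0 [] = al →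
  (∀ k, F (k + 1) [] = 0) → (∀ s w, F 0 (s :: w) = 0) →
  (∀ k s w, OK (s :: w) → ∀ m, cf m 0 (F k (s :: w)) = 0) →
  (∀ k w, OK (false :: w) → ∃ G : P2, (∀ m n, cf (m + 1) n G = 0) ∧
    (va - vb) * thB (F (k + 1) (false :: w)) = va * F k w - va * G) →
  (∀ k w, OK (true :: w) → ∃ G : P2, (∀ m n, cf (m + 1) n G = 0) ∧
    (va - vb) * thA (F (k + 1) (true :: w)) = (if yh w && !fl then va else vb) * F k w - va * G) →
  ∀ w, OK w → ∀ k N n : ℕ, n < N →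
    ∑ j ∈ range (n + 1), cf (N - j) j (F k w) = if k = w.length then Q fl N w n else 0

def St_CHAIN : Prop := ∀ (U : Type) [Ring U] (T : Br U) (fl : Bool) (D : U →+* U)
  (φ : List Bool → U →+ ℤ), Fam T fl D φ → (∀ w, OK w → Van T (φ w)) →
  ∀ w, OK (false :: w) → ∀ k N : ℕ, 1 ≤ N →
    ∑ u ∈ W k, (φ (false :: w) (wd (T.a0 + T.b0) (T.a1 + T.b1) u) : ℚ) * HH u N =
      if k = w.length + 1 then Q fl N (false :: w) (N - 1) else 0

def St_MAT : Prop := ∀ w : List Bool, ∃ (B : Type) (_ : Ring B) (_ : Algebra ℚ B)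
  (I : ℕ → Submodule ℚ B) (x y : B) (ℓ : B →ₗ[ℚ] ℚ), Nil w.length I ∧ x ∈ I 1 ∧ y ∈ I 1 ∧
  (∀ u, ℓ (wd x y u) = if u = w then 1 else 0) ∧ (yh w = false → ∀ g, ℓ (y * g) = 0) ∧
  (OK w → ∀ g, ℓ (g * x) = 0)

def St_QQ : Prop := ∀ (B : Type) [Ring B] [Algebra ℚ B] (k : ℕ) (I : ℕ → Submodule ℚ B) (x y : B),
  Nil k I → x ∈ I 1 → y ∈ I 1 → ∃ x' y' gx gy : B, x' ∈ I 1 ∧ y' ∈ I 1 ∧ gx * (1 - x) = 1 ∧
    (1 - y) * gy = 1 ∧
    (∀ t : ℚ, ((1 - t) • (1 : B) - y') * (t • (1 : B) - x') =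
      (t • (1 : B) - x) * ((1 - t) • (1 : B) - y)) ∧
    (∀ u, ∃ g, gx * wd x' y' (u ++ [false]) * gy = g * x) ∧
    (∀ u, ∃ g, gx * wd x' y' (true :: u) * gy = y * g) ∧
    ∀ u, gx * wd x' y' u * gy - (wd x y u + y * wd x y u + wd x y u * x) ∈ I (u.length + 2)

def St_PROD : Prop := ∀ (B : Type) [Ring B] [Algebra ℚ B] (k : ℕ) (I : ℕ → Submodule ℚ B)
  (x y x' y' : B), Nil k I → x ∈ I 1 → y ∈ I 1 → x' ∈ I 1 → y' ∈ I 1 →
  (∀ t : ℚ, ((1 - t) • (1 : B) - y') * (t • (1 : B) - x') =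
      (t • (1 : B) - x) * ((1 - t) • (1 : B) - y)) → ∀ N : ℕ, 1 ≤ N →
  (1 - x) * Ev k x y (fun u => (N : ℚ) ^ u.length * Q false (N + 1) u N) * (1 - y) =
    Ev k x' y' (fun u => (N : ℚ) ^ u.length * Q false N u (N - 1))

def St_REC : Prop := ∀ w, Adm w → ∃ c : List Bool → ℚ,
  (∀ u, c u ≠ 0 → Adm u ∧ u.length + 2 ≤ w.length) ∧ ∀ N : ℕ, 1 ≤ N →
    Q false (N + 1) w N - Q false N w (N - 1) = ∑ i ∈ range (w.length + 1), ∑ u ∈ W i,
      c u * Q false N u (N - 1) / (N : ℚ) ^ (w.length - i)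

def St_SPAN : Prop := ∀ w, Adm w → ∃ e : List Bool → ℚ, (∀ u, e u ≠ 0 → Good u) ∧
  ∀ N : ℕ, 1 ≤ N → Q false N w (N - 1) = ∑ u ∈ W w.length, e u * HH u N

def St_MSW : Prop := ∀ w, OK w → ∀ N : ℕ, 1 ≤ N →
  Q true N w (N - 1) = (-1) ^ w.count true * HH w N

def St_INJ : Prop := ∀ (k : ℕ) (d : List Bool → ℚ),
  (∀ N : ℕ, 1 ≤ N → ∑ u ∈ W k, d u * HH u N = 0) → ∀ u ∈ W k, OK u → d u = 0

def St_COUNT : Prop := ∀ n : ℕ, ∃ G : Finset (List ℕ),
  (∀ k, k ∈ G ↔ (∀ j ∈ k, 2 ≤ j) ∧ k.sum = n + 1) ∧ G.card = Nat.fib n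

def T_CHAIN : Prop := St_FLAT → St_BND → St_DIAG → St_ARR → St_CHAIN

def T_REC : Prop := St_MAT → St_QQ → St_PROD → St_REC

def T_SPAN : Prop := St_REC → St_SPAN

def T_MSW : Prop := St_MAT → St_MSW

theorem rlz : True := by
  have := @Q.eq_def
  have := @ell.eq_def
  trivial

end Pool.Agent.DR
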