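import Pool.Agent.Lib.DR.Defs
import Mathlib.RingTheory.PowerSeries.WellKnown
import Mathlib.RingTheory.PowerSeries.Inverse
import Mathlib.RingTheory.PowerSeries.NoZeroDivisors
import Mathlib.Data.Vector.Basic
import Mathlib.Tactic

set_option autoImplicit false

noncomputable section

namespace Pool.Agent.DR

open Finset

/-- all words of length `n` -/
def W (n : ℕ) : Finset (List Bool) :=
  (univ : Finset (List.Vector Bool n)).map ⟨List.Vector.toList, List.Vector.toList_injective⟩

theorem mem_W {n : ℕ} {u : List Bool} : u ∈ W n ↔ u.length = n := by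
  simp only [W, mem_map, mem_univ, true_and, Function.Embedding.coeFn_mk]
  exact ⟨fun ⟨v, h⟩ => h ▸ v.toList_length, fun h => ⟨⟨u, h⟩, rfl⟩⟩

theorem W_zero : W 0 = {[]} := by
  ext u
  simp [mem_W]

theorem sum_W_succ {M : Type*} [AddCommMonoid M] (n : ℕ) (F : List Bool → M) :
    ∑ u ∈ W (n + 1), F u = ∑ u ∈ W n, F (false :: u) + ∑ u ∈ W n, F (true :: u) := by
  have h : W (n + 1) = ((W n).map ⟨List.cons false, List.cons_injective⟩).disjUnion
      ((W n).map ⟨List.cons true, List.cons_injective⟩) (by simp [disjoint_left]) := by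
    ext u
    rcases u with _ | ⟨_ | _, u⟩ <;> simp [mem_W]
  rw [h, sum_disjUnion, sum_map, sum_map]
  rfl

theorem sum_W_rev {M : Type*} [AddCommMonoid M] (n : ℕ) (F : List Bool → M) :
    ∑ u ∈ W n, F u.reverse = ∑ u ∈ W n, F u :=
  sum_nbij' List.reverse List.reverse (by simp [mem_W]) (by simp [mem_W]) (by simp) (by simp)
    (by simp)

section wd
variable {B : Type*} [Monoid B] (p q : B)

@[simp] theorem wd_nil : wd p q [] = 1 := rfl
@[simp] theorem wd_false (u : List Bool) : wd p q (false :: u) = p * wd p q u := by simp [wd]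
@[simp] theorem wd_true (u : List Bool) : wd p q (true :: u) = q * wd p q u := by simp [wd]
theorem wd_append (u v : List Bool) : wd p q (u ++ v) = wd p q u * wd p q v := by simp [wd]

theorem map_wd {B' F : Type*} [Monoid B'] [FunLike F B B'] [MonoidHomClass F B B'] (f : F)
    (u : List Bool) : f (wd p q u) = wd (f p) (f q) u := by
  induction u with
  | nil => simp
  | cons s u ih => cases s <;> simp [ih]

theorem wd_mem {S : Type*} [SetLike S B] [SubmonoidClass S B] {H : S} {p q : B} (hp : p ∈ H)
    (hq : q ∈ H) (u : List Bool) : wd p q u ∈ H := by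
  induction u with
  | nil => exact one_mem H
  | cons s u ih => cases s <;> simp [mul_mem, *]

end wd

theorem coeff_ser {R B : Type*} [CommRing R] [Ring B] [Algebra R B] (Φ : List Bool → R) (p q : B)
    (n : ℕ) : PowerSeries.coeff n (ser Φ p q) = ∑ u ∈ W n, Φ u • wd p q u := by
  rw [ser, PowerSeries.coeff_mk, W, sum_map]
  rfl

/-- the word starts with `Y` -/
def yh : List Bool → Bool
  | true :: _ => true
  | _ => false

@[simp] theorem yh_nil : yh [] = false := rfl
@[simp] theorem yh_cons (s : Bool) (u : List Bool) : yh (s :: u) = s := by cases s <;> rfl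

/-- the word is empty or ends with `Y` -/
def OK (w : List Bool) : Prop := w.getLast? ≠ some false

@[simp] theorem OK_nil : OK [] := by simp [OK]
@[simp] theorem OK_one (s : Bool) : OK [s] ↔ s = true := by simp [OK]
@[simp] theorem OK_cons (s t : Bool) (w : List Bool) : OK (s :: t :: w) ↔ OK (t :: w) := by
  simp [OK, List.getLast?_cons_cons]

theorem OK.tail {s : Bool} {w : List Bool} (h : OK (s :: w)) : OK w := by
  cases w with
  | nil => simp
  | cons t w => simpa using h

theorem not_OK {w : List Bool} (h : ¬ OK w) : ∃ v, w = v ++ [false] := by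
  simpa [OK, List.getLast?_eq_some_iff] using h

/-- admissible: empty, or `X ⋯ Y` -/
def Adm (w : List Bool) : Prop := OK w ∧ yh w = false

/-- `X ^ (k₁ - 1) Y ⋯` with all `k_i ≥ 2` -/
def Good (u : List Bool) : Prop := ∃ k : List ℕ, (∀ j ∈ k, 2 ≤ j) ∧ u = idx k

/-! two variable power series: inner variable `a`, outer variable `b` -/

abbrev P2 := PowerSeries (PowerSeries ℚ)

/-- coefficient of `a ^ m * b ^ n` -/
def cf (m n : ℕ) : P2 →+ ℚ :=
  (PowerSeries.coeff m).toAddMonoidHom.comp (PowerSeries.coeff n).toAddMonoidHom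

theorem cf_def (m n : ℕ) (f : P2) : cf m n f = PowerSeries.coeff m (PowerSeries.coeff n f) := rfl

theorem ext2 {f g : P2} (h : ∀ m n, cf m n f = cf m n g) : f = g :=
  PowerSeries.ext fun n => PowerSeries.ext fun m => h m n

/-- multiply the coefficient of `a ^ m * b ^ n` by `g m n` -/
def dg (g : ℕ → ℕ → ℚ) : P2 →+ P2 :=
  AddMonoidHom.mk' (fun f => PowerSeries.mk fun n => PowerSeries.mk fun m => g m n * cf m n f)
    fun f f' => ext2 fun m n => by simp [cf_def, mul_add]

theorem cf_dg (g : ℕ → ℕ → ℚ) (m n : ℕ) (f : P2) : cf m n (dg g f) = g m n * cf m n f := by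
  simp [dg, cf_def]

def thA : P2 →+ P2 := dg fun m _ => m
def thB : P2 →+ P2 := dg fun _ n => n
def va : P2 := PowerSeries.C PowerSeries.X
def vb : P2 := PowerSeries.X
def al : P2 := va * PowerSeries.C (PowerSeries.mk 1)
def be : P2 := vb * PowerSeries.mk 1
def cst : ℚ →+* P2 := PowerSeries.C.comp PowerSeries.C

@[simp] theorem cf_thA (m n : ℕ) (f : P2) : cf m n (thA f) = m * cf m n f := cf_dg _ _ _ _
@[simp] theorem cf_thB (m n : ℕ) (f : P2) : cf m n (thB f) = n * cf m n f := cf_dg _ _ _ _
@[simp] theorem cf_va_zero (n : ℕ) (f : P2) : cf 0 n (va * f) = 0 := by simp [cf_def, va]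
@[simp] theorem cf_va_succ (m n : ℕ) (f : P2) : cf (m + 1) n (va * f) = cf m n f := by
  simp [cf_def, va, PowerSeries.coeff_succ_X_mul]
@[simp] theorem cf_vb_zero (m : ℕ) (f : P2) : cf m 0 (vb * f) = 0 := by simp [cf_def, vb]
@[simp] theorem cf_vb_succ (m n : ℕ) (f : P2) : cf m (n + 1) (vb * f) = cf m n f := by
  simp [cf_def, vb, PowerSeries.coeff_succ_X_mul]

theorem cf_cst (m n : ℕ) (r : ℚ) : cf m n (cst r) = if m + n = 0 then r else 0 := by
  rcases m with _ | m <;> rcases n with _ | n <;> simp [cf_def, cst, PowerSeries.coeff_C]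

theorem al_eq : (1 - va) * al = va := by
  have h := congrArg (PowerSeries.C (R := PowerSeries ℚ)) (PowerSeries.mk_one_mul_one_sub_eq_one ℚ)
  rw [map_mul, map_sub, map_one] at h
  rw [al, mul_left_comm, mul_comm (1 - va), va, h, mul_one]

theorem be_eq : (1 - vb) * be = vb := by
  rw [be, mul_left_comm, mul_comm (1 - vb), vb, PowerSeries.mk_one_mul_one_sub_eq_one, mul_one]

theorem cf_al (m n : ℕ) (f : P2) : cf m n (al * f) = ∑ j ∈ range m, cf j n f := by
  have h : al * f = va * (al * f + f) := by linear_combination f * al_eq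
  induction m with
  | zero => rw [h]; simp
  | succ m ih => rw [h, cf_va_succ, map_add, ih, sum_range_succ]

theorem cf_be (m n : ℕ) (f : P2) : cf m n (be * f) = ∑ j ∈ range n, cf m j f := by
  have h : be * f = vb * (be * f + f) := by linear_combination f * be_eq
  induction n with
  | zero => rw [h]; simp
  | succ n ih => rw [h, cf_vb_succ, map_add, ih, sum_range_succ]

theorem thB_al (f : P2) : thB (al * f) = al * thB f :=
  ext2 fun m n => by simp [cf_al, mul_sum]

theorem thA_be (f : P2) : thA (be * f) = be * thA f :=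
  ext2 fun m n => by simp [cf_be, mul_sum]

theorem thA_va (f : P2) : thA (va * f) = va * (thA f + f) :=
  ext2 fun m n => by rcases m with _ | m <;> simp [add_mul]

theorem thB_va (f : P2) : thB (va * f) = va * thB f :=
  ext2 fun m n => by rcases m with _ | m <;> simp

theorem thA_vb (f : P2) : thA (vb * f) = vb * thA f :=
  ext2 fun m n => by rcases n with _ | n <;> simp

theorem thB_vb (f : P2) : thB (vb * f) = vb * (thB f + f) :=
  ext2 fun m n => by rcases n with _ | n <;> simp [add_mul]

theorem thA_thB (f : P2) : thA (thB f) = thB (thA f) :=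
  ext2 fun m n => by simp [mul_left_comm]

theorem va_ne_vb : va - vb ≠ 0 := fun h => by
  have := congrArg (cf 1 0) ((mul_one (va - vb)).trans h)
  rw [sub_mul, map_sub, cf_va_succ, cf_vb_zero, ← map_one cst, cf_cst] at this
  simp at this

end Pool.Agent.DR
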