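import Pool.Agent.Lib.DR.Blue

set_option autoImplicit false

noncomputable section

namespace Pool.Agent.DR

open Finset

namespace CHAIN

theorem tri (f : ℕ → ℕ → ℚ) (N : ℕ) :
    ∑ M ∈ range N, ∑ x ∈ antidiagonal M, f x.1 x.2 =
      ∑ j ∈ range N, ∑ i ∈ range (N - j), f i j := by
  induction N with
  | zero => simp
  | succ N ih =>
    have h1 : ∑ x ∈ antidiagonal N, f x.1 x.2 = ∑ j ∈ range (N + 1), f (N - j) j := by
      rw [← Finset.Nat.sum_antidiagonal_swap]
      exact Finset.Nat.sum_antidiagonal_eq_sum_range_succ (fun i j => f j i) N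
    have h2 : ∑ j ∈ range (N + 1), ∑ i ∈ range (N + 1 - j), f i j =
        ∑ j ∈ range (N + 1), (∑ i ∈ range (N - j), f i j + f (N - j) j) :=
      sum_congr rfl fun j hj => by
        rw [show N + 1 - j = N - j + 1 by have := mem_range.1 hj; omega, sum_range_succ]
    rw [sum_range_succ, ih, h1, h2, sum_add_distrib, sum_range_succ (n := N)
      (f := fun j => ∑ i ∈ range (N - j), f i j)]
    simp

variable {U : Type} [Ring U]

theorem rho_one (T : Br U) (p : U →+ ℚ) : rho T 1 p = cst (p 1) :=
  ext2 fun m n => by
    have := cf_rho T 0 m n p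
    simp only [rho_zero, mul_zero, sub_zero, map_zero, add_zero, true_and, zero_add] at this
    rw [this, cf_cst]

/-- the rational functional attached to a word -/
def pq (φ : List Bool → U →+ ℤ) (w : List Bool) : U →+ ℚ := (Int.castAddHom ℚ).comp (φ w)

theorem pq_apply (φ : List Bool → U →+ ℤ) (w : List Bool) (u : U) : pq φ w u = (φ w u : ℚ) := rfl

/-- its composite with `D` -/
def pd (D : U →+* U) (φ : List Bool → U →+ ℤ) (w : List Bool) : U →+ ℚ :=
  (pq φ w).comp D.toAddMonoidHom

theorem pd_apply (D : U →+* U) (φ : List Bool → U →+ ℤ) (w : List Bool) (u : U) :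
    pd D φ w u = (φ w (D u) : ℚ) := rfl

theorem van_pq {T : Br U} {φ : List Bool → U →+ ℤ} {w : List Bool} (h : Van T (φ w)) :
    Van T (pq φ w) := fun u => by
  simp only [pq_apply, (h u).1, (h u).2.1, (h u).2.2, Int.cast_zero, and_self]

theorem van_pd {T : Br U} {fl : Bool} {D : U →+* U} {φ : List Bool → U →+ ℤ} (hF : Fam T fl D φ)
    {w : List Bool} (h : Van T (φ w)) : Van T (pd D φ w) := fun u => by
  simp only [pd_apply, map_mul, hF.Da0, hF.Dc, hF.Db0, mul_zero, map_zero, mul_add, map_add,
    (h _).1, (h _).2.1, Int.cast_zero, add_zero, and_self]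

theorem free (hFL : St_FLAT) {T : Br U} {fl : Bool} {D : U →+* U} {φ : List Bool → U →+ ℤ}
    (hF : Fam T fl D φ) {w : List Bool} (h : Van T (φ w)) (k m n : ℕ) :
    cf (m + 1) n (be * rho T (k + 1) (pd D φ w)) = 0 := by
  have h0 : ∀ t, D t = 0 → rt t (pd D φ w) = 0 := fun t ht => by
    ext u
    simp [pd_apply, ht]
  have h1 := (hFL U T _ (van_pd hF h) k).2
  rw [h0 _ hF.Da0, h0 _ hF.Da1, h0 _ hF.Dc, map_zero, mul_zero, mul_zero, sub_zero, sub_zero,
    add_zero] at h1
  have h2 := (mul_eq_zero.1 h1).resolve_left va_ne_vb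
  rw [cf_be]
  refine sum_eq_zero fun j _ => ?_
  have h3 := congrArg (cf (m + 1) j) h2
  rw [cf_thA, map_zero] at h3
  exact (mul_eq_zero.1 h3).resolve_left (by positivity)

theorem id1 : al * ((va - vb) * be - vb) = -(va * be) := by
  linear_combination (-be) * al_eq + al * be_eq

theorem id2 : be * ((va - vb) * al + va) = vb * al := by
  linear_combination (-be) * al_eq + al * be_eq

end CHAIN

open CHAIN in
theorem t_CHAIN : T_CHAIN := by
  intro hFL hB hD hA U _ T fl D φ hF hV w hw k N hN
  have hc : ∀ s v, rt T.c (pq φ (s :: v)) =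
      if yh v then pq φ v - pd D φ v else pd D φ v - pq φ v := fun s v => by
    ext u
    rw [rt_apply, pq_apply, hF.ec]
    split_ifs <;> simp [pq_apply, pd_apply]
  have hb0 : ∀ v, rt T.b0 (pq φ (false :: v)) = if yh v then 0 else pq φ v := fun v => by
    ext u
    rw [rt_apply, pq_apply, hF.xb0]
    split_ifs <;> simp [pq_apply]
  have hb1 : ∀ v, rt T.b1 (pq φ (false :: v)) =
      if yh v then pd D φ v - pq φ v else -pd D φ v := fun v => by
    ext u
    rw [rt_apply, pq_apply, hF.xb1]
    split_ifs <;> simp [pq_apply, pd_apply]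
  have ha0 : ∀ v, rt T.a0 (pq φ (true :: v)) = if yh v && fl then -pq φ v else 0 := fun v => by
    ext u
    rw [rt_apply, pq_apply, hF.ya0]
    split_ifs <;> simp [pq_apply]
  have ha1 : ∀ v, rt T.a1 (pq φ (true :: v)) = if yh v then 0 else pq φ v := fun v => by
    ext u
    rw [rt_apply, pq_apply, hF.ya1]
    split_ifs <;> simp [pq_apply]
  have key := hA fl (fun k w => if yh w then -(be * rho T (k + 1) (pq φ w))
      else al * rho T (k + 1) (pq φ w))
    (by simp [rho_one, pq_apply, hF.nil1])
    (fun k => by
      have h0 : rho T (k + 1 + 1) (pq φ []) = 0 := ext2 fun m n => by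
        have e1 : rt (T.a0 + T.b0 + T.c) (pq φ []) = 0 := by
          ext u
          simp [pq_apply, add_mul, (hF.nil u).1, (hF.nil u).2.2.1, (hF.nil u).2.2.2.1]
        have e2 : rt T.a1 (pq φ []) = 0 := by
          ext u
          simp [pq_apply, (hF.nil u).2.1]
        have e3 : rt T.b1 (pq φ []) = 0 := by
          ext u
          simp [pq_apply, (hF.nil u).2.2.2.2]
        rw [cf_rho, e1, e2, e3]
        simp
      simp [h0])
    (fun s v => by
      cases s
      · simp [rho_one, pq_apply, hF.xsec v 1 (one_mem _)]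
      · simp [rho_one, pq_apply, hF.ysec v 1 (one_mem _)])
    (fun k s v hv m => by
      cases s
      · simp only [yh_cons, Bool.false_eq_true, if_false, cf_al]
        exact sum_eq_zero fun j _ => hB U T _ (van_pq (hV _ hv))
          (fun s hs => by rw [pq_apply, hF.xsec v s hs, Int.cast_zero]) _ _
      · simp [cf_be])
    (fun k v hv => by
      have h1 := (hFL U T _ (van_pq (hV _ hv)) (k + 1)).1
      have h2 := free hFL hF (hV _ hv.tail) k
      rw [hc, hb0, hb1] at h1
      simp only [yh_cons, Bool.false_eq_true, if_false, thB_al]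
      by_cases hy : yh v = true
      · simp only [hy, if_true, map_sub, map_zero] at h1 ⊢
        refine ⟨-(be * rho T (k + 1) (pd D φ v)), fun m n => by rw [map_neg, h2, neg_zero], ?_⟩
        linear_combination al * h1 +
          (rho T (k + 1) (pq φ v) - rho T (k + 1) (pd D φ v)) * id1
      · simp only [hy, Bool.false_eq_true, if_false, map_sub, map_neg] at h1 ⊢
        refine ⟨be * rho T (k + 1) (pd D φ v), h2, ?_⟩
        linear_combination al * h1 + rho T (k + 1) (pd D φ v) * id1)
    (fun k v hv => by
      have h1 := (hFL U T _ (van_pq (hV _ hv)) (k + 1)).2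
      have h2 := free hFL hF (hV _ hv.tail) k
      rw [hc, ha0, ha1] at h1
      simp only [yh_cons, if_true, map_neg, thA_be]
      by_cases hy : yh v = true
      · refine ⟨-(be * rho T (k + 1) (pd D φ v)), fun m n => by rw [map_neg, h2, neg_zero], ?_⟩
        cases fl
        · simp only [hy, if_true, map_sub, map_zero, Bool.and_false, Bool.false_eq_true, if_false,
            Bool.not_false, Bool.and_self] at h1 ⊢
          linear_combination (-be) * h1
        · simp only [hy, if_true, map_sub, map_zero, map_neg, Bool.and_false, Bool.false_eq_true,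
            if_false, Bool.not_true, Bool.and_self] at h1 ⊢
          linear_combination (-be) * h1
      · simp only [hy, Bool.false_eq_true, if_false, map_sub, map_zero, Bool.false_and] at h1 ⊢
        refine ⟨be * rho T (k + 1) (pd D φ v), h2, ?_⟩
        linear_combination (-be) * h1 + rho T (k + 1) (pq φ v) * id2)
    (false :: w) hw k N (N - 1) (by omega)
  rw [show N - 1 + 1 = N by omega, List.length_cons] at key
  rw [← key]
  simp only [yh_cons, Bool.false_eq_true, if_false, cf_al]
  rw [← tri (fun i j => cf i j (rho T (k + 1) (pq φ (false :: w)))) N]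
  simp only [hD U T _ (van_pq (hV _ hw)), HH, mul_sum, pq_apply]
  exact sum_comm

end Pool.Agent.DR
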