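import Pool.Agent.Lib.DR.Blue

set_option autoImplicit false

namespace Pool.Agent.DR

/-- Add one to the first entry of a list. -/
def bump : List ℕ → List ℕ
  | [] => []
  | a :: t => (a + 1) :: t

theorem bump_injective : Function.Injective bump := by
  intro k l h
  rcases k with _ | ⟨a, t⟩ <;> rcases l with _ | ⟨b, s⟩
  · rfl
  · simp [bump] at h
  · simp [bump] at h
  · simp only [bump, List.cons.injEq, add_left_inj] at h
    rw [h.1, h.2]

theorem st_COUNT : St_COUNT := by
  classical
  intro n
  induction n using Nat.twoStepInduction with
  | zero =>
    refine ⟨∅, fun k => ?_, by simp⟩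
    simp only [Finset.notMem_empty, false_iff, not_and]
    intro h hs
    rcases k with _ | ⟨a, t⟩
    · simp at hs
    · have := h a (by simp)
      simp only [List.sum_cons] at hs
      omega
  | one =>
    refine ⟨{[2]}, fun k => ?_, by simp⟩
    simp only [Finset.mem_singleton]
    constructor
    · rintro rfl
      simp
    · rintro ⟨h, hs⟩
      rcases k with _ | ⟨a, _ | ⟨b, t⟩⟩
      · simp at hs
      · simp only [List.sum_cons, List.sum_nil] at hs
        have : a = 2 := by omega
        rw [this]
      · have h1 := h a (by simp)
        have h2 := h b (by simp)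
        simp only [List.sum_cons] at hs
        omega
  | more n ih1 ih2 =>
    obtain ⟨G1, hG1, hc1⟩ := ih1
    obtain ⟨G2, hG2, hc2⟩ := ih2
    have hdisj : Disjoint (G1.map ⟨fun t => 2 :: t, List.cons_injective⟩)
        (G2.map ⟨bump, bump_injective⟩) := by
      rw [Finset.disjoint_left]
      intro k hk1 hk2
      obtain ⟨t, -, rfl⟩ := Finset.mem_map.1 hk1
      obtain ⟨s, hs, he⟩ := Finset.mem_map.1 hk2
      obtain ⟨h2, -⟩ := (hG2 s).1 hs
      rcases s with _ | ⟨a, s⟩
      · simp [bump] at he
      · have := h2 a (by simp)
        simp only [Function.Embedding.coeFn_mk, bump, List.cons.injEq] at he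
        omega
    refine ⟨_ ∪ _, fun k => ?_, (Finset.card_union_of_disjoint hdisj).trans ?_⟩
    · simp only [Finset.mem_union, Finset.mem_map, Function.Embedding.coeFn_mk, hG1, hG2]
      constructor
      · rintro (⟨t, ⟨ht, hs⟩, rfl⟩ | ⟨s, ⟨ht, hs⟩, rfl⟩)
        · refine ⟨?_, by simp only [List.sum_cons]; omega⟩
          intro j hj
          rcases List.mem_cons.1 hj with rfl | hj
          · exact le_rfl
          · exact ht j hj
        · rcases s with _ | ⟨a, s⟩
          · simp at hs
          · simp only [List.sum_cons] at hs
            refine ⟨?_, by simp only [bump, List.sum_cons]; omega⟩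
            intro j hj
            rcases List.mem_cons.1 hj with rfl | hj
            · have := ht a (by simp)
              omega
            · exact ht j (List.mem_cons_of_mem _ hj)
      · rintro ⟨h, hs⟩
        rcases k with _ | ⟨a, t⟩
        · simp at hs
        · have ha := h a (by simp)
          simp only [List.sum_cons] at hs
          rcases Nat.eq_or_lt_of_le ha with rfl | ha3
          · exact Or.inl ⟨t, ⟨fun j hj => h j (List.mem_cons_of_mem _ hj), by omega⟩, rfl⟩
          · refine Or.inr ⟨(a - 1) :: t, ⟨?_, by simp only [List.sum_cons]; omega⟩, ?_⟩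
            · intro j hj
              rcases List.mem_cons.1 hj with rfl | hj
              · omega
              · exact h j (List.mem_cons_of_mem _ hj)
            · simp only [bump]
              rw [Nat.sub_add_cancel (by omega)]
    · rw [Finset.card_map, Finset.card_map, hc1, hc2, Nat.fib_add_two]

end Pool.Agent.DR
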