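import Pool.Agent.Lib.DR.Blue

set_option autoImplicit false

noncomputable section

namespace Pool.Agent.DR

namespace FoxB

variable {U : Type} [Ring U] (T : Br U)

/-- the total value of a quadruple -/
def mu (n : U × U × U × U) : U := n.1 + T.b0 * n.2.1 + T.b1 * n.2.2.1 + T.c * n.2.2.2

theorem mu_add (n m : U × U × U × U) : mu T (n + m) = mu T n + mu T m := by
  simp only [mu, Prod.fst_add, Prod.snd_add, mul_add]
  abel

theorem mu_sub (n m : U × U × U × U) : mu T (n - m) = mu T n - mu T m := by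
  simp only [mu, Prod.fst_sub, Prod.snd_sub, mul_sub]
  abel

def oB0 : AddMonoid.End (U × U × U × U) :=
  AddMonoidHom.mk' (fun n => (0, mu T n, 0, 0)) fun n m => by simp [mu_add]

def oB1 : AddMonoid.End (U × U × U × U) :=
  AddMonoidHom.mk' (fun n => (0, 0, mu T n, 0)) fun n m => by simp [mu_add]

def oC : AddMonoid.End (U × U × U × U) :=
  AddMonoidHom.mk' (fun n => (0, 0, 0, mu T n)) fun n m => by simp [mu_add]

def oS1 : AddMonoid.End (U × U × U × U) :=
  AddMonoidHom.mk' (fun n => ((T.a0 + T.c) * n.1, (T.a0 + T.c) * n.2.1 - T.c * n.2.2.2,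
    (T.a0 + T.c) * n.2.2.1 - T.c * n.2.2.1,
    (T.a0 + T.c) * n.2.2.2 + T.b1 * n.2.2.1 + T.b0 * n.2.2.2)) fun n m => by
      refine Prod.ext ?_ (Prod.ext ?_ (Prod.ext ?_ ?_)) <;>
        simp only [Prod.fst_add, Prod.snd_add, mul_add] <;> abel

def oS2 : AddMonoid.End (U × U × U × U) :=
  AddMonoidHom.mk' (fun n => (T.a1 * n.1, T.a1 * n.2.1,
    T.a1 * n.2.2.1 + T.c * n.2.2.1 - T.c * n.2.2.2,
    T.a1 * n.2.2.2 - T.b1 * n.2.2.1 + T.b1 * n.2.2.2)) fun n m => by
      refine Prod.ext ?_ (Prod.ext ?_ (Prod.ext ?_ ?_)) <;>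
        simp only [Prod.fst_add, Prod.snd_add, mul_add] <;> abel

theorem oB0_apply (n : U × U × U × U) : oB0 T n = (0, mu T n, 0, 0) := rfl
theorem oB1_apply (n : U × U × U × U) : oB1 T n = (0, 0, mu T n, 0) := rfl
theorem oC_apply (n : U × U × U × U) : oC T n = (0, 0, 0, mu T n) := rfl
theorem oS1_apply (n : U × U × U × U) : oS1 T n =
    ((T.a0 + T.c) * n.1, (T.a0 + T.c) * n.2.1 - T.c * n.2.2.2,
    (T.a0 + T.c) * n.2.2.1 - T.c * n.2.2.1,
    (T.a0 + T.c) * n.2.2.2 + T.b1 * n.2.2.1 + T.b0 * n.2.2.2) := rfl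
theorem oS2_apply (n : U × U × U × U) : oS2 T n = (T.a1 * n.1, T.a1 * n.2.1,
    T.a1 * n.2.2.1 + T.c * n.2.2.1 - T.c * n.2.2.2,
    T.a1 * n.2.2.2 - T.b1 * n.2.2.1 + T.b1 * n.2.2.2) := rfl

theorem mu_B0 (n : U × U × U × U) : mu T (oB0 T n) = T.b0 * mu T n := by
  rw [oB0_apply, mu]; simp

theorem mu_B1 (n : U × U × U × U) : mu T (oB1 T n) = T.b1 * mu T n := by
  rw [oB1_apply, mu]; simp

theorem mu_C (n : U × U × U × U) : mu T (oC T n) = T.c * mu T n := by
  rw [oC_apply, mu]; simp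

theorem mu_S1 (n : U × U × U × U) : mu T (oS1 T n) = (T.a0 + T.c) * mu T n := by
  obtain ⟨s, u0, u1, uc⟩ := n
  have e1 : T.b0 * (T.a0 + T.c) * u0 = (T.a0 + T.c) * T.b0 * u0 := by rw [T.h1.eq]
  have e3 : T.c * (T.a0 + T.b0) * uc = (T.a0 + T.b0) * T.c * uc := by rw [T.h3.eq]
  have e8 : T.a0 * T.b1 * u1 = T.b1 * T.a0 * u1 := by rw [T.h8.eq]
  rw [oS1_apply, mu, mu, ← sub_eq_zero]
  have : (T.a0 + T.c) * s + T.b0 * ((T.a0 + T.c) * u0 - T.c * uc) +
      T.b1 * ((T.a0 + T.c) * u1 - T.c * u1) +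
      T.c * ((T.a0 + T.c) * uc + T.b1 * u1 + T.b0 * uc) -
      (T.a0 + T.c) * (s + T.b0 * u0 + T.b1 * u1 + T.c * uc) =
      (T.b0 * (T.a0 + T.c) * u0 - (T.a0 + T.c) * T.b0 * u0) +
      (T.c * (T.a0 + T.b0) * uc - (T.a0 + T.b0) * T.c * uc) -
      (T.a0 * T.b1 * u1 - T.b1 * T.a0 * u1) := by noncomm_ring
  rw [this, e1, e3, e8]
  simp

theorem mu_S2 (n : U × U × U × U) : mu T (oS2 T n) = T.a1 * mu T n := by
  obtain ⟨s, u0, u1, uc⟩ := n
  have e7 : T.b0 * T.a1 * u0 = T.a1 * T.b0 * u0 := by rw [T.h7.eq]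
  have e4 : T.c * (T.a1 + T.b1) * uc = (T.a1 + T.b1) * T.c * uc := by rw [T.h4.eq]
  have e5 : T.b1 * (T.c + T.a1) * u1 = (T.c + T.a1) * T.b1 * u1 := by rw [T.h5.eq]
  rw [oS2_apply, mu, mu, ← sub_eq_zero]
  have : T.a1 * s + T.b0 * (T.a1 * u0) + T.b1 * (T.a1 * u1 + T.c * u1 - T.c * uc) +
      T.c * (T.a1 * uc - T.b1 * u1 + T.b1 * uc) -
      T.a1 * (s + T.b0 * u0 + T.b1 * u1 + T.c * uc) =
      (T.b0 * T.a1 * u0 - T.a1 * T.b0 * u0) +
      (T.c * (T.a1 + T.b1) * uc - (T.a1 + T.b1) * T.c * uc) +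
      (T.b1 * (T.c + T.a1) * u1 - (T.c + T.a1) * T.b1 * u1) := by noncomm_ring
  rw [this, e7, e4, e5]
  simp

theorem mul_app (p q : AddMonoid.End (U × U × U × U)) (n : U × U × U × U) :
    (p * q) n = p (q n) := rfl

theorem sub_app (p q : AddMonoid.End (U × U × U × U)) (n : U × U × U × U) :
    (p - q) n = p n - q n := rfl

theorem end_ext {p q : AddMonoid.End (U × U × U × U)} (h : ∀ n, p n = q n) : p = q :=
  AddMonoidHom.ext h

theorem k1 : oS1 T * oB0 T = oB0 T * oS1 T := end_ext fun n => by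
  rw [mul_app, mul_app, oB0_apply T (oS1 T n), mu_S1, oB0_apply, oS1_apply]
  simp

theorem k2 : oS2 T * oB0 T = oB0 T * oS2 T := end_ext fun n => by
  rw [mul_app, mul_app, oB0_apply T (oS2 T n), mu_S2, oB0_apply, oS2_apply]
  simp

theorem k3 : oS1 T * oC T - oC T * oS1 T = oC T * oB0 T - oB0 T * oC T :=
  end_ext fun n => by
    rw [sub_app, sub_app, mul_app, mul_app, mul_app, mul_app, oC_apply T (oS1 T n), mu_S1,
      oC_apply T (oB0 T n), mu_B0, oB0_apply T (oC T n), mu_C, oC_apply, oS1_apply]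
    simp

theorem k4 : oS1 T * oB1 T - oB1 T * oS1 T = oC T * oB1 T - oB1 T * oC T :=
  end_ext fun n => by
    rw [sub_app, sub_app, mul_app, mul_app, mul_app, mul_app, oB1_apply T (oS1 T n), mu_S1,
      oC_apply T (oB1 T n), mu_B1, oB1_apply T (oC T n), mu_C, oB1_apply, oS1_apply]
    simp

theorem k5 : oS2 T * oC T - oC T * oS2 T = oC T * oB1 T - oB1 T * oC T :=
  end_ext fun n => by
    rw [sub_app, sub_app, mul_app, mul_app, mul_app, mul_app, oC_apply T (oS2 T n), mu_S2,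
      oC_apply T (oB1 T n), mu_B1, oB1_apply T (oC T n), mu_C, oC_apply, oS2_apply]
    simp

theorem k6 : oS2 T * oB1 T - oB1 T * oS2 T = oB1 T * oC T - oC T * oB1 T :=
  end_ext fun n => by
    rw [sub_app, sub_app, mul_app, mul_app, mul_app, mul_app, oB1_apply T (oS2 T n), mu_S2,
      oC_apply T (oB1 T n), mu_B1, oB1_apply T (oC T n), mu_C, oB1_apply, oS2_apply]
    simp

/-- six commutator relations give the eight braid relations -/
def brOf {B : Type} [Ring B] (s1 s2 c b0 b1 : B) (k1 : s1 * b0 = b0 * s1) (k2 : s2 * b0 = b0 * s2)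
    (k3 : s1 * c - c * s1 = c * b0 - b0 * c) (k4 : s1 * b1 - b1 * s1 = c * b1 - b1 * c)
    (k5 : s2 * c - c * s2 = c * b1 - b1 * c) (k6 : s2 * b1 - b1 * s2 = b1 * c - c * b1) : Br B where
  a0 := s1 - c
  a1 := s2
  c := c
  b0 := b0
  b1 := b1
  h1 := by rw [sub_add_cancel]; exact k1.symm
  h2 := by
    have : (s1 - c) * (b0 + c) - (b0 + c) * (s1 - c) =
        (s1 * b0 - b0 * s1) + ((s1 * c - c * s1) - (c * b0 - b0 * c)) := by noncomm_ring
    rw [k1, k3, sub_self, sub_self, add_zero, sub_eq_zero] at this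
    exact this
  h3 := by
    have : c * (s1 - c + b0) - (s1 - c + b0) * c =
        (c * b0 - b0 * c) - (s1 * c - c * s1) := by noncomm_ring
    rw [k3, sub_self, sub_eq_zero] at this
    exact this
  h4 := by
    have : c * (s2 + b1) - (s2 + b1) * c =
        (c * b1 - b1 * c) - (s2 * c - c * s2) := by noncomm_ring
    rw [k5, sub_self, sub_eq_zero] at this
    exact this
  h5 := by
    have : b1 * (c + s2) - (c + s2) * b1 =
        (b1 * c - c * b1) - (s2 * b1 - b1 * s2) := by noncomm_ring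
    rw [k6, sub_self, sub_eq_zero] at this
    exact this
  h6 := by
    have : s2 * (c + b1) - (c + b1) * s2 = ((s2 * c - c * s2) - (c * b1 - b1 * c)) +
        ((s2 * b1 - b1 * s2) - (b1 * c - c * b1)) := by noncomm_ring
    rw [k5, k6, sub_self, sub_self, add_zero, sub_eq_zero] at this
    exact this
  h7 := k2.symm
  h8 := by
    have : (s1 - c) * b1 - b1 * (s1 - c) =
        (s1 * b1 - b1 * s1) - (c * b1 - b1 * c) := by noncomm_ring
    rw [k4, sub_self, sub_eq_zero] at this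
    exact this

/-- evaluation of the representation at the base vector -/
def ev (r : U →+* AddMonoid.End (U × U × U × U)) : U →+ U × U × U × U :=
  AddMonoidHom.mk' (fun u => r u (1, 0, 0, 0)) fun u v => by rw [map_add]; rfl

theorem ev_mul (r : U →+* AddMonoid.End (U × U × U × U)) (t u : U) :
    ev r (t * u) = r t (ev r u) := by
  change r (t * u) (1, 0, 0, 0) = r t (r u (1, 0, 0, 0))
  rw [map_mul]
  rfl

theorem ev_one (r : U →+* AddMonoid.End (U × U × U × U)) : ev r 1 = (1, 0, 0, 0) := by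
  change r 1 (1, 0, 0, 0) = _
  rw [map_one]
  rfl

end FoxB

open FoxB in
theorem st_FOX : St_FOX := by
  intro U _ T hU g0 g1 gc
  obtain ⟨r, ra0, ra1, rc, rb0, rb1⟩ := hU.lift _
    (brOf (oS1 T) (oS2 T) (oC T) (oB0 T) (oB1 T) (k1 T) (k2 T) (k3 T) (k4 T) (k5 T) (k6 T))
  replace ra0 : r T.a0 = oS1 T - oC T := ra0
  replace ra1 : r T.a1 = oS2 T := ra1
  replace rc : r T.c = oC T := rc
  replace rb0 : r T.b0 = oB0 T := rb0
  replace rb1 : r T.b1 = oB1 T := rb1
  have hmu : ∀ u, mu T (ev r u) = u := by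
    let m : U →+ U := AddMonoidHom.mk' (fun u => mu T (ev r u) - u) fun u v => by
      rw [map_add, mu_add]; abel
    have hm : ∀ u, u ∈ m.ker ↔ mu T (ev r u) = u := fun u => by
      rw [AddMonoidHom.mem_ker]; exact sub_eq_zero
    intro u
    refine (hm u).1 (hU.ind m.ker ((hm 1).2 ?_) (fun u hu => ?_) u)
    · rw [ev_one, mu]; simp
    · have h := (hm u).1 hu
      simp only [hm, ev_mul, ra0, ra1, rc, rb0, rb1, sub_app, mu_sub, mu_S1, mu_S2, mu_C, mu_B0,
        mu_B1, h, and_true]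
      rw [add_mul, add_sub_cancel_right]
  let p : U →+ U × U × U := (AddMonoidHom.snd _ _).comp (ev r)
  have hp : ∀ u, p u = (ev r u).2 := fun _ => rfl
  let f : U →+ ℤ := AddMonoidHom.mk' (fun u => g0 (p u).1 + g1 (p u).2.1 + gc (p u).2.2)
    fun u v => by
      simp only [map_add, Prod.fst_add, Prod.snd_add]
      ring
  have hf : ∀ u, f u = g0 (p u).1 + g1 (p u).2.1 + gc (p u).2.2 := fun _ => rfl
  refine ⟨f, fun u => ?_, fun u => ?_, fun u => ?_, fun s hs => ?_⟩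
  · rw [hf, hp, ev_mul, rb0, oB0_apply, hmu]; simp
  · rw [hf, hp, ev_mul, rb1, oB1_apply, hmu]; simp
  · rw [hf, hp, ev_mul, rc, oC_apply, hmu]; simp
  · have h0 : s ∈ p.ker := by
      refine closure_left p.ker ?_ (fun g hg u hu => ?_) hs
      · rw [AddMonoidHom.mem_ker, hp, ev_one]; rfl
      · rw [AddMonoidHom.mem_ker, hp] at hu ⊢
        rcases hg with rfl | rfl
        · rw [ev_mul, map_add, ra0, rc, sub_add_cancel, oS1_apply, hu]; simp
        · rw [ev_mul, ra1, oS2_apply, hu]; simp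
    rw [hf, (AddMonoidHom.mem_ker).1 h0]
    simp

end Pool.Agent.DR
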