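import Pool.Agent.Lib.DR.B_SH2

set_option autoImplicit false

noncomputable section

namespace Pool.Agent.DR

open Finset

universe v v'

namespace SH3

open SH2

theorem strip {M : Type v'} [AddCommGroup M] {Φ : List Bool → M}
    (h : ∀ (n : ℕ) (w : List Bool), w.length < n → ∑ u ∈ W n, m u w • Φ u = 0)
    (P : List Bool → Prop)
    (h1 : ∀ u w, m u w ≠ 0 → P w → P u) (h2 : ∀ w, P (true :: w) → P w) (n : ℕ) :
    ∀ (j : ℕ) (w : List Bool), yh w = false → P w → j + w.length = n →
      Φ (List.replicate j true ++ w) ∈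
        Submodule.span ℤ (Φ '' {u | (P u ∧ yh u = false) ∧ u.length = n}) := by
  have h3 : ∀ (i : ℕ) (w : List Bool), P (List.replicate i true ++ w) → P w := fun i w => by
    induction i with
    | zero => simp
    | succ i ih => exact fun hp => ih (h2 _ hp)
  intro j
  induction j using Nat.strong_induction_on with
  | _ j ih =>
    intro w hy hp hn
    rcases Nat.eq_zero_or_pos j with rfl | hj
    · exact Submodule.subset_span ⟨w, ⟨⟨hp, hy⟩, by simpa using hn⟩, by simp⟩
    have hr := h n w (by omega)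
    have hm : List.replicate j true ++ w ∈ W n := mem_W.2 (by simpa using hn)
    rw [← add_sum_erase _ _ hm, m_rep hy, m_eq w w rfl, if_pos rfl, one_smul,
      add_eq_zero_iff_eq_neg] at hr
    rw [hr]
    refine neg_mem (Submodule.sum_mem _ fun u hu => ?_)
    by_cases h0 : m u w = 0
    · rw [h0, zero_smul]
      exact zero_mem _
    refine Submodule.smul_mem _ _ ?_
    obtain ⟨hne, hu⟩ := mem_erase.1 hu
    have hpu := h1 u w h0 hp
    obtain ⟨i, u', rfl, hy'⟩ := decomp u
    have hl : i + u'.length = n := by simpa using mem_W.1 hu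
    rw [m_rep hy] at h0
    have hle := m_len u' w h0
    have hij : i < j := by
      by_contra hc
      have he : u'.length = w.length := by omega
      have hi : i = j := by omega
      rw [m_eq u' w he] at h0
      have : u' = w := by
        by_contra hc'
        simp [hc'] at h0
      exact hne (by rw [hi, this])
    exact ih i hij u' hy' (h3 i u' hpu) hl

theorem strip' {M : Type v'} [AddCommGroup M] {Φ : List Bool → M}
    (h : ∀ (n : ℕ) (w : List Bool), w.length < n → ∑ u ∈ W n, m u w • Φ u = 0)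
    (P : List Bool → Prop)
    (h1 : ∀ u w, m u w ≠ 0 → P w → P u) (h2 : ∀ w, P (true :: w) → P w) (w : List Bool)
    (hw : P w) :
    Φ w ∈ Submodule.span ℤ (Φ '' {u | (P u ∧ yh u = false) ∧ u.length = w.length}) := by
  obtain ⟨i, w', rfl, hy⟩ := decomp w
  have h3 : ∀ (i : ℕ) (w : List Bool), P (List.replicate i true ++ w) → P w := fun i w => by
    induction i with
    | zero => simp
    | succ i ih => exact fun hp => ih (h2 _ hp)
  exact strip h P h1 h2 _ i w' hy (h3 i w' hw) (by simp)

/-- the universal coefficient of a word -/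
def ev (u : List Bool) :
    ∀ (R : CommRingCat.{v}) (_ : {Φ : List Bool → R // Shift Φ}), R := fun _ Φ => Φ.1 u

theorem ev_rel (n : ℕ) (w : List Bool) (hw : w.length < n) :
    ∑ u ∈ W n, m u w • ev.{v} u = 0 := by
  funext R Φ
  simp only [Finset.sum_apply, Pi.smul_apply, Pi.zero_apply, ev]
  exact rel Φ.2 hw

theorem ev_rel_sg (n : ℕ) (w : List Bool) (hw : w.length < n) :
    ∑ u ∈ W n, m u w • ev.{v} (sg u) = 0 := by
  funext R Φ
  simp only [Finset.sum_apply, Pi.smul_apply, Pi.zero_apply, ev]
  exact rel (shift_sg Φ.2) hw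

theorem ev_mem (w : List Bool) :
    ev.{v} w ∈ Submodule.span ℤ (ev.{v} '' {u | Adm u ∧ u.length = w.length}) := by
  have h1 := strip' (Φ := fun u => ev.{v} (sg u)) ev_rel_sg (fun _ => True)
    (fun _ _ _ _ => trivial) (fun _ _ => trivial) (sg w) trivial
  simp only [sg_sg, sg_len] at h1
  refine Submodule.span_le.2 ?_ h1
  rintro _ ⟨u, ⟨⟨-, hy⟩, hl⟩, rfl⟩
  have h2 := strip' ev_rel.{v} OK m_OK (fun _ hw => hw.tail) (sg u) (sg_OK hy)
  rw [sg_len, hl] at h2
  exact h2

end SH3

theorem st_SH3 (w : List Bool) : ∃ m : List Bool → ℤ, (∀ u, m u ≠ 0 → Adm u) ∧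
    ∀ (R : Type v) [CommRing R] (Φ : List Bool → R), Shift Φ →
      Φ w = ∑ u ∈ W w.length, m u • Φ u := by
  obtain ⟨l, hl, e⟩ := (Finsupp.mem_span_image_iff_linearCombination ℤ).1 (SH3.ev_mem.{v} w)
  rw [Finsupp.mem_supported] at hl
  refine ⟨l, fun u hu => (hl (Finsupp.mem_support_iff.2 hu)).1, fun R _ Φ h => ?_⟩
  rw [Finsupp.linearCombination_apply, Finsupp.sum_of_support_subset l (s := W w.length)
    (fun u hu => mem_W.2 (hl hu).2) _ (by simp)] at e
  have e' := congrFun (congrFun e (CommRingCat.of R)) ⟨Φ, h⟩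
  simp only [Finset.sum_apply, Pi.smul_apply, SH3.ev] at e'
  exact e'.symm

end Pool.Agent.DR
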