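import Pool.Agent.Lib.DR.Blue

set_option autoImplicit false

noncomputable section

namespace Pool.Agent.DR

open Finset

universe v

theorem Good.yh {u : List Bool} (h : Good u) : yh u = false := by
  obtain ⟨k, hk, rfl⟩ := h
  cases k with
  | nil => rfl
  | cons j k =>
    obtain ⟨i, rfl⟩ := Nat.exists_eq_add_of_le' (hk j List.mem_cons_self)
    simp [idx, List.replicate_succ]

theorem length_idx (k : List ℕ) (hk : ∀ j ∈ k, 2 ≤ j) : (idx k).length = k.sum := by
  induction k with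
  | nil => rfl
  | cons j k ih =>
    have h1 := hk j List.mem_cons_self
    have h2 := ih fun i hi => hk i (List.mem_cons_of_mem _ hi)
    simp only [idx, List.flatMap_cons, List.length_append, List.length_replicate, List.sum_cons,
      List.length_singleton] at h2 ⊢
    omega

theorem supp (hC : St_CHAIN) (hI : St_INJ) {U : Type} [Ring U] {T : Br U} {fl : Bool} {D : U →+* U}
    {φ : List Bool → U →+ ℤ} (hF : Fam T fl D φ) (hV : ∀ w, OK w → Van T (φ w)) {w : List Bool}
    (hw : OK (false :: w)) {e : List Bool → ℚ}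
    (he : ∀ N : ℕ, 1 ≤ N → Q fl N (false :: w) (N - 1) = ∑ u ∈ W (w.length + 1), e u * HH u N)
    (u : List Bool) : (φ (false :: w) (wd (T.a0 + T.b0) (T.a1 + T.b1) u) : ℚ) =
      if u.length = w.length + 1 ∧ u.getLast? ≠ some false then e u else 0 := by
  by_cases hu : OK u
  · have h1 := hI u.length (fun u' => (φ (false :: w) (wd (T.a0 + T.b0) (T.a1 + T.b1) u') : ℚ) -
      if u.length = w.length + 1 then e u' else 0) (fun N hN => by
        simp only [sub_mul, sum_sub_distrib]
        rw [hC U T fl D φ hF hV w hw _ N hN]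
        split_ifs with h
        · rw [he N hN, h, sub_self]
        · simp) u (mem_W.2 rfl) hu
    simpa [show u.getLast? ≠ some false from hu, sub_eq_zero] using h1
  · obtain ⟨v, rfl⟩ := not_OK hu
    have := hV _ hw (wd (T.a0 + T.b0) (T.a1 + T.b1) v)
    simp [wd_append, mul_add, this.1, this.2.1]

theorem adm_mem (hUNIV : St_UNIV) (hFOX : St_FOX) (hUNI : St_UNI) (hFAM : St_FAM) (hVAN : St_VAN)
    (hAB : St_AB) (hETA : St_ETA) (hTENS : St_TENS.{v}) (hCONV : St_CONV.{v}) (hC : St_CHAIN)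
    (hS : St_SPAN) (hM : St_MSW) (hI : St_INJ) {R : Type v} [CommRing R] {Φ : List Bool → R}
    (hP : Pent Φ) (h1 : Φ [] = 1) {w : List Bool} (hw : OK (false :: w)) :
    Φ (false :: w) ∈ Submodule.span ℤ (Φ '' {u | Good u ∧ u.length = w.length + 1}) := by
  obtain ⟨U, _, T, hU⟩ := hUNIV
  choose D φ hF using hFAM U T hU (hFOX U T hU) (hFOX U _ hU.swap)
  have hV : ∀ fl w, OK w → Van T (φ fl w) := fun fl =>
    hVAN U T fl _ _ (hUNI U T hU) (hUNI U _ hU.swap) (hF fl)
  have s0 : ∀ w, OK (false :: w) → ∀ u,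
      φ false (false :: w) (wd (T.a0 + T.b0) (T.a1 + T.b1) u) ≠ 0 → Good u := fun w hw u hu => by
    obtain ⟨e, he1, he2⟩ := hS (false :: w) ⟨hw, rfl⟩
    have := supp hC hI (hF false) (hV false) hw he2 u
    refine he1 u fun h0 => hu ?_
    rw [h0, ite_self] at this
    exact_mod_cast this
  have s1 : ∀ w, OK (false :: w) → ∀ u, φ true (false :: w) (wd (T.a0 + T.b0) (T.a1 + T.b1) u) =
      if u = false :: w then (-1) ^ (false :: w).count true else 0 := fun w hw u => by
    have := supp hC hI (hF true) (hV true) hw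
      (e := fun u => if u = false :: w then (-1) ^ (false :: w).count true else 0)
      (fun N hN => by
        rw [hM _ hw N hN]
        simp only [ite_mul, zero_mul]
        rw [sum_ite_eq', if_pos (mem_W.2 List.length_cons)]) u
    by_cases h : u = false :: w
    · rw [if_pos ⟨by rw [h]; rfl, by rw [h]; exact hw⟩, if_pos h] at this
      rw [if_pos h]
      exact_mod_cast this
    · rw [if_neg h, ite_self] at this
      rw [if_neg h]
      exact_mod_cast this
  have hK : ∀ fl, Kap (kap T (D fl) (φ fl)) := fun fl =>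
    hETA U T fl _ _ (hF fl) (hV fl) fun w hw v => by
      rcases w with _ | ⟨_ | _, w⟩
      · rw [wd_true, add_mul, map_add, ((hF fl).nil _).2.1, ((hF fl).nil _).2.2.2.2, add_zero]
      · cases fl
        · by_contra h
          exact absurd (s0 w hw.1 _ h).yh (by simp)
        · rw [s1 w hw.1, if_neg (by simp)]
      · exact absurd hw.2 (by simp)
  have hc := hCONV R Φ (fun w u v => kap T (D false) (φ false) w u v - kap T (D true) (φ true) w u v)
    h1 ⟨fun s w v h => by rw [(hK _).f1 s w v h, (hK _).f1 s w v h, sub_zero],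
      fun s w t u v h => by
        rw [(hK _).f2 s w t u v h, (hK _).f2 s w t u v h]
        split_ifs <;> ring,
      fun s w u v h => by
        rw [(hK _).t1 s w u v h, (hK _).t1 s w u v h]
        split_ifs <;> ring⟩
    (by simp [kap, psi, (hF _).nil1])
    (fun w hw => by
      simp only [sub_smul, sum_sub_distrib, kap, psi, yh_cons, Bool.false_eq_true, if_false]
      rw [hTENS R Φ hP h1 U T _ (hV _ _ hw) (hAB U T _ _ _ (hF _) w hw),
        hTENS R Φ hP h1 U T _ (hV _ _ hw) (hAB U T _ _ _ (hF _) w hw), sub_zero]) w hw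
  simp only [sub_smul, sum_sub_distrib, kap, psi, yh_cons, Bool.false_eq_true, if_false, wd_nil,
    one_mul, s1 w hw, ite_smul, zero_smul] at hc
  rw [sum_ite_eq', if_pos (mem_W.2 List.length_cons), sub_eq_zero] at hc
  have h2 : ((-1 : ℤ) ^ (false :: w).count true) • ((-1 : ℤ) ^ (false :: w).count true) •
      Φ (false :: w) = Φ (false :: w) := by
    rw [smul_smul, ← mul_pow, neg_one_mul, neg_neg, one_pow, one_smul]
  rw [← h2, ← hc]
  refine Submodule.smul_mem _ _ (Submodule.sum_mem _ fun u hu => ?_)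
  by_cases h : φ false (false :: w) (wd (T.a0 + T.b0) (T.a1 + T.b1) u) = 0
  · rw [h, zero_smul]
    exact zero_mem _
  · exact Submodule.smul_mem _ _ (Submodule.subset_span ⟨u, ⟨s0 w hw u h, mem_W.1 hu⟩, rfl⟩)

theorem main_of (hUNIV : St_UNIV) (hFOX : St_FOX) (hUNI : St_UNI) (hFAM : St_FAM) (hVAN : St_VAN)
    (hAB : St_AB) (hETA : St_ETA) (hLIFT : St_LIFT.{v}) (hTENS : St_TENS.{v})
    (hCONV : St_CONV.{v}) (hSH1 : St_SH1.{v}) (hSH2 : St_SH2.{v}) (hC : St_CHAIN)
    (hS : St_SPAN) (hM : St_MSW) (hI : St_INJ) (hN : St_COUNT) (n : ℕ) :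
    ∃ G : Finset (List ℕ), (∀ k, k ∈ G ↔ (∀ j ∈ k, 2 ≤ j) ∧ k.sum = n + 1) ∧ G.card = Nat.fib n ∧
      ∀ (R : Type v) [CommRing R] (Φ : List Bool → R), Φ [] = 1 → Pentagon Φ →
        ∀ w : List Bool, w.length = n + 1 →
          Φ w ∈ Submodule.span ℤ ((fun k => Φ (idx k)) '' (G : Set (List ℕ))) := by
  obtain ⟨G, hG, hc⟩ := hN n
  refine ⟨G, hG, hc, fun R _ Φ h1 hP w hw => ?_⟩
  have hP' := hLIFT R Φ hP
  refine Submodule.span_le.2 ?_ (hSH2 R Φ (hSH1 R Φ hP' h1) w)
  rintro _ ⟨u, ⟨hu, hl⟩, rfl⟩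
  rw [hw] at hl
  rcases u with _ | ⟨_ | _, u⟩
  · simp at hl
  · refine Submodule.span_mono ?_
      (adm_mem hUNIV hFOX hUNI hFAM hVAN hAB hETA hTENS hCONV hC hS hM hI hP' h1 hu.1)
    rintro _ ⟨_, ⟨⟨k, hk, rfl⟩, hl'⟩, rfl⟩
    exact ⟨k, (hG k).2 ⟨hk, by rw [← length_idx k hk, hl', ← hl]; rfl⟩, rfl⟩
  · exact absurd hu.2 (by simp)

end Pool.Agent.DR
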